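import Pool.Agent.Lib.MP_7ed9c3_nt.Vz.Spec

/-!
Part Vz, module Apr (helper49): the a priori bound of SZ.
-/

set_option autoImplicit false

namespace MP7ed9c3.Vz

open NumberField IsDedekindDomain Filter Topology MeasureTheory MP7ed9c3.Zr

private theorem Apr_SZ_nn {Z : Finset ℂ} {m : ℂ → ℝ} (h : Pt Z m) (t : ℝ) : 0 ≤ SZ Z m t := by
  unfold SZ
  refine Finset.sum_nonneg fun ρ _ => mul_nonneg (h.nn ρ) ?_
  unfold bb
  positivity

private theorem Apr_L {t : ℝ} (ht : 1 ≤ t) : 1 ≤ Real.log (2 + t) := by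
  rw [Real.le_log_iff_exp_le (by linarith)]
  have := Real.exp_one_lt_d9
  linarith

private theorem Apr_L2 {t r : ℝ} (ht : 1 ≤ t) (hr0 : 0 ≤ r) (hr : r ≤ 2 * t) :
    Real.log (2 + r) ≤ 2 * Real.log (2 + t) := by
  have h1 : Real.log (2 + r) ≤ Real.log ((2 + t) ^ 2) :=
    Real.log_le_log (by linarith) (by nlinarith)
  rw [Real.log_pow] at h1
  exact_mod_cast h1

/-- **Apr** -/
theorem tApr : S_Bas → S_Cnt → S_Bnd → S_Low → S_Apr := by
  intro hBas hCnt hBnd hLow Φ C B h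
  obtain ⟨_, hPt, _, hSm, _⟩ := hBas Φ C B h
  obtain ⟨A, hA, hN⟩ := hCnt Φ C B h
  obtain ⟨Cb, hCb, hV⟩ := hBnd A hA
  obtain ⟨Cl, hCl, hL⟩ := hLow Φ C B h
  have hC := h.cc
  have hVZ : ∀ R' R : ℝ, 1 ≤ R → VZ (zer Φ R') (od Φ) R ≤ Cb * Real.log (2 + R) :=
    fun R' R hR => hV (zer Φ R') (od Φ) (hPt R') (fun t ht => hN R' t ht) R hR
  refine ⟨6 * C + Cl * (1 + Cb) + Cb, by positivity, fun R' t ht => ?_, fun R' R hR => ?_⟩
  · obtain ⟨R₀, hR₀⟩ := hL t ht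
    obtain ⟨r, hr1, hr2, hΦ, hlow⟩ := hR₀ (max R' R₀) (le_max_right _ _)
    have hmono : SZ (zer Φ R') (od Φ) t ≤ SZ (zer Φ (max R' R₀)) (od Φ) t :=
      hSm R' (max R' R₀) t t (le_max_left _ _) le_rfl
    refine hmono.trans ?_
    have hS0 := Apr_SZ_nn (hPt (max R' R₀)) t
    have hVt := hVZ (max R' R₀) t ht
    have hL1 := Apr_L ht
    have hr0 : 0 ≤ r := by linarith
    have hL2 := Apr_L2 ht hr0 hr2
    obtain ⟨S, hS⟩ : ∃ S : ℝ, S = SZ (zer Φ (max R' R₀)) (od Φ) t := ⟨_, rfl⟩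
    obtain ⟨V, hVd⟩ : ∃ V : ℝ, V = VZ (zer Φ (max R' R₀)) (od Φ) t := ⟨_, rfl⟩
    obtain ⟨L, hLd⟩ : ∃ L : ℝ, L = Real.log (2 + t) := ⟨_, rfl⟩
    rw [← hS, ← hVd] at hlow
    rw [← hVd, ← hLd] at hVt
    rw [← hLd] at hL1 hL2
    rw [← hS] at hS0
    rw [← hS, ← hLd]
    have hg := h.gr (-(r : ℂ))
    have hn : ‖(-(r : ℂ))‖ = r := by
      rw [norm_neg, Complex.norm_real, Real.norm_of_nonneg hr0]
    rw [hn] at hg
    have hlog : Real.log ‖Φ (-(r : ℂ))‖ ≤ C * ((1 + r) * Real.log (2 + r)) := by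
      rw [Real.log_le_iff_le_exp (norm_pos_iff.2 hΦ)]
      exact hg
    have h1 : (1 + r) * Real.log (2 + r) ≤ 3 * t * (2 * L) := by
      refine mul_le_mul (by linarith) hL2 ?_ (by linarith)
      exact Real.log_nonneg (by linarith)
    have h2 : C * ((1 + r) * Real.log (2 + r)) ≤ C * (3 * t * (2 * L)) :=
      mul_le_mul_of_nonneg_left h1 hC
    have h3 : Cl * (t * (1 + V)) ≤ Cl * (t * ((1 + Cb) * L)) := by
      refine mul_le_mul_of_nonneg_left (mul_le_mul_of_nonneg_left ?_ (by linarith)) hCl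
      linarith
    have h4 : 2 * t * S ≤ 2 * r * S := by
      refine mul_le_mul_of_nonneg_right ?_ hS0
      linarith
    have h5 : 2 * t * S ≤ t * ((6 * C + Cl * (1 + Cb)) * L) := by
      linarith [hlow, hlog, h2, h3, h4]
    have h6 : 2 * S ≤ (6 * C + Cl * (1 + Cb)) * L := by
      have ht0 : 0 < t := by linarith
      have h7 : t * (2 * S) ≤ t * ((6 * C + Cl * (1 + Cb)) * L) := by linarith
      exact le_of_mul_le_mul_left h7 ht0
    have h8 : 0 ≤ Cb * L := mul_nonneg hCb (by linarith)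
    have h9 : (6 * C + Cl * (1 + Cb) + Cb) * L = (6 * C + Cl * (1 + Cb)) * L + Cb * L := by ring
    rw [h9]
    linarith
  · refine (hVZ R' R hR).trans ?_
    have hL1 := Apr_L hR
    refine mul_le_mul_of_nonneg_right ?_ (by linarith)
    have : 0 ≤ Cl * (1 + Cb) := by positivity
    linarith

end MP7ed9c3.Vz
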