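import Pool.Agent.Lib.MP_7ed9c3_nt.Vz.Spec

/-!
# MP_7ed9c3_nt, vertical zeros: the average lower bound for one zero
-/

set_option autoImplicit false

namespace MP7ed9c3.Vz

open NumberField IsDedekindDomain Filter Topology MeasureTheory MP7ed9c3.Zr

theorem Avg_sq_add (ρ : ℂ) (r : ℝ) : ‖ρ + r‖ ^ 2 = ‖ρ‖ ^ 2 + 2 * r * ρ.re + r ^ 2 := by
  rw [Complex.sq_norm, Complex.sq_norm, Complex.normSq_apply, Complex.normSq_apply]
  simp only [Complex.add_re, Complex.add_im, Complex.ofReal_re, Complex.ofReal_im]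
  ring

theorem Avg_sq_sub (ρ : ℂ) (r : ℝ) : ‖ρ - r‖ ^ 2 = ‖ρ‖ ^ 2 - 2 * r * ρ.re + r ^ 2 := by
  rw [Complex.sq_norm, Complex.sq_norm, Complex.normSq_apply, Complex.normSq_apply]
  simp only [Complex.sub_re, Complex.sub_im, Complex.ofReal_re, Complex.ofReal_im]
  ring

/-- `q ≥ - 2 β r / |ρ + r|²` -/
theorem Avg_q_lower {ρ : ℂ} {r : ℝ} (hr : 0 < r) (hρ : ρ.re < 0) (h : 0 < ‖ρ + r‖) :
    -(2 * (-ρ.re) * r / ‖ρ + r‖ ^ 2) ≤ Real.log (‖ρ + r‖ / ‖ρ - r‖) := by
  have h1 := Avg_sq_add ρ r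
  have h2 := Avg_sq_sub ρ r
  have h3 : 0 < ‖ρ - r‖ ^ 2 := by
    have : ‖ρ - r‖ ^ 2 = ‖ρ + r‖ ^ 2 + 4 * (-ρ.re) * r := by rw [h1, h2]; ring
    rw [this]
    have : 0 < 4 * (-ρ.re) * r := by
      have : 0 < -ρ.re := by linarith
      positivity
    positivity
  have h4 : 0 < ‖ρ - r‖ := by
    rcases (norm_nonneg (ρ - r)).lt_or_eq with h | h
    · exact h
    · rw [← h] at h3
      norm_num at h3
  have h5 : Real.log (‖ρ + r‖ / ‖ρ - r‖) = -(1 / 2) * Real.log (‖ρ - r‖ ^ 2 / ‖ρ + r‖ ^ 2) := by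
    rw [Real.log_div h.ne' h4.ne', Real.log_div (by positivity) (by positivity), Real.log_pow,
      Real.log_pow]
    push_cast
    ring
  have h6 : Real.log (‖ρ - r‖ ^ 2 / ‖ρ + r‖ ^ 2) ≤ ‖ρ - r‖ ^ 2 / ‖ρ + r‖ ^ 2 - 1 :=
    Real.log_le_sub_one_of_pos (by positivity)
  have h7 : ‖ρ - r‖ ^ 2 / ‖ρ + r‖ ^ 2 - 1 = 4 * (-ρ.re) * r / ‖ρ + r‖ ^ 2 := by
    rw [eq_div_iff (by positivity), sub_mul, div_mul_cancel₀ _ (by positivity), h1, h2]
    ring
  rw [h5]
  have h8 : 2 * (-ρ.re) * r / ‖ρ + r‖ ^ 2 = (1 / 2) * (4 * (-ρ.re) * r / ‖ρ + r‖ ^ 2) := by ring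
  rw [h8, ← h7]
  linarith

/-- the integral of `log |r - β|` over `[R, 2R]` -/
theorem Avg_log_int {R β : ℝ} (hR : 0 < R) :
    R * Real.log R - 2 * R ≤ ∫ r in R..(2 * R), Real.log (r - β) := by
  rw [intervalIntegral.integral_comp_sub_right (fun r => Real.log r) β, integral_log]
  set a := R - β with ha
  have hb : 2 * R - β = a + R := by rw [ha]; ring
  rw [hb]
  have key : ∀ x : ℝ, 0 ≤ x → x * Real.log R + x - R ≤ x * Real.log x := by
    intro x hx
    rcases hx.eq_or_lt with h | h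
    · rw [← h]
      simp
      exact hR.le
    · have h1 := Real.log_le_sub_one_of_pos (show 0 < R / x by positivity)
      rw [Real.log_div hR.ne' h.ne'] at h1
      have h2 : x * (R / x - 1) = R - x := by field_simp
      have h3 := mul_le_mul_of_nonneg_left h1 h.le
      rw [h2] at h3
      linarith
  rcases le_or_gt 0 a with h | h
  · have h1 : Real.log R ≤ Real.log (a + R) := Real.log_le_log hR (by linarith)
    have h2 : a * Real.log a ≤ a * Real.log (a + R) := by
      rcases h.eq_or_lt with h' | h'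
      · rw [← h']
        simp
      · exact mul_le_mul_of_nonneg_left (Real.log_le_log h' (by linarith)) h
    nlinarith [mul_le_mul_of_nonneg_left h1 hR.le]
  · rcases le_or_gt 0 (a + R) with h' | h'
    · have h1 := key (a + R) h'
      have h2 := key (-a) (by linarith)
      rw [Real.log_neg_eq_log] at h2
      nlinarith
    · have e1 : Real.log (a + R) = Real.log (-(a + R)) := (Real.log_neg_eq_log _).symm
      have e2 : Real.log a = Real.log (-a) := (Real.log_neg_eq_log _).symm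
      have h1 : Real.log (-(a + R)) ≤ Real.log (-a) := Real.log_le_log (by linarith) (by linarith)
      have h2 : Real.log R ≤ Real.log (-a) := Real.log_le_log hR (by linarith)
      rw [e1, e2]
      have h3 := mul_le_mul_of_nonneg_left h1 (show 0 ≤ -(a + R) by linarith)
      have h4 := mul_le_mul_of_nonneg_left h2 hR.le
      nlinarith

theorem Avg_ii (ρ : ℂ) (a b : ℝ) :
    IntervalIntegrable (fun r : ℝ => Real.log (‖ρ + r‖ / ‖ρ - r‖)) volume a b := by
  have h1 : MeromorphicOn (fun r : ℝ => (ρ + r) / (ρ - r)) (Set.uIcc a b) := by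
    intro x _
    have e1 : AnalyticAt ℝ (fun r : ℝ => (ρ + r : ℂ)) x :=
      analyticAt_const.add (Complex.ofRealCLM.analyticAt x)
    have e2 : AnalyticAt ℝ (fun r : ℝ => (ρ - r : ℂ)) x :=
      analyticAt_const.sub (Complex.ofRealCLM.analyticAt x)
    exact e1.meromorphicAt.div e2.meromorphicAt
  have h2 := h1.intervalIntegrable_log_norm
  refine h2.congr ?_
  intro r _
  simp only [norm_div]

/-- the integrand -/
noncomputable def Avg_f (ρ : ℂ) (R r : ℝ) : ℝ :=
  2 * r * (-ρ.re / ‖ρ‖ ^ 2) * (if ‖ρ‖ ≤ R then 0 else 1) + Real.log (‖ρ + r‖ / ‖ρ - r‖)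

theorem Avg_fi (ρ : ℂ) (R a b : ℝ) : IntervalIntegrable (Avg_f ρ R) volume a b := by
  refine IntervalIntegrable.add ?_ (Avg_ii ρ a b)
  apply Continuous.intervalIntegrable
  fun_prop

theorem Avg_low {ρ : ℂ} {R C : ℝ} (hR : 0 < R) (h : ∀ r ∈ Set.Icc R (2 * R), -C ≤ Avg_f ρ R r) :
    -(C * R) ≤ ∫ r in R..(2 * R), Avg_f ρ R r := by
  have h1 : ∫ r in R..(2 * R), (-C) ≤ ∫ r in R..(2 * R), Avg_f ρ R r :=
    intervalIntegral.integral_mono_on (by linarith) (by simp) (Avg_fi ρ R _ _) h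
  refine le_trans (le_of_eq ?_) h1
  rw [intervalIntegral.integral_const, smul_eq_mul]
  ring

theorem Avg_q_le_f {ρ : ℂ} {R r : ℝ} (hρ : ρ.re < 0) (hr : 0 < r) :
    Real.log (‖ρ + r‖ / ‖ρ - r‖) ≤ Avg_f ρ R r := by
  rw [Avg_f]
  have h1 : 0 ≤ 2 * r * (-ρ.re / ‖ρ‖ ^ 2) * (if ‖ρ‖ ≤ R then (0 : ℝ) else 1) := by
    have h2 : 0 ≤ -ρ.re := by linarith
    split_ifs <;> positivity
  linarith

theorem Avg_avg {ρ : ℂ} {R : ℝ} (hρ : ρ.re < 0) (hR : 1 ≤ R) :
    -(100 * R ^ 2 * (-ρ.re / ‖ρ‖ ^ 2) * √(min (‖ρ‖ / R) (R / ‖ρ‖))) ≤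
      ∫ r in R..(2 * R), Avg_f ρ R r := by
  have hR0 : 0 < R := by linarith
  have hn : 0 < ‖ρ‖ := by
    have h := Complex.abs_re_le_norm ρ
    have h' : 0 < |ρ.re| := abs_pos.2 hρ.ne
    linarith
  set β := -ρ.re with hβ
  have hβ0 : 0 < β := by linarith
  have hβn : β ≤ ‖ρ‖ := by
    have h := Complex.abs_re_le_norm ρ
    rw [abs_of_neg hρ] at h
    exact h
  set m := min (‖ρ‖ / R) (R / ‖ρ‖) with hm
  have hm0 : 0 ≤ m := le_min (by positivity) (by positivity)
  have hm1 : m ≤ 1 := by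
    rcases le_or_gt ‖ρ‖ R with h | h
    · exact (min_le_left _ _).trans ((div_le_one hR0).2 h)
    · exact (min_le_right _ _).trans ((div_le_one hn).2 h.le)
  have hW : m ≤ √m := by
    apply Real.le_sqrt_of_sq_le
    nlinarith
  have hs0 : 0 ≤ √m := Real.sqrt_nonneg _
  rcases le_or_gt ‖ρ‖ (R / 2) with h1 | h1
  · -- small
    have hml : m = ‖ρ‖ / R := by
      rw [hm, min_eq_left]
      rw [div_le_div_iff₀ hR0 hn]
      nlinarith
    have hb : -(8 * β / R * R) ≤ ∫ r in R..(2 * R), Avg_f ρ R r := by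
      apply Avg_low hR0
      intro r hr
      have hr0 : 0 < r := by linarith [hr.1]
      have h2 : r / 2 ≤ ‖ρ + r‖ := by
        have h3 : ‖(r : ℂ)‖ ≤ ‖ρ + r‖ + ‖ρ‖ := by
          have := norm_sub_le (ρ + (r : ℂ)) ρ
          rwa [add_sub_cancel_left] at this
        rw [Complex.norm_real, Real.norm_of_nonneg hr0.le] at h3
        linarith [hr.1]
      refine le_trans ?_ (Avg_q_le_f hρ hr0)
      refine le_trans ?_ (Avg_q_lower hr0 hρ (by linarith))
      rw [← hβ]
      apply neg_le_neg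
      have hp : 0 < ‖ρ + r‖ := by linarith
      rw [div_le_div_iff₀ (by positivity) hR0]
      have h3 : r ^ 2 / 4 ≤ ‖ρ + r‖ ^ 2 := by nlinarith
      have h4 : R ≤ r := hr.1
      calc 2 * β * r * R ≤ 2 * β * (r * r) := by
            have := mul_le_mul_of_nonneg_left h4 (show 0 ≤ 2 * β * r by positivity)
            linarith
        _ = 8 * β * (r ^ 2 / 4) := by ring
        _ ≤ 8 * β * ‖ρ + r‖ ^ 2 := mul_le_mul_of_nonneg_left h3 (by positivity)
    refine le_trans ?_ hb
    apply neg_le_neg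
    rw [div_mul_cancel₀ _ hR0.ne']
    have h2 : β ≤ R ^ 2 * (β / ‖ρ‖ ^ 2) * m := by
      rw [hml]
      have : R ^ 2 * (β / ‖ρ‖ ^ 2) * (‖ρ‖ / R) = β * (R / ‖ρ‖) := by field_simp
      rw [this]
      have h3 : 1 ≤ R / ‖ρ‖ := by rw [one_le_div hn]; linarith
      nlinarith
    have h3 : R ^ 2 * (β / ‖ρ‖ ^ 2) * m ≤ R ^ 2 * (β / ‖ρ‖ ^ 2) * √m :=
      mul_le_mul_of_nonneg_left hW (by positivity)
    nlinarith
  · rcases le_or_gt (4 * R) ‖ρ‖ with h2 | h2
    · -- large
      have hml : m = R / ‖ρ‖ := by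
        rw [hm, min_eq_right]
        rw [div_le_div_iff₀ hn hR0]
        nlinarith
      have hb : -(64 * R ^ 2 * β / ‖ρ‖ ^ 3 * R) ≤ ∫ r in R..(2 * R), Avg_f ρ R r := by
        apply Avg_low hR0
        intro r hr
        have hr0 : 0 < r := by linarith [hr.1]
        have hr2 : r ≤ 2 * R := hr.2
        have h3 : ‖ρ‖ / 2 ≤ ‖ρ + r‖ := by
          have h4 : ‖ρ‖ ≤ ‖ρ + r‖ + ‖(r : ℂ)‖ := by
            have := norm_sub_le (ρ + (r : ℂ)) r
            rwa [add_sub_cancel_right] at this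
          rw [Complex.norm_real, Real.norm_of_nonneg hr0.le] at h4
          linarith
        have hp : 0 < ‖ρ + r‖ := by linarith
        have h5 := Avg_q_lower hr0 hρ hp
        rw [Avg_f, if_neg (by linarith), mul_one, ← hβ]
        rw [← hβ] at h5
        have h6 := Avg_sq_add ρ r
        have h7 : 2 * r * (β / ‖ρ‖ ^ 2) - 2 * β * r / ‖ρ + r‖ ^ 2 =
            2 * r * β * (r ^ 2 - 2 * β * r) / (‖ρ‖ ^ 2 * ‖ρ + r‖ ^ 2) := by
          have h8 : r ^ 2 - 2 * β * r = ‖ρ + r‖ ^ 2 - ‖ρ‖ ^ 2 := by rw [h6, hβ]; ring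
          rw [h8]
          field_simp
        have h9 : -(16 * r ^ 2 * β ^ 2 / ‖ρ‖ ^ 4) ≤
            2 * r * β * (r ^ 2 - 2 * β * r) / (‖ρ‖ ^ 2 * ‖ρ + r‖ ^ 2) := by
          have h10 : ‖ρ‖ ^ 2 / 4 ≤ ‖ρ + r‖ ^ 2 := by nlinarith
          have h11 : 2 * r * β * (r ^ 2 - 2 * β * r) / (‖ρ‖ ^ 2 * ‖ρ + r‖ ^ 2) ≥
              -(4 * r ^ 2 * β ^ 2 / (‖ρ‖ ^ 2 * ‖ρ + r‖ ^ 2)) := by
            rw [ge_iff_le, ← neg_div]
            apply div_le_div_of_nonneg_right _ (by positivity)
            have : 0 ≤ 2 * r * β * r ^ 2 := by positivity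
            nlinarith
          refine le_trans ?_ h11
          apply neg_le_neg
          rw [div_le_div_iff₀ (by positivity) (by positivity)]
          have h12 : 4 * r ^ 2 * β ^ 2 * ‖ρ‖ ^ 4 = 16 * r ^ 2 * β ^ 2 * (‖ρ‖ ^ 2 * (‖ρ‖ ^ 2 / 4)) := by
            ring
          rw [h12]
          gcongr
        have h13 : 16 * r ^ 2 * β ^ 2 / ‖ρ‖ ^ 4 ≤ 64 * R ^ 2 * β / ‖ρ‖ ^ 3 := by
          rw [div_le_div_iff₀ (by positivity) (by positivity)]
          have h14 : r ^ 2 ≤ 4 * R ^ 2 := by nlinarith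
          calc 16 * r ^ 2 * β ^ 2 * ‖ρ‖ ^ 3 = 16 * r ^ 2 * β * ‖ρ‖ ^ 3 * β := by ring
            _ ≤ 16 * (4 * R ^ 2) * β * ‖ρ‖ ^ 3 * ‖ρ‖ := by gcongr
            _ = 64 * R ^ 2 * β * ‖ρ‖ ^ 4 := by ring
        linarith
      refine le_trans ?_ hb
      apply neg_le_neg
      have h3 : R ^ 2 * (β / ‖ρ‖ ^ 2) * m ≤ R ^ 2 * (β / ‖ρ‖ ^ 2) * √m :=
        mul_le_mul_of_nonneg_left hW (by positivity)
      have h4 : 64 * R ^ 2 * β / ‖ρ‖ ^ 3 * R = 64 * (R ^ 2 * (β / ‖ρ‖ ^ 2) * m) := by
        rw [hml]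
        field_simp
      rw [h4]
      have h5 : 0 ≤ R ^ 2 * (β / ‖ρ‖ ^ 2) * √m := by positivity
      nlinarith
    · -- middle
      have hw : 1 / 2 ≤ √m := by
        apply Real.le_sqrt_of_sq_le
        rw [hm]
        apply le_min
        · rw [le_div_iff₀ hR0]
          linarith
        · rw [le_div_iff₀ hn]
          linarith
      rcases le_or_gt β (‖ρ‖ / 2) with h3 | h3
      · have hb : -(8 / 3 * β / R * R) ≤ ∫ r in R..(2 * R), Avg_f ρ R r := by
          apply Avg_low hR0
          intro r hr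
          have hr0 : 0 < r := by linarith [hr.1]
          have h4 : 3 / 4 * r ^ 2 ≤ ‖ρ + r‖ ^ 2 := by
            rw [Avg_sq_add]
            have h5 : 2 * r * ρ.re = -(2 * r * β) := by rw [hβ]; ring
            rw [h5]
            have h6 : 2 * r * β ≤ r * ‖ρ‖ := by nlinarith
            nlinarith [sq_nonneg (‖ρ‖ - r / 2)]
          have hp : 0 < ‖ρ + r‖ := by
            rcases (norm_nonneg (ρ + r)).lt_or_eq with h | h
            · exact h
            · rw [← h] at h4
              have : 0 < r ^ 2 := by positivity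
              norm_num at h4
              linarith
          refine le_trans ?_ (Avg_q_le_f hρ hr0)
          refine le_trans ?_ (Avg_q_lower hr0 hρ hp)
          rw [← hβ]
          apply neg_le_neg
          rw [div_le_div_iff₀ (by positivity) hR0]
          have h5 : R ≤ r := hr.1
          calc 2 * β * r * R ≤ 2 * β * (r * r) := by
                have := mul_le_mul_of_nonneg_left h5 (show 0 ≤ 2 * β * r by positivity)
                linarith
            _ = 8 / 3 * β * (3 / 4 * r ^ 2) := by ring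
            _ ≤ 8 / 3 * β * ‖ρ + r‖ ^ 2 := mul_le_mul_of_nonneg_left h4 (by positivity)
        refine le_trans ?_ hb
        apply neg_le_neg
        rw [div_mul_cancel₀ _ hR0.ne']
        have h4 : β / 16 ≤ R ^ 2 * (β / ‖ρ‖ ^ 2) := by
          rw [mul_div_assoc', div_le_div_iff₀ (by norm_num) (by positivity)]
          have : ‖ρ‖ ^ 2 ≤ 16 * R ^ 2 := by nlinarith
          nlinarith
        have h5 : β / 16 * (1 / 2) ≤ R ^ 2 * (β / ‖ρ‖ ^ 2) * √m :=
          mul_le_mul h4 hw (by norm_num) (by positivity)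
        nlinarith
      · have hlog6 : Real.log 6 ≤ 2 := by
          rw [Real.log_le_iff_le_exp (by norm_num)]
          have h := Real.exp_one_gt_d9
          have h' : Real.exp 2 = Real.exp 1 * Real.exp 1 := by rw [← Real.exp_add]; norm_num
          rw [h']
          nlinarith
        have hb : -(4 * R) ≤ ∫ r in R..(2 * R), Avg_f ρ R r := by
          have hi : IntervalIntegrable (fun r : ℝ => Real.log (r - β) - Real.log (6 * R)) volume
              R (2 * R) := by
            refine IntervalIntegrable.sub ?_ (by simp)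
            have h4 : IntervalIntegrable Real.log volume (R - β) (2 * R - β) :=
              intervalIntegral.intervalIntegrable_log'
            simpa using h4.comp_sub_right β
          have h4 : ∫ r in R..(2 * R), (Real.log (r - β) - Real.log (6 * R)) ≤
              ∫ r in R..(2 * R), Avg_f ρ R r := by
            apply intervalIntegral.integral_mono_ae_restrict (by linarith) hi (Avg_fi ρ R _ _)
            have h5 : ∀ᵐ r : ℝ, r ≠ β := by
              have : (volume : Measure ℝ) {β} = 0 := by simp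
              exact (measure_eq_zero_iff_ae_notMem.1 this)
            filter_upwards [ae_restrict_mem measurableSet_Icc, ae_restrict_of_ae h5] with r hr hne
            have hr0 : 0 < r := by linarith [hr.1]
            refine le_trans ?_ (Avg_q_le_f hρ hr0)
            have h6 : |r - β| ≤ ‖ρ + r‖ := by
              have h := Complex.abs_re_le_norm (ρ + r)
              rw [Complex.add_re, Complex.ofReal_re] at h
              have h' : ρ.re + r = r - β := by rw [hβ]; ring
              rwa [h'] at h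
            have h7 : 0 < |r - β| := abs_pos.2 (sub_ne_zero.2 hne)
            have h8 : ‖ρ - r‖ ≤ 6 * R := by
              have h := norm_sub_le ρ (r : ℂ)
              rw [Complex.norm_real, Real.norm_of_nonneg hr0.le] at h
              linarith [hr.2]
            have h9 : 0 < ‖ρ - r‖ := by
              rw [norm_pos_iff]
              intro h
              have h' := congrArg Complex.re h
              rw [Complex.sub_re, Complex.ofReal_re, Complex.zero_re] at h'
              linarith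
            rw [← Real.log_abs (r - β), Real.log_div (h7.trans_le h6).ne' h9.ne']
            have e1 := Real.log_le_log h7 h6
            have e2 := Real.log_le_log h9 h8
            linarith
          refine le_trans ?_ h4
          rw [intervalIntegral.integral_sub _ (by simp)]
          · rw [intervalIntegral.integral_const, smul_eq_mul]
            have h5 := Avg_log_int (β := β) hR0
            rw [Real.log_mul (by norm_num) hR0.ne']
            nlinarith
          · have h4 : IntervalIntegrable Real.log volume (R - β) (2 * R - β) :=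
              intervalIntegral.intervalIntegrable_log'
            simpa using h4.comp_sub_right β
        refine le_trans ?_ hb
        apply neg_le_neg
        have h4 : R / 8 ≤ R ^ 2 * (β / ‖ρ‖ ^ 2) := by
          rw [mul_div_assoc', div_le_div_iff₀ (by norm_num) (by positivity)]
          have h5 : ‖ρ‖ ^ 2 ≤ 2 * β * (4 * R) := by nlinarith
          nlinarith
        have h5 : R / 8 * (1 / 2) ≤ R ^ 2 * (β / ‖ρ‖ ^ 2) * √m :=
          mul_le_mul h4 hw (by norm_num) (by positivity)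
        nlinarith

theorem tAvg : S_Avg := by
  intro ρ hρ R hR
  have hρ' : ρ.re < 0 := by linarith
  refine ⟨Avg_ii ρ R (2 * R), ?_⟩
  have h := Avg_avg hρ' hR
  have e1 : bb ρ = -ρ.re / ‖ρ‖ ^ 2 := by rw [bb, abs_of_neg hρ']
  have e2 : wt (‖ρ‖ / R) = √(min (‖ρ‖ / R) (R / ‖ρ‖)) := by rw [wt, inv_div]
  have e3 : ∫ r in R..(2 * R), Avg_f ρ R r =
      ∫ r in R..(2 * R), ((if R < ‖ρ‖ then 2 * r * bb ρ else 0) + qq ρ r) := by
    apply intervalIntegral.integral_congr
    intro r _
    simp only [Avg_f, qq, e1]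
    by_cases h' : ‖ρ‖ ≤ R
    · rw [if_pos h', if_neg (not_lt.2 h')]
      ring
    · rw [if_neg h', if_pos (not_le.1 h')]
      ring
  rw [← e3, e1, e2]
  refine le_trans (le_of_eq ?_) h
  ring

end MP7ed9c3.Vz
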