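import Pool.Agent.Lib.MP_7ed9c3_nt.Vz.Spec

/-!
# MP_7ed9c3_nt, part Vz: Bnd

The weighted sum around the radius `R`, by blocks with quotient `4`.
-/

set_option autoImplicit false

namespace MP7ed9c3.Vz

open NumberField IsDedekindDomain Filter Topology MeasureTheory MP7ed9c3.Zr

theorem Bnd_one {ρ : ℂ} (h : ρ.re ≤ -1) : 1 ≤ ‖ρ‖ := by
  have h1 := Complex.abs_re_le_norm ρ
  have h2 : 1 ≤ |ρ.re| := by
    rw [abs_of_nonpos (by linarith)]
    linarith
  linarith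

theorem Bnd_bb {ρ : ℂ} (h : 1 ≤ ‖ρ‖) : bb ρ ≤ ‖ρ‖⁻¹ := by
  unfold bb
  have h0 : 0 < ‖ρ‖ := by linarith
  rw [div_le_iff₀ (by positivity)]
  have h1 := Complex.abs_re_le_norm ρ
  have h2 : ‖ρ‖⁻¹ * ‖ρ‖ ^ 2 = ‖ρ‖ := by
    field_simp
  rw [h2]
  exact h1

theorem Bnd_sw (Z : Finset ℂ) (m : ℂ → ℝ) (N : ℕ) (a t : ℕ → ℝ) :
    ∑ ρ ∈ Z, m ρ * ∑ k ∈ Finset.range N, (if ‖ρ‖ ≤ t k then a k else 0) =
      ∑ k ∈ Finset.range N, a k * NZ Z m (t k) := by
  simp only [Finset.mul_sum, NZ, Finset.sum_filter]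
  rw [Finset.sum_comm]
  refine Finset.sum_congr rfl fun k _ => Finset.sum_congr rfl fun ρ _ => ?_
  split_ifs
  · ring
  · ring

/-- `x⁻¹ √(x/R) ≤ 2^(k+1)/R` for `R ≤ 4^(k+1) x` -/
theorem Bnd_in {x R : ℝ} (hx : 0 < x) (hR : 0 < R) (k : ℕ) (h : R ≤ x * 4 ^ (k + 1)) :
    x⁻¹ * wt (x / R) ≤ 2 * 2 ^ k / R := by
  have h1 : wt (x / R) ≤ x * (2 * 2 ^ k / R) := by
    unfold wt
    refine (Real.sqrt_le_sqrt (min_le_left _ _)).trans ?_
    rw [Real.sqrt_le_iff]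
    refine ⟨by positivity, ?_⟩
    have h2 : (x * (2 * 2 ^ k / R)) ^ 2 = x / R * (x * 4 ^ (k + 1) / R) := by
      have h3 : (4 : ℝ) ^ (k + 1) = (2 * 2 ^ k) ^ 2 := by
        rw [pow_succ, mul_pow, ← pow_mul, mul_comm k 2, pow_mul]
        norm_num
        ring
      rw [h3]
      field_simp
    rw [h2]
    have h4 : 1 ≤ x * 4 ^ (k + 1) / R := by
      rw [le_div_iff₀ hR]
      linarith
    have h5 : 0 < x / R := by positivity
    nlinarith
  calc x⁻¹ * wt (x / R) ≤ x⁻¹ * (x * (2 * 2 ^ k / R)) :=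
        mul_le_mul_of_nonneg_left h1 (by positivity)
    _ = 2 * 2 ^ k / R := by
        field_simp

/-- `x⁻¹ √(R/x) ≤ 8^(-k)/R` for `4^k R ≤ x` -/
theorem Bnd_out {x R : ℝ} (hx : 0 < x) (hR : 0 < R) (k : ℕ) (h : R * 4 ^ k ≤ x) :
    x⁻¹ * wt (x / R) ≤ (8 ^ k)⁻¹ / R := by
  have h1 : wt (x / R) ≤ x * ((8 ^ k)⁻¹ / R) := by
    unfold wt
    refine (Real.sqrt_le_sqrt (min_le_right _ _)).trans ?_
    rw [Real.sqrt_le_iff]
    refine ⟨by positivity, ?_⟩
    rw [inv_div]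
    have h3 : ((8 : ℝ) ^ k) ^ 2 = (4 ^ k) ^ 3 := by
      rw [← pow_mul, ← pow_mul, mul_comm k 2, mul_comm k 3, pow_mul, pow_mul]
      norm_num
    have h2 : (x * ((8 ^ k)⁻¹ / R)) ^ 2 = x ^ 2 / ((4 ^ k) ^ 3 * R ^ 2) := by
      rw [← h3]
      field_simp
    rw [h2, div_le_div_iff₀ hx (by positivity)]
    have h4 : (R * 4 ^ k) ^ 3 ≤ x ^ 3 := pow_le_pow_left₀ (by positivity) h 3
    nlinarith
  calc x⁻¹ * wt (x / R) ≤ x⁻¹ * (x * ((8 ^ k)⁻¹ / R)) :=
        mul_le_mul_of_nonneg_left h1 (by positivity)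
    _ = (8 ^ k)⁻¹ / R := by
        field_simp

/-- the pointwise bound by blocks -/
theorem Bnd_pt {x R : ℝ} (hx : 1 ≤ x) (hR : 1 ≤ R) (N : ℕ) (hN : R < 4 ^ N) (hN' : x < 4 ^ N) :
    x⁻¹ * wt (x / R) ≤ (∑ k ∈ Finset.range N, (if x ≤ R / 4 ^ k then 2 * 2 ^ k / R else 0)) +
      ∑ k ∈ Finset.range N, (if x ≤ R * 4 ^ (k + 1) then (8 ^ k)⁻¹ / R else 0) := by
  have hx0 : 0 < x := by linarith
  have hR0 : 0 < R := by linarith
  have hp : ∀ k ∈ Finset.range N, (0 : ℝ) ≤ (if x ≤ R / 4 ^ k then 2 * 2 ^ k / R else 0) := by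
    intro k _
    split_ifs
    · positivity
    · exact le_rfl
  have hq : ∀ k ∈ Finset.range N, (0 : ℝ) ≤ (if x ≤ R * 4 ^ (k + 1) then (8 ^ k)⁻¹ / R else 0) := by
    intro k _
    split_ifs
    · positivity
    · exact le_rfl
  rcases le_total x R with h | h
  · obtain ⟨k, hk1, hk2⟩ := exists_nat_pow_near (x := R / x) (y := (4 : ℝ))
      (by rw [le_div_iff₀ hx0]; linarith) (by norm_num)
    rw [le_div_iff₀ hx0] at hk1
    rw [div_lt_iff₀ hx0] at hk2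
    have hkN : k < N := by
      have h1 : (4 : ℝ) ^ k < 4 ^ N := by
        have h2 : (0 : ℝ) < 4 ^ k := by positivity
        nlinarith
      exact (pow_lt_pow_iff_right₀ (by norm_num)).1 h1
    have h3 := Bnd_in hx0 hR0 k (by linarith)
    have h4 := Finset.single_le_sum hp (Finset.mem_range.2 hkN)
    have h5 : x ≤ R / 4 ^ k := by
      rw [le_div_iff₀ (by positivity)]
      linarith
    rw [if_pos h5] at h4
    have h6 := Finset.sum_nonneg hq
    linarith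
  · obtain ⟨k, hk1, hk2⟩ := exists_nat_pow_near (x := x / R) (y := (4 : ℝ))
      (by rw [le_div_iff₀ hR0]; linarith) (by norm_num)
    rw [le_div_iff₀ hR0] at hk1
    rw [div_lt_iff₀ hR0] at hk2
    have hkN : k < N := by
      have h1 : (4 : ℝ) ^ k < 4 ^ N := by
        have h2 : (0 : ℝ) < 4 ^ k := by positivity
        nlinarith
      exact (pow_lt_pow_iff_right₀ (by norm_num)).1 h1
    have h3 := Bnd_out hx0 hR0 k (by linarith)
    have h4 := Finset.single_le_sum hq (Finset.mem_range.2 hkN)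
    have h5 : x ≤ R * 4 ^ (k + 1) := by linarith
    rw [if_pos h5] at h4
    have h6 := Finset.sum_nonneg hp
    linarith

theorem Bnd_g1 (N : ℕ) : ∑ k ∈ Finset.range N, (1 : ℝ) / 2 ^ k ≤ 2 := by
  have h : ∑ k ∈ Finset.range N, (1 : ℝ) / 2 ^ k = 2 - 2 / 2 ^ N := by
    induction N with
    | zero => norm_num
    | succ n ih =>
      rw [Finset.sum_range_succ, ih, pow_succ]
      field_simp
      ring
  rw [h]
  have : (0 : ℝ) ≤ 2 / 2 ^ N := by positivity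
  linarith

theorem Bnd_g2 (N : ℕ) : ∑ k ∈ Finset.range N, (2 * (k : ℝ) + 3) / 2 ^ k ≤ 10 := by
  have h : ∑ k ∈ Finset.range N, (2 * (k : ℝ) + 3) / 2 ^ k = 10 - (4 * N + 10) / 2 ^ N := by
    induction N with
    | zero => norm_num
    | succ n ih =>
      rw [Finset.sum_range_succ, ih, pow_succ]
      push_cast
      field_simp
      ring
  rw [h]
  have : (0 : ℝ) ≤ (4 * N + 10) / 2 ^ N := by positivity
  linarith

theorem Bnd_log {R : ℝ} (hR : 1 ≤ R) : 1 ≤ Real.log (2 + R) := by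
  rw [Real.le_log_iff_exp_le (by linarith)]
  have := Real.exp_one_lt_d9
  linarith

/-- **Bnd** -/
theorem tBnd : S_Bnd := by
  intro C hC
  refine ⟨44 * C, by positivity, fun Z m hP hn R hR => ?_⟩
  have hR0 : 0 < R := by linarith
  set L := Real.log (2 + R) with hL
  have hL1 : 1 ≤ L := Bnd_log hR
  obtain ⟨X, hX⟩ : ∃ X : ℝ, ∀ ρ ∈ Z, ‖ρ‖ ≤ X :=
    ⟨∑ ρ ∈ Z, ‖ρ‖, fun ρ hρ => Finset.single_le_sum (f := fun ρ : ℂ => ‖ρ‖)
      (fun _ _ => norm_nonneg _) hρ⟩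
  obtain ⟨N, hN⟩ := pow_unbounded_of_one_lt (max R X) (show (1 : ℝ) < 4 by norm_num)
  have hNR : R < 4 ^ N := lt_of_le_of_lt (le_max_left _ _) hN
  have hNX : X < 4 ^ N := lt_of_le_of_lt (le_max_right _ _) hN
  have h1 : ∀ ρ ∈ Z, 1 ≤ ‖ρ‖ := fun ρ hρ => Bnd_one (hP.re ρ hρ)
  have hV : VZ Z m R ≤
      (∑ k ∈ Finset.range N, 2 * 2 ^ k / R * NZ Z m (R / 4 ^ k)) +
        ∑ k ∈ Finset.range N, (8 ^ k)⁻¹ / R * NZ Z m (R * 4 ^ (k + 1)) := by
    rw [← Bnd_sw, ← Bnd_sw, ← Finset.sum_add_distrib]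
    unfold VZ
    refine Finset.sum_le_sum fun ρ hρ => ?_
    rw [← mul_add]
    refine mul_le_mul_of_nonneg_left ?_ (hP.nn ρ)
    have h2 : bb ρ * wt (‖ρ‖ / R) ≤ ‖ρ‖⁻¹ * wt (‖ρ‖ / R) :=
      mul_le_mul_of_nonneg_right (Bnd_bb (h1 ρ hρ)) (Real.sqrt_nonneg _)
    exact h2.trans (Bnd_pt (h1 ρ hρ) hR N hNR (lt_of_le_of_lt (hX ρ hρ) hNX))
  have hA : ∀ k ∈ Finset.range N, 2 * 2 ^ k / R * NZ Z m (R / 4 ^ k) ≤
      2 * C * L * (1 / 2 ^ k) := by
    intro k _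
    have h4 : (0 : ℝ) < 4 ^ k := by positivity
    have h2 : NZ Z m (R / 4 ^ k) ≤ C * (R / 4 ^ k * L) := by
      rcases le_or_gt 1 (R / 4 ^ k) with h | h
      · refine (hn _ h).trans ?_
        refine mul_le_mul_of_nonneg_left ?_ hC
        refine mul_le_mul_of_nonneg_left ?_ (by positivity)
        refine Real.log_le_log (by positivity) ?_
        have h5 : R / 4 ^ k ≤ R := div_le_self hR0.le (one_le_pow₀ (by norm_num))
        linarith
      · have h5 : NZ Z m (R / 4 ^ k) = 0 := by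
          unfold NZ
          rw [Finset.filter_eq_empty_iff.2, Finset.sum_empty]
          intro ρ hρ h6
          have := h1 ρ hρ
          linarith
        rw [h5]
        have : 0 ≤ L := by linarith
        positivity
    have h4' : (4 : ℝ) ^ k = 2 ^ k * 2 ^ k := by
      rw [← mul_pow]
      norm_num
    calc 2 * 2 ^ k / R * NZ Z m (R / 4 ^ k) ≤ 2 * 2 ^ k / R * (C * (R / 4 ^ k * L)) :=
          mul_le_mul_of_nonneg_left h2 (by positivity)
      _ = 2 * C * L * (1 / 2 ^ k) := by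
          rw [h4']
          field_simp
  have hB : ∀ k ∈ Finset.range N, (8 ^ k)⁻¹ / R * NZ Z m (R * 4 ^ (k + 1)) ≤
      4 * C * L * ((2 * (k : ℝ) + 3) / 2 ^ k) := by
    intro k _
    have h4 : (1 : ℝ) ≤ 4 ^ (k + 1) := one_le_pow₀ (by norm_num)
    have h2 : NZ Z m (R * 4 ^ (k + 1)) ≤ C * (R * 4 ^ (k + 1) * ((2 * (k : ℝ) + 3) * L)) := by
      refine (hn _ (by nlinarith)).trans ?_
      refine mul_le_mul_of_nonneg_left ?_ hC
      refine mul_le_mul_of_nonneg_left ?_ (by positivity)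
      have h5 : Real.log (2 + R * 4 ^ (k + 1)) ≤ Real.log (4 ^ (k + 1) * (2 + R)) := by
        refine Real.log_le_log (by positivity) ?_
        nlinarith
      rw [Real.log_mul (by positivity) (by positivity), Real.log_pow] at h5
      have h6 : Real.log 4 ≤ 2 := by
        have h7 : Real.log 4 = 2 * Real.log 2 := by
          rw [show (4 : ℝ) = 2 ^ 2 by norm_num, Real.log_pow]
          norm_num
        have := Real.log_two_lt_d9
        rw [h7]
        linarith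
      have h8 : ((k + 1 : ℕ) : ℝ) * Real.log 4 ≤ ((k + 1 : ℕ) : ℝ) * 2 :=
        mul_le_mul_of_nonneg_left h6 (by positivity)
      push_cast at h5 h8
      have h9 : (0 : ℝ) ≤ (k : ℝ) := by positivity
      nlinarith
    have h8' : (8 : ℝ) ^ k = 2 ^ k * 4 ^ k := by
      rw [← mul_pow]
      norm_num
    calc (8 ^ k)⁻¹ / R * NZ Z m (R * 4 ^ (k + 1))
          ≤ (8 ^ k)⁻¹ / R * (C * (R * 4 ^ (k + 1) * ((2 * (k : ℝ) + 3) * L))) :=
          mul_le_mul_of_nonneg_left h2 (by positivity)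
      _ = 4 * C * L * ((2 * (k : ℝ) + 3) / 2 ^ k) := by
          rw [h8', pow_succ]
          field_simp
  have hA' := Finset.sum_le_sum hA
  have hB' := Finset.sum_le_sum hB
  rw [← Finset.mul_sum] at hA' hB'
  have hC2 : 0 ≤ 2 * C * L := by
    have : 0 ≤ L := by linarith
    positivity
  have hC4 : 0 ≤ 4 * C * L := by
    have : 0 ≤ L := by linarith
    positivity
  have h7 := mul_le_mul_of_nonneg_left (Bnd_g1 N) hC2
  have h8 := mul_le_mul_of_nonneg_left (Bnd_g2 N) hC4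
  nlinarith

end MP7ed9c3.Vz
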