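import Pool.Agent.Lib.MP_7ed9c3_nt.Vz.Spec

/-!
# MP_7ed9c3_nt, part Vz: the number of zeros (Cnt)
-/

set_option autoImplicit false

namespace MP7ed9c3.Vz

open NumberField IsDedekindDomain Filter Topology MeasureTheory MP7ed9c3.Zr

/-- the logarithm at `6t` -/
private theorem Cnt_log {t : ℝ} (ht : 1 ≤ t) :
    (1 + 6 * t) * Real.log (2 + 6 * t) ≤ 21 * (t * Real.log (2 + t)) := by
  have h1 : Real.log (2 + 6 * t) ≤ 3 * Real.log (2 + t) := by
    have h2 : (3 : ℝ) * Real.log (2 + t) = Real.log ((2 + t) ^ 3) := by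
      rw [Real.log_pow]
      norm_num
    rw [h2]
    apply Real.log_le_log (by linarith)
    nlinarith [sq_nonneg t, mul_pos (lt_of_lt_of_le one_pos ht) (lt_of_lt_of_le one_pos ht),
      pow_pos (lt_of_lt_of_le one_pos ht) 3]
  have h3 : 0 ≤ Real.log (2 + 6 * t) := Real.log_nonneg (by linarith)
  have h4 : (1 + 6 * t) * Real.log (2 + 6 * t) ≤ (7 * t) * (3 * Real.log (2 + t)) :=
    mul_le_mul (by linarith) h1 h3 (by linarith)
  linarith

theorem tCnt : S_Cnt := by
  intro Φ C B hS
  have hC : 0 ≤ C := hS.cc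
  have hl2 : 0 < Real.log 2 := Real.log_pos (by norm_num)
  refine ⟨21 * C / Real.log 2, by positivity, ?_⟩
  intro R t ht
  obtain ⟨hfin, hord, G, hG, hΦG, -⟩ := factor Φ hS.df hS.one (2 * t)
  have ht0 : 0 < t := by linarith
  have hp0 : prodZ Φ (2 * t) 0 = 1 := by
    rw [prodZ]
    apply Finset.prod_eq_one
    intro ρ _
    rw [zero_div, sub_zero, one_pow]
  have hG1 : G 0 = 1 := by
    have := hΦG 0
    rw [hp0, mul_one, hS.one] at this
    exact this.symm
  set n : ℕ := ∑ ρ ∈ zer Φ (2 * t), analyticOrderNatAt Φ ρ with hn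
  have hbound : ‖G 0‖ ≤
      Real.exp (C * ((1 + 6 * t) * Real.log (2 + 6 * t))) / 2 ^ n := by
    refine Complex.norm_le_of_forall_mem_frontier_norm_le (U := Metric.ball (0 : ℂ) (6 * t))
      Metric.isBounded_ball hG.diffContOnCl ?_
      (subset_closure (Metric.mem_ball_self (by positivity)))
    intro w hw
    rw [frontier_ball _ (by positivity), mem_sphere_zero_iff_norm] at hw
    have h2 := jensen_prod (fun ρ hρ => (hord ρ hρ).1) hw
    have h3 := hS.gr w
    rw [hΦG w, norm_mul, hw] at h3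
    rw [le_div_iff₀ (by positivity)]
    exact (mul_le_mul_of_nonneg_left h2 (norm_nonneg _)).trans h3
  rw [hG1, norm_one, le_div_iff₀ (by positivity), one_mul] at hbound
  have hlog : (n : ℝ) * Real.log 2 ≤ C * ((1 + 6 * t) * Real.log (2 + 6 * t)) := by
    have := Real.log_le_log (by positivity) hbound
    rwa [Real.log_pow, Real.log_exp] at this
  have h6 : (n : ℝ) ≤ 21 * C / Real.log 2 * (t * Real.log (2 + t)) := by
    rw [div_mul_eq_mul_div, le_div_iff₀ hl2]
    have := mul_le_mul_of_nonneg_left (Cnt_log ht) hC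
    linarith
  refine le_trans ?_ h6
  rw [NZ, hn]
  push_cast
  simp only [od]
  apply Finset.sum_le_sum_of_subset_of_nonneg
  · intro ρ hρ
    rw [Finset.mem_filter] at hρ
    have h7 := jensen_mem hρ.1
    rw [zer, dif_pos hfin, Set.Finite.mem_toFinset]
    exact ⟨by linarith [hρ.2], h7.2⟩
  · intro ρ _ _
    positivity

end MP7ed9c3.Vz
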