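import Pool.Agent.Lib.MP_7ed9c3_nt.Vz.Spec

/-!
# MP_7ed9c3_nt, part Vz: the even sum, integrated form
-/

set_option autoImplicit false

namespace MP7ed9c3.Vz

open NumberField IsDedekindDomain Filter Topology MeasureTheory MP7ed9c3.Zr

/-- the primitive of the kernel with the logarithm -/
theorem EvN_deriv1 {r x t : ℝ} (hr : 0 < r) (hx : 0 < x) (ht : 0 < t) :
    HasDerivAt (fun t : ℝ => -(2 * r ^ 2 / (t ^ 2 + r ^ 2) * Real.log (t / x)) -
      Real.log (1 + r ^ 2 / t ^ 2)) (4 * r ^ 2 * t / (t ^ 2 + r ^ 2) ^ 2 * Real.log (t / x)) t := by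
  have h2 : HasDerivAt (fun u : ℝ => u ^ 2 + r ^ 2) (2 * t) t := by
    simpa using (hasDerivAt_pow 2 t).add_const (r ^ 2)
  have h3 := (h2.inv (by positivity)).const_mul (2 * r ^ 2)
  have h4 : HasDerivAt (fun u : ℝ => Real.log (u / x)) t⁻¹ t := by
    have h := ((hasDerivAt_id t).div_const x).log (by positivity : id t / x ≠ 0)
    refine h.congr_deriv ?_
    simp only [id]
    field_simp
  have h5 := (h3.mul h4).neg
  have h6 := h5.add (even1_deriv hr ht)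
  refine (HasDerivAt.congr_of_eventuallyEq (f := _) (h6.congr_deriv ?_) ?_)
  · simp only [Pi.inv_apply]
    field_simp
    ring
  · refine Eventually.of_forall fun u => ?_
    simp only [Pi.add_apply, Pi.neg_apply, Pi.mul_apply, Pi.inv_apply]
    ring

theorem EvN_tend1 {r x : ℝ} (hr : 0 < r) (hx : 0 < x) :
    Tendsto (fun t : ℝ => -(2 * r ^ 2 / (t ^ 2 + r ^ 2) * Real.log (t / x)) -
      Real.log (1 + r ^ 2 / t ^ 2)) atTop (𝓝 0) := by
  have h1 : Tendsto (fun t : ℝ => Real.log (t / x) / (t / x)) atTop (𝓝 0) :=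
    (Real.isLittleO_log_id_atTop.tendsto_div_nhds_zero).comp
      (tendsto_id.atTop_div_const hx)
  have h2 : Tendsto (fun t : ℝ => 2 * r ^ 2 / (t ^ 2 + r ^ 2) * (t / x)) atTop (𝓝 0) := by
    have h3 : Tendsto (fun t : ℝ => (2 * r ^ 2 / x) * t⁻¹) atTop (𝓝 0) := by
      have h7 := (tendsto_inv_atTop_zero (𝕜 := ℝ)).const_mul (2 * r ^ 2 / x)
      rwa [mul_zero] at h7
    refine squeeze_zero' ?_ ?_ h3
    · filter_upwards [eventually_gt_atTop (0 : ℝ)] with t ht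
      positivity
    · filter_upwards [eventually_gt_atTop (0 : ℝ)] with t ht
      rw [div_mul_div_comm, ← div_eq_mul_inv, div_div, div_le_div_iff₀ (by positivity) (by positivity)]
      have : 0 < r ^ 2 * x * r ^ 2 := by positivity
      nlinarith
  have h4 : Tendsto (fun t : ℝ => 2 * r ^ 2 / (t ^ 2 + r ^ 2) * Real.log (t / x)) atTop (𝓝 0) := by
    have h5 := h2.mul h1
    rw [mul_zero] at h5
    refine h5.congr' ?_
    filter_upwards [eventually_gt_atTop (0 : ℝ)] with t ht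
    field_simp
  have h6 := h4.neg.add (even1_tendsto r)
  rw [neg_zero, add_zero] at h6
  refine h6.congr fun t => ?_
  ring

theorem EvN_int1 {r x : ℝ} (hr : 0 < r) (hx : 0 < x) :
    IntegrableOn (fun t : ℝ => 4 * r ^ 2 * t / (t ^ 2 + r ^ 2) ^ 2 * Real.log (t / x)) (Set.Ioi x) ∧
    ∫ t in Set.Ioi x, 4 * r ^ 2 * t / (t ^ 2 + r ^ 2) ^ 2 * Real.log (t / x) =
      Real.log (1 + r ^ 2 / x ^ 2) := by
  have h1 : ∀ t ∈ Set.Ici x, HasDerivAt (fun t : ℝ => -(2 * r ^ 2 / (t ^ 2 + r ^ 2) *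
      Real.log (t / x)) - Real.log (1 + r ^ 2 / t ^ 2))
      (4 * r ^ 2 * t / (t ^ 2 + r ^ 2) ^ 2 * Real.log (t / x)) t := fun t ht =>
    EvN_deriv1 hr hx (lt_of_lt_of_le hx ht)
  have h2 : ∀ t ∈ Set.Ioi x, 0 ≤ 4 * r ^ 2 * t / (t ^ 2 + r ^ 2) ^ 2 * Real.log (t / x) := by
    intro t ht
    have ht0 : 0 < t := lt_trans hx ht
    have : 0 ≤ Real.log (t / x) := Real.log_nonneg ((one_le_div hx).2 (le_of_lt ht))
    positivity
  refine ⟨integrableOn_Ioi_deriv_of_nonneg' h1 h2 (EvN_tend1 hr hx), ?_⟩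
  rw [integral_Ioi_of_hasDerivAt_of_nonneg' h1 h2 (EvN_tend1 hr hx)]
  rw [div_self hx.ne', Real.log_one]
  ring

/-- `∫_0^∞ 4 w² / (1 + w²)² = π` -/
theorem EvN_pi1 : IntegrableOn (fun w : ℝ => 4 * w ^ 2 / (1 + w ^ 2) ^ 2) (Set.Ioi 0) ∧
    ∫ w in Set.Ioi (0 : ℝ), 4 * w ^ 2 / (1 + w ^ 2) ^ 2 = Real.pi := by
  have h1 : ∀ w ∈ Set.Ici (0 : ℝ), HasDerivAt (fun w : ℝ => 2 * (Real.arctan w - w / (1 + w ^ 2)))
      (4 * w ^ 2 / (1 + w ^ 2) ^ 2) w := by
    intro w _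
    have h2 : HasDerivAt (fun u : ℝ => 1 + u ^ 2) (2 * w) w := by
      simpa using (hasDerivAt_pow 2 w).const_add 1
    have h3 := (hasDerivAt_id w).div h2 (by positivity : 1 + w ^ 2 ≠ 0)
    have h4 := ((Real.hasDerivAt_arctan w).sub h3).const_mul 2
    refine h4.congr_deriv ?_
    have : 1 + w ^ 2 ≠ 0 := by positivity
    simp only [id]
    field_simp
    ring
  have h2 : ∀ w ∈ Set.Ioi (0 : ℝ), 0 ≤ 4 * w ^ 2 / (1 + w ^ 2) ^ 2 := fun w _ => by positivity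
  have h3 : Tendsto (fun w : ℝ => 2 * (Real.arctan w - w / (1 + w ^ 2))) atTop (𝓝 Real.pi) := by
    have a1 : Tendsto (fun w : ℝ => w / (1 + w ^ 2)) atTop (𝓝 0) := by
      refine squeeze_zero' ?_ ?_ tendsto_inv_atTop_zero
      · filter_upwards [eventually_gt_atTop (0 : ℝ)] with w hw
        positivity
      · filter_upwards [eventually_gt_atTop (0 : ℝ)] with w hw
        rw [inv_eq_one_div, div_le_div_iff₀ (by positivity) hw]
        nlinarith
    have a2 : Tendsto Real.arctan atTop (𝓝 (Real.pi / 2)) :=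
      tendsto_nhds_of_tendsto_nhdsWithin Real.tendsto_arctan_atTop
    have := (a2.sub a1).const_mul 2
    rwa [sub_zero, mul_div_cancel₀ Real.pi two_ne_zero] at this
  refine ⟨integrableOn_Ioi_deriv_of_nonneg' h1 h2 h3, ?_⟩
  rw [integral_Ioi_of_hasDerivAt_of_nonneg' h1 h2 h3]
  simp

/-- the main integral -/
theorem EvN_main1 {r : ℝ} (hr : 1 ≤ r) :
    IntegrableOn (fun u : ℝ => 4 * r ^ 2 * u / (u ^ 2 + r ^ 2) ^ 2 * (u * Real.log u)) (Set.Ioi 1) ∧
    ∫ u in Set.Ioi (1 : ℝ), 4 * r ^ 2 * u / (u ^ 2 + r ^ 2) ^ 2 * (u * Real.log u) ≤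
      Real.pi * (r * Real.log r) + 8 * even1_c0 * r := by
  have hr0 : 0 < r := by linarith
  have hl : 0 ≤ Real.log r := Real.log_nonneg hr
  set f : ℝ → ℝ := fun w => 4 * r ^ 2 * w ^ 2 * Real.log r / (w ^ 2 + r ^ 2) ^ 2 +
    8 * r ^ 2 * (√(w / r) / (w ^ 2 + r ^ 2)) with hf
  have hfr : ∀ w : ℝ, f (r * w) = Real.log r * (4 * w ^ 2 / (1 + w ^ 2) ^ 2) +
      8 * (√w * (1 + w ^ 2)⁻¹) := by
    intro w
    rw [hf]
    simp only
    rw [show r * w / r = w by field_simp, show (r * w) ^ 2 + r ^ 2 = r ^ 2 * (1 + w ^ 2) by ring]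
    have : (1 + w ^ 2) ≠ 0 := by positivity
    field_simp
  have hi1 : IntegrableOn (fun w => f (r * w)) (Set.Ioi 0) := by
    simp_rw [hfr]
    exact (EvN_pi1.1.const_mul _).add (even1_sqrt.const_mul _)
  have hi2 : IntegrableOn f (Set.Ioi 0) := by
    have := (integrableOn_Ioi_comp_mul_left_iff f 0 hr0).mp hi1
    rwa [mul_zero] at this
  have hval : ∫ w in Set.Ioi (0 : ℝ), f w = Real.pi * (r * Real.log r) + 8 * even1_c0 * r := by
    have h1 := integral_comp_mul_left_Ioi' f 0 hr0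
    rw [mul_zero] at h1
    rw [← h1]
    simp_rw [hfr]
    rw [integral_add (EvN_pi1.1.const_mul _) (even1_sqrt.const_mul _), integral_const_mul,
      integral_const_mul, EvN_pi1.2, ← even1_c0]
    simp only [smul_eq_mul]
    ring
  have hle : ∀ u ∈ Set.Ioi (1 : ℝ), 4 * r ^ 2 * u / (u ^ 2 + r ^ 2) ^ 2 * (u * Real.log u) ≤ f u := by
    intro u hu
    have hu0 : 0 < u := lt_trans one_pos hu
    rw [hf]
    simp only
    have h1 : Real.log u = Real.log r + Real.log (u / r) := by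
      rw [Real.log_div hu0.ne' hr0.ne']
      ring
    have h2 : Real.log (u / r) ≤ 2 * √(u / r) := by
      have hpos : 0 < u / r := by positivity
      have h3 := Real.log_le_sub_one_of_pos (Real.sqrt_pos.mpr hpos)
      have h4 : Real.log (u / r) = 2 * Real.log (√(u / r)) := by
        rw [Real.log_sqrt hpos.le]
        ring
      linarith
    have h3 : 4 * r ^ 2 * u / (u ^ 2 + r ^ 2) ^ 2 * (u * Real.log (u / r)) ≤
        8 * r ^ 2 * (√(u / r) / (u ^ 2 + r ^ 2)) := by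
      have h4 : 4 * r ^ 2 * u / (u ^ 2 + r ^ 2) ^ 2 * (u * Real.log (u / r)) ≤
          4 * r ^ 2 * u / (u ^ 2 + r ^ 2) ^ 2 * (u * (2 * √(u / r))) := by
        gcongr
      refine h4.trans ?_
      have h5 : 4 * r ^ 2 * u / (u ^ 2 + r ^ 2) ^ 2 * (u * (2 * √(u / r))) =
          (u ^ 2 / (u ^ 2 + r ^ 2)) * (8 * r ^ 2 * (√(u / r) / (u ^ 2 + r ^ 2))) := by
        field_simp
        ring
      rw [h5]
      have h6 : u ^ 2 / (u ^ 2 + r ^ 2) ≤ 1 := by
        rw [div_le_one (by positivity)]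
        nlinarith
      exact mul_le_of_le_one_left (by positivity) h6
    rw [h1, mul_add, mul_add]
    have h4 : 4 * r ^ 2 * u / (u ^ 2 + r ^ 2) ^ 2 * (u * Real.log r) =
        4 * r ^ 2 * u ^ 2 * Real.log r / (u ^ 2 + r ^ 2) ^ 2 := by ring
    linarith
  have hnn : ∀ u ∈ Set.Ioi (1 : ℝ), 0 ≤ 4 * r ^ 2 * u / (u ^ 2 + r ^ 2) ^ 2 * (u * Real.log u) := by
    intro u hu
    have hu0 : 0 < u := lt_trans one_pos hu
    have := Real.log_nonneg (le_of_lt hu)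
    positivity
  have hsub : Set.Ioi (1 : ℝ) ⊆ Set.Ioi 0 := Set.Ioi_subset_Ioi zero_le_one
  have hI : IntegrableOn (fun u : ℝ => 4 * r ^ 2 * u / (u ^ 2 + r ^ 2) ^ 2 * (u * Real.log u))
      (Set.Ioi 1) := by
    refine Integrable.mono' (hi2.mono_set hsub) ?_ ?_
    · apply Measurable.aestronglyMeasurable
      fun_prop
    · refine (ae_restrict_iff' measurableSet_Ioi).mpr (Eventually.of_forall ?_)
      intro u hu
      rw [Real.norm_eq_abs, abs_of_nonneg (hnn u hu)]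
      exact hle u hu
  refine ⟨hI, ?_⟩
  rw [← hval]
  calc _ ≤ ∫ u in Set.Ioi (1 : ℝ), f u :=
        setIntegral_mono_on hI (hi2.mono_set hsub) measurableSet_Ioi hle
    _ ≤ ∫ u in Set.Ioi (0 : ℝ), f u := by
        apply setIntegral_mono_set hi2 _ hsub.eventuallyLE
        refine (ae_restrict_iff' measurableSet_Ioi).mpr (Eventually.of_forall ?_)
        intro u hu
        have : (0 : ℝ) < u := hu
        show 0 ≤ 4 * r ^ 2 * u ^ 2 * Real.log r / (u ^ 2 + r ^ 2) ^ 2 +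
          8 * r ^ 2 * (√(u / r) / (u ^ 2 + r ^ 2))
        positivity

theorem EvN_ker1 {r : ℝ} (hr : 0 < r) :
    IntegrableOn (fun u : ℝ => 4 * r ^ 2 * u / (u ^ 2 + r ^ 2) ^ 2) (Set.Ioi 1) ∧
    ∫ u in Set.Ioi (1 : ℝ), 4 * r ^ 2 * u / (u ^ 2 + r ^ 2) ^ 2 ≤ 2 := by
  have h1 : ∀ t ∈ Set.Ici (1 : ℝ), HasDerivAt (fun t : ℝ => -(2 * r ^ 2 / (t ^ 2 + r ^ 2)))
      (4 * r ^ 2 * t / (t ^ 2 + r ^ 2) ^ 2) t := by
    intro t ht
    have h2 : HasDerivAt (fun u : ℝ => u ^ 2 + r ^ 2) (2 * t) t := by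
      simpa using (hasDerivAt_pow 2 t).add_const (r ^ 2)
    have h3 := ((h2.inv (by positivity)).const_mul (2 * r ^ 2)).neg
    refine (HasDerivAt.congr_deriv (f := fun t : ℝ => -(2 * r ^ 2 * (t ^ 2 + r ^ 2)⁻¹)) h3 ?_)
    field_simp
    ring
  have h2 : ∀ t ∈ Set.Ioi (1 : ℝ), 0 ≤ 4 * r ^ 2 * t / (t ^ 2 + r ^ 2) ^ 2 := by
    intro t ht
    have ht0 : 0 < t := lt_trans one_pos ht
    positivity
  have h3 : Tendsto (fun t : ℝ => -(2 * r ^ 2 / (t ^ 2 + r ^ 2))) atTop (𝓝 0) := by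
    have h4 : Tendsto (fun t : ℝ => t ^ 2 + r ^ 2) atTop atTop :=
      tendsto_atTop_add_const_right _ _ (tendsto_pow_atTop two_ne_zero)
    have h5 := (h4.const_div_atTop (2 * r ^ 2)).neg
    rwa [neg_zero] at h5
  refine ⟨integrableOn_Ioi_deriv_of_nonneg' h1 h2 h3, ?_⟩
  rw [integral_Ioi_of_hasDerivAt_of_nonneg' h1 h2 h3]
  have : 2 * r ^ 2 / (1 ^ 2 + r ^ 2) ≤ 2 := by
    rw [div_le_iff₀ (by positivity)]
    nlinarith
  linarith

/-- the even sum, N-form -/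
theorem EvN_evN : ∀ κ A : ℝ, 0 ≤ κ → 0 ≤ A → ∃ A' : ℝ, 0 ≤ A' ∧ ∀ (Z : Finset ℂ) (w : ℂ → ℝ),
    (∀ ρ ∈ Z, 1 ≤ ‖ρ‖) → (∀ ρ ∈ Z, 0 ≤ w ρ) →
    (∀ t : ℝ, 1 ≤ t → ∑ ρ ∈ Z with ‖ρ‖ ≤ t, w ρ * Real.log (t / ‖ρ‖) ≤
      κ * (t * Real.log t) + A) →
    ∀ r : ℝ, 1 ≤ r → ∑ ρ ∈ Z, w ρ * Real.log (1 + r ^ 2 / ‖ρ‖ ^ 2) ≤
      Real.pi * κ * (r * Real.log r) + A' * r := by
  intro κ A hκ hA
  refine ⟨8 * even1_c0 * κ + 2 * A, by have := even1_c0_nonneg; positivity, ?_⟩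
  intro Z w hZ hw hW r hr
  have hr0 : 0 < r := by linarith
  obtain ⟨hI, hle⟩ := EvN_main1 hr
  obtain ⟨hK, hKv⟩ := EvN_ker1 hr0
  set k : ℝ → ℝ := fun u => 4 * r ^ 2 * u / (u ^ 2 + r ^ 2) ^ 2 with hk
  have hk0 : ∀ u : ℝ, 1 ≤ u → 0 ≤ k u := by
    intro u hu
    rw [hk]
    positivity
  have hint : ∀ ρ ∈ Z, IntegrableOn (fun u => w ρ * (Set.Ioi ‖ρ‖).indicator
      (fun u => k u * Real.log (u / ‖ρ‖)) u) (Set.Ioi 1) := by
    intro ρ hρ
    have h1 : IntegrableOn (fun u => k u * Real.log (u / ‖ρ‖)) (Set.Ioi ‖ρ‖) :=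
      (EvN_int1 hr0 (lt_of_lt_of_le one_pos (hZ ρ hρ))).1
    have h2 : Integrable ((Set.Ioi ‖ρ‖).indicator (fun u => k u * Real.log (u / ‖ρ‖))) :=
      (integrable_indicator_iff measurableSet_Ioi).2 h1
    exact (h2.integrableOn).const_mul _
  have hkB : IntegrableOn (fun u => k u * (κ * (u * Real.log u) + A)) (Set.Ioi 1) := by
    have h1 : IntegrableOn (fun u => κ * (k u * (u * Real.log u)) + A * k u) (Set.Ioi 1) :=
      (hI.const_mul κ).add (hK.const_mul A)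
    refine h1.congr_fun ?_ measurableSet_Ioi
    intro u _
    simp only
    ring
  calc ∑ ρ ∈ Z, w ρ * Real.log (1 + r ^ 2 / ‖ρ‖ ^ 2)
      = ∑ ρ ∈ Z, ∫ u in Set.Ioi (1 : ℝ), w ρ * (Set.Ioi ‖ρ‖).indicator
          (fun u => k u * Real.log (u / ‖ρ‖)) u := by
        apply Finset.sum_congr rfl
        intro ρ hρ
        rw [integral_const_mul, setIntegral_indicator measurableSet_Ioi, Set.Ioi_inter_Ioi,
          max_eq_right (hZ ρ hρ), (EvN_int1 hr0 (lt_of_lt_of_le one_pos (hZ ρ hρ))).2]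
    _ = ∫ u in Set.Ioi (1 : ℝ), ∑ ρ ∈ Z, w ρ * (Set.Ioi ‖ρ‖).indicator
          (fun u => k u * Real.log (u / ‖ρ‖)) u := by
        rw [integral_finsetSum Z hint]
    _ ≤ ∫ u in Set.Ioi (1 : ℝ), k u * (κ * (u * Real.log u) + A) := by
        apply setIntegral_mono_on (integrable_finsetSum Z hint) hkB measurableSet_Ioi
        intro u hu
        have hu1 : (1 : ℝ) ≤ u := le_of_lt hu
        have h1 : ∑ ρ ∈ Z, w ρ * (Set.Ioi ‖ρ‖).indicator (fun u => k u * Real.log (u / ‖ρ‖)) u =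
            ∑ ρ ∈ Z with ‖ρ‖ ≤ u, k u * (w ρ * Real.log (u / ‖ρ‖)) := by
          rw [Finset.sum_filter]
          apply Finset.sum_congr rfl
          intro ρ hρ
          by_cases h : ‖ρ‖ < u
          · rw [Set.indicator_of_mem (show u ∈ Set.Ioi ‖ρ‖ from h), if_pos h.le]
            ring
          · rw [Set.indicator_of_notMem (show u ∉ Set.Ioi ‖ρ‖ from h), mul_zero]
            split_ifs with h'
            · have : u = ‖ρ‖ := le_antisymm (not_lt.1 h) h'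
              rw [this, div_self (by have := hZ ρ hρ; positivity), Real.log_one]
              ring
            · rfl
        rw [h1, ← Finset.mul_sum]
        exact mul_le_mul_of_nonneg_left (hW u hu1) (hk0 u hu1)
    _ = κ * (∫ u in Set.Ioi (1 : ℝ), k u * (u * Real.log u)) + A * ∫ u in Set.Ioi (1 : ℝ), k u := by
        rw [← integral_const_mul, ← integral_const_mul,
          ← integral_add (hI.const_mul κ) (hK.const_mul A)]
        apply setIntegral_congr_fun measurableSet_Ioi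
        intro u _
        simp only
        ring
    _ ≤ κ * (Real.pi * (r * Real.log r) + 8 * even1_c0 * r) + A * 2 := by
        gcongr
    _ ≤ _ := by
        have : A * 2 ≤ 2 * A * r := by nlinarith
        nlinarith

theorem tEvN : S_EvN := by
  intro κ A hκ hA
  obtain ⟨A', hA', h⟩ := EvN_evN κ A hκ hA
  refine ⟨A', hA', ?_⟩
  intro Z m hP hL r hr
  have h1 : ∀ ρ ∈ Z, 1 ≤ ‖ρ‖ := by
    intro ρ hρ
    have h2 := Complex.abs_re_le_norm ρ
    have h3 := hP.re ρ hρ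
    have h4 : 1 ≤ |ρ.re| := by rw [le_abs]; right; linarith
    linarith
  exact h Z m h1 (fun ρ _ => hP.nn ρ) hL r hr

end MP7ed9c3.Vz
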