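import Pool.Agent.Lib.MP_7ed9c3_nt.Vz.Spec

/-!
# MP_7ed9c3_nt, part Vz: Evb, the even bound
-/

set_option autoImplicit false

namespace MP7ed9c3.Vz

open NumberField IsDedekindDomain Filter Topology MeasureTheory MP7ed9c3.Zr

theorem tEvb : S_Bas → S_Evb := by
  intro hBas Φ C B hS
  obtain ⟨hO, -, -, -, -⟩ := hBas Φ C B hS
  have hC3 : 0 ≤ 3 * C := by have := hS.cc; positivity
  obtain ⟨c, -, hlog⟩ := logz factor Φ (3 * C) (3 / 2) hS.df hS.one hC3 (by norm_num) hO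
  refine ⟨2 + |Real.log B|, by positivity, ?_⟩
  intro R hR
  obtain ⟨R₀, hR₀⟩ := hlog 1 le_rfl (by norm_num) (2 * R) 1 one_pos
  refine ⟨R₀, ?_⟩
  intro R' hR' r hr1 hr2 hne
  obtain ⟨g, hg, hg1⟩ := hR₀ R' hR'
  set b : ℂ := c 1 + 1 / ((1 : ℕ) : ℂ) * ∑ ρ ∈ zer Φ R', (analyticOrderNatAt Φ ρ : ℂ) * (1 / ρ) ^ 1
    with hb
  have hr0 : 0 ≤ r := by linarith
  have hnr : ‖(r : ℂ)‖ ≤ 2 * R := by
    rw [Complex.norm_real, Real.norm_eq_abs, abs_of_nonneg hr0]; exact hr2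
  have hnr' : ‖-(r : ℂ)‖ ≤ 2 * R := by rw [norm_neg]; exact hnr
  have e1 := hg1 (r : ℂ) hnr
  have e2 := hg1 (-(r : ℂ)) hnr'
  rw [Finset.Icc_self, Finset.sum_singleton, ← hb, pow_one] at e1 e2
  have hre : (g r + g (-(r : ℂ))).re ≤ 2 := by
    have h5 : (g r + g (-(r : ℂ))) = (g r - b * r) + (g (-(r : ℂ)) - b * (-(r : ℂ))) := by ring
    rw [h5, Complex.add_re]
    have := Complex.re_le_norm (g r - b * r)
    have := Complex.re_le_norm (g (-(r : ℂ)) - b * (-(r : ℂ)))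
    linarith
  have hprod : ‖Φ r * Φ (-(r : ℂ))‖ ≤ Real.exp (2 + EZ (zer Φ R') (od Φ) r) := by
    rw [hg _ hnr, hg _ hnr']
    have e3 : Complex.exp (g r) * prodZ Φ R' r * (Complex.exp (g (-(r : ℂ))) *
        prodZ Φ R' (-(r : ℂ))) = Complex.exp (g r + g (-(r : ℂ))) *
        (prodZ Φ R' r * prodZ Φ R' (-(r : ℂ))) := by
      rw [Complex.exp_add]; ring
    rw [e3, norm_mul, Complex.norm_exp, Real.exp_add]
    apply mul_le_mul (Real.exp_le_exp.mpr hre) _ (norm_nonneg _) (Real.exp_pos _).le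
    exact evenz_prod Φ R' r
  have hlo := hS.lo r hr0
  have hBpos := hS.bp
  have hΦr : 0 < ‖Φ (r : ℂ)‖ := lt_of_lt_of_le hBpos hlo
  have hΦm : 0 < ‖Φ (-(r : ℂ))‖ := norm_pos_iff.mpr hne
  have h1 : Real.log ‖Φ (r : ℂ)‖ + Real.log ‖Φ (-(r : ℂ))‖ ≤ 2 + EZ (zer Φ R') (od Φ) r := by
    rw [← Real.log_mul hΦr.ne' hΦm.ne', ← norm_mul, Real.log_le_iff_le_exp]
    · exact hprod
    · rw [norm_mul]; positivity
  have h2 : Real.log B ≤ Real.log ‖Φ (r : ℂ)‖ := Real.log_le_log hBpos hlo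
  have h3 := neg_abs_le (Real.log B)
  linarith

end MP7ed9c3.Vz
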