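import Pool.Agent.Lib.MP_7ed9c3_nt.Vz.Spec

/-!
# MP_7ed9c3_nt, part Vz: assembly
-/

set_option autoImplicit false

namespace MP7ed9c3.Vz

open NumberField IsDedekindDomain Filter Topology MeasureTheory MP7ed9c3.Zr

theorem Fin_log {x : ℝ} (hx : 0 ≤ x) :
    (1 + x) * Real.log (2 + x) ≤ 3 * (1 + x) ^ (3 / 2 : ℝ) := by
  have h1 : (1 + x) ^ (3 / 2 : ℝ) = (1 + x) * √(1 + x) := by
    rw [Real.sqrt_eq_rpow, show (3 / 2 : ℝ) = 1 + 1 / 2 by norm_num,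
      Real.rpow_add (by linarith), Real.rpow_one]
  have h2 : Real.log (2 + x) ≤ 2 * √(2 + x) := by
    have h3 := Real.log_le_sub_one_of_pos (Real.sqrt_pos.2 (show 0 < 2 + x by linarith))
    rw [Real.log_sqrt (by linarith)] at h3
    linarith
  have h4 : √(2 + x) ≤ 3 / 2 * √(1 + x) := by
    rw [show (3 / 2 : ℝ) * √(1 + x) = √((3 / 2) ^ 2 * (1 + x)) by
      rw [Real.sqrt_mul (by norm_num), Real.sqrt_sq (by norm_num)]]
    exact Real.sqrt_le_sqrt (by linarith)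
  rw [h1]
  have h5 : Real.log (2 + x) ≤ 3 * √(1 + x) := by linarith
  calc (1 + x) * Real.log (2 + x) ≤ (1 + x) * (3 * √(1 + x)) :=
        mul_le_mul_of_nonneg_left h5 (by linarith)
    _ = _ := by ring

theorem Fin_ord {F : ℂ → ℂ} {C : ℝ} (h : Grw F C) : Ord F (3 * |C|) (3 / 2) := by
  intro s
  refine (h s).trans (Real.exp_le_exp.2 ?_)
  have h1 := Fin_log (norm_nonneg s)
  have h0 : 0 ≤ (1 + ‖s‖) * Real.log (2 + ‖s‖) :=
    mul_nonneg (by positivity) (Real.log_nonneg (by linarith [norm_nonneg s]))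
  calc C * ((1 + ‖s‖) * Real.log (2 + ‖s‖)) ≤ |C| * ((1 + ‖s‖) * Real.log (2 + ‖s‖)) :=
        mul_le_mul_of_nonneg_right (le_abs_self _) h0
    _ ≤ |C| * (3 * (1 + ‖s‖) ^ (3 / 2 : ℝ)) := mul_le_mul_of_nonneg_left h1 (abs_nonneg _)
    _ = _ := by ring

theorem tVZ : S_Bas → S_Man → S_Shf → S_VZ := by
  intro hBas hMan hShf K _ _ E hE M hM F hF hFE hgr κ hκ
  obtain ⟨C, hC⟩ := hgr
  obtain ⟨B, hB, hBs⟩ := edgez K E hE M hM
  have hFB : ∀ s : ℂ, 2 ≤ s.re → B⁻¹ ≤ ‖F s‖ ∧ ‖F s‖ ≤ B := by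
    intro s hs
    rw [hFE s (by linarith)]
    exact hBs s hs
  have hFne : ∀ s : ℂ, 3 / 2 < s.re → F s ≠ 0 := by
    intro s hs
    rw [hFE s hs]
    exact edge_ne K E hE M hM s hs
  obtain ⟨Φ, C', B', B'', C₀, hS, hup, hC₀, hFΦ, hmono, hsum⟩ := hShf F C B hF hC hB hFB hFne
  set κ' : ℝ := max κ 0 with hκ'
  have hκ'0 : 0 ≤ κ' := le_max_right _ _
  have hκκ' : κ ≤ κ' := le_max_left _ _
  have hκ'1 : Real.pi * κ' < 2 := by
    rw [hκ']
    rcases le_total κ 0 with h | h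
    · rw [max_eq_right h]; norm_num
    · rw [max_eq_left h]
      rw [lt_div_iff₀ Real.pi_pos] at hκ
      linarith
  obtain ⟨A, hA, hAm⟩ := hMan Φ C' B' κ' hS hκ'0 hκ'1
  refine ⟨A, hA, ?_⟩
  by_contra hcon
  push Not at hcon
  obtain ⟨r₀, hr₀⟩ := hcon
  set r₁ : ℝ := max r₀ 1 with hr₁
  have hr₁1 : 1 ≤ r₁ := le_max_right _ _
  have hr₁0 : r₀ ≤ r₁ := le_max_left _ _
  have hl₁ : 0 ≤ r₁ * Real.log r₁ := mul_nonneg (by linarith) (Real.log_nonneg hr₁1)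
  have hD : 0 ≤ κ' * (r₁ * Real.log r₁) := mul_nonneg hκ'0 hl₁
  have hbig : ∀ R' t : ℝ, r₁ ≤ t → LZ (inn Φ A R') (od Φ) t ≤ κ' * (t * Real.log t) := by
    intro R' t ht
    have ht1 : 1 ≤ t := hr₁1.trans ht
    refine (hsum A R' t ht1).trans ((hr₀ t (hr₁0.trans ht)).trans ?_)
    exact mul_le_mul_of_nonneg_right hκκ'
      (mul_nonneg (by linarith) (Real.log_nonneg ht1))
  have hLZ : ∀ R' t : ℝ, 1 ≤ t → LZ (inn Φ A R') (od Φ) t ≤
      κ' * (t * Real.log t) + κ' * (r₁ * Real.log r₁) := by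
    intro R' t ht
    have h1 : 0 ≤ κ' * (t * Real.log t) :=
      mul_nonneg hκ'0 (mul_nonneg (by linarith) (Real.log_nonneg ht))
    rcases le_total r₁ t with h | h
    · have := hbig R' t h
      linarith
    · have h2 := hmono A R' t r₁ ht h
      have h3 := hbig R' r₁ le_rfl
      linarith
  obtain ⟨κ₁, A₁, hκ₁0, hκ₁1, hA₁, hSZ⟩ := hAm _ hD hLZ
  have hC'0 : 0 ≤ 3 * C' := by linarith [hS.cc]
  obtain ⟨A', hA'⟩ := odd (logz factor) (odd1 abelz) Φ (3 * C') (3 / 2) κ₁ A₁ hS.df hS.one hC'0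
    (by norm_num) (hBas Φ C' B' hS).1 (by norm_num) hκ₁0 hA₁ hS.ze
    (fun R t ht => hSZ R t ht)
  have hB''1 : 1 ≤ B'' := by
    have h1 := hup 0 le_rfl
    rw [Complex.ofReal_zero, hS.one, norm_one] at h1
    exact h1
  have hCB : 0 < C₀ * B'' := by positivity
  refine contra plz K E hE M hM F hF hFE (Fin_ord hC) (by norm_num) (fun s hs => (hFB s hs).2)
    (κ := 2 * κ₁) (A := A') (D := Real.log (C₀ * B'')) (by linarith) (by linarith) ?_
  intro r hr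
  rw [hFΦ]
  have h1 := hA' r (by linarith)
  have h2 := hup r (by linarith)
  calc C₀ * ‖Φ (-(r : ℂ))‖ ≤ C₀ * (‖Φ r‖ *
        Real.exp (2 * κ₁ * (r * Real.log r) + A' * r)) := mul_le_mul_of_nonneg_left h1 hC₀.le
    _ ≤ C₀ * (B'' * Real.exp (2 * κ₁ * (r * Real.log r) + A' * r)) :=
        mul_le_mul_of_nonneg_left
          (mul_le_mul_of_nonneg_right h2 (Real.exp_pos _).le) hC₀.le
    _ = Real.exp (Real.log (C₀ * B'')) * Real.exp (2 * κ₁ * (r * Real.log r) + A' * r) := by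
        rw [Real.exp_log hCB]; ring
    _ = Real.exp (2 * κ₁ * (r * Real.log r) + A' * r + Real.log (C₀ * B'')) := by
        rw [← Real.exp_add]
        congr 1
        ring
    _ ≤ _ := le_rfl

end MP7ed9c3.Vz
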