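import Pool.Agent.Lib.MP_7ed9c3_nt.Vz.Gro

/-!
# MP_7ed9c3_nt, part Vz: continuations of finite order (assembly)
-/

set_option autoImplicit false

namespace MP7ed9c3.Vz

open NumberField IsDedekindDomain Filter Topology MeasureTheory MP7ed9c3.Zr

theorem fin2_grow (c R x : ℝ) (hx : 0 ≤ x) :
    c * (x * Real.log (1 + x)) + R * (1 + x) ≤
      (|c| + 2 * |R|) * ((1 + x) * Real.log (2 + x)) := by
  have h1 : 0 ≤ Real.log (1 + x) := Real.log_nonneg (by linarith)
  have h2 : Real.log (1 + x) ≤ Real.log (2 + x) := Real.log_le_log (by linarith) (by linarith)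
  have h3 : (1 : ℝ) / 2 ≤ Real.log (2 + x) := by
    have h4 : Real.log 2 ≤ Real.log (2 + x) := Real.log_le_log (by norm_num) (by linarith)
    have := Real.log_two_gt_d9
    linarith
  have h5 : x * Real.log (1 + x) ≤ (1 + x) * Real.log (2 + x) :=
    mul_le_mul (by linarith) h2 h1 (by linarith)
  have h6 : c * (x * Real.log (1 + x)) ≤ |c| * ((1 + x) * Real.log (2 + x)) :=
    (mul_le_mul_of_nonneg_right (le_abs_self c) (mul_nonneg hx h1)).trans
      (mul_le_mul_of_nonneg_left h5 (abs_nonneg c))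
  have h7 : (1 : ℝ) + x ≤ 2 * ((1 + x) * Real.log (2 + x)) := by nlinarith
  have h8 : R * (1 + x) ≤ |R| * (2 * ((1 + x) * Real.log (2 + x))) :=
    (mul_le_mul_of_nonneg_right (le_abs_self R) (by linarith)).trans
      (mul_le_mul_of_nonneg_left h7 (abs_nonneg R))
  linarith

theorem fin2 (hV : S_VZ) : S_VZ2 := by
  intro K _ _ E hE M hM F hF hFE hord κ hκ
  refine ⟨fun r₀ => z1All K E hE M hM F hF hFE hord κ r₀ hκ, ?_⟩
  rintro ⟨C, r₁, hC⟩
  obtain ⟨B, hB, hBs⟩ := edgez K E hE M hM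
  have hFB : ∀ s : ℂ, 2 ≤ s.re → B⁻¹ ≤ ‖F s‖ ∧ ‖F s‖ ≤ B := by
    intro s hs
    rw [hFE s (by linarith)]
    exact hBs s hs
  have hFne : ∀ s : ℂ, 3 / 2 < s.re → F s ≠ 0 := by
    intro s hs
    rw [hFE s hs]
    exact edge_ne K E hE M hM s hs
  obtain ⟨c, R, hR⟩ := growZ plz (evenz (logz factor) (even1 abelz))
    (reduce (logz factor) (powz abelz)) shift F hF B hB hFB hFne hord C r₁ hC
  refine hV K E hE M hM F hF hFE ⟨|c| + 2 * |R|, fun s => ?_⟩ κ hκ
  exact (hR s).trans (Real.exp_le_exp.mpr (fin2_grow _ _ _ (norm_nonneg s)))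

end MP7ed9c3.Vz
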