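import Pool.Agent.Lib.MP_7ed9c3_nt.Vz.Spec

/-!
# MP_7ed9c3_nt, part Vz, module Low (helper77): the average lower bound for `log ‖Φ(-r)‖`
-/

set_option autoImplicit false

namespace MP7ed9c3.Vz

open NumberField IsDedekindDomain Filter Topology MeasureTheory MP7ed9c3.Zr

private lemma Low_mem {Φ : ℂ → ℂ} {R' : ℝ} {ρ : ℂ} (h : ρ ∈ zer Φ R') : ‖ρ‖ < R' ∧ Φ ρ = 0 := by
  rw [zer] at h
  split_ifs at h with hfin
  · rw [Set.Finite.mem_toFinset] at h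
    exact h
  · simp at h

private lemma Low_fin (Φ : ℂ → ℂ) (hd : Differentiable ℂ Φ) (h0 : Φ 0 = 1) (R : ℝ) :
    {r : ℝ | r ∈ Set.Icc R (2 * R) ∧ Φ (-(r : ℂ)) = 0}.Finite := by
  have hF := (factor Φ hd h0 (2 * |R| + 1)).1
  have hinj : Function.Injective (fun r : ℝ => -(r : ℂ)) := by
    intro a b h
    have h1 : (a : ℂ) = b := neg_injective h
    exact_mod_cast h1
  refine (hF.preimage hinj.injOn).subset ?_
  rintro r ⟨hr, hz⟩
  have h1 := neg_abs_le R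
  have h2 := le_abs_self R
  have h3 := abs_nonneg R
  have h4 := hr.1
  have h5 := hr.2
  refine ⟨?_, hz⟩
  show ‖-(r : ℂ)‖ < 2 * |R| + 1
  rw [norm_neg, Complex.norm_real, Real.norm_eq_abs]
  exact abs_lt.2 ⟨by linarith, by linarith⟩

private lemma Low_logprod (Φ : ℂ → ℂ) (R' : ℝ) (z : ℂ) (hz : prodZ Φ R' z ≠ 0) :
    Real.log ‖prodZ Φ R' z‖ = ∑ ρ ∈ zer Φ R', od Φ ρ * Real.log ‖1 - z / ρ‖ := by
  rw [prodZ] at hz ⊢
  rw [Finset.prod_ne_zero_iff] at hz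
  rw [norm_prod, Real.log_prod (fun ρ hρ => norm_ne_zero_iff.2 (hz ρ hρ))]
  refine Finset.sum_congr rfl fun ρ _ => ?_
  rw [norm_pow, Real.log_pow, od]

private lemma Low_one (ρ : ℂ) (r : ℝ) (hr : 0 < r) (hρ : ρ.re ≤ -1) (hne : ρ + (r : ℂ) ≠ 0) :
    Real.log ‖1 - (-(r : ℂ)) / ρ‖ - Real.log ‖1 - (r : ℂ) / ρ‖ = qq ρ r := by
  have hρ0 : ρ ≠ 0 := by
    rintro rfl
    simp at hρ
    linarith
  have hne2 : ρ - (r : ℂ) ≠ 0 := by
    intro h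
    have h1 := congrArg Complex.re h
    simp at h1
    linarith
  have h1 : ‖1 - (-(r : ℂ)) / ρ‖ = ‖ρ + (r : ℂ)‖ / ‖ρ‖ := by
    rw [← norm_div]; congr 1; field_simp; ring
  have h2 : ‖1 - (r : ℂ) / ρ‖ = ‖ρ - (r : ℂ)‖ / ‖ρ‖ := by
    rw [← norm_div]; congr 1; field_simp
  rw [h1, h2, qq, Real.log_div (norm_ne_zero_iff.2 hne) (norm_ne_zero_iff.2 hρ0),
    Real.log_div (norm_ne_zero_iff.2 hne2) (norm_ne_zero_iff.2 hρ0),
    Real.log_div (norm_ne_zero_iff.2 hne) (norm_ne_zero_iff.2 hne2)]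
  ring

private lemma Low_inv (ρ : ℂ) (hρ : ρ.re ≤ -1) : (1 / ρ).re = -bb ρ := by
  rw [one_div, Complex.inv_re, Complex.normSq_eq_norm_sq, bb, abs_of_nonpos (by linarith)]
  ring

private lemma Low_V (Z : Finset ℂ) (m : ℂ → ℝ) (h : Pt Z m) (R : ℝ) : 0 ≤ VZ Z m R := by
  refine Finset.sum_nonneg fun ρ _ => mul_nonneg (h.nn ρ) (mul_nonneg ?_ (Real.sqrt_nonneg _))
  rw [bb]; positivity

private lemma Low_split (Z : Finset ℂ) (m : ℂ → ℝ) (R r : ℝ) :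
    ∑ ρ ∈ Z, m ρ * (2 * r * bb ρ + qq ρ r) = 2 * r * SZ Z m R +
      ∑ ρ ∈ Z, m ρ * ((if R < ‖ρ‖ then 2 * r * bb ρ else 0) + qq ρ r) := by
  rw [SZ, Finset.mul_sum, Finset.sum_filter, ← Finset.sum_add_distrib]
  refine Finset.sum_congr rfl fun ρ _ => ?_
  by_cases h : ‖ρ‖ ≤ R
  · rw [if_pos h, if_neg (not_lt.2 h)]
    ring
  · rw [if_neg h, if_pos (not_le.1 h)]
    ring

private lemma Low_key (Φ : ℂ → ℂ) (C B : ℝ) (hs : Sth Φ C B) (R R' : ℝ) (hR : 1 ≤ R) (c1 : ℂ)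
    (hc1 : c1 = deriv Φ 0) (g : ℂ → ℂ)
    (hg1 : ∀ z : ℂ, ‖z‖ ≤ 2 * R → Φ z = Complex.exp (g z) * prodZ Φ R' z)
    (hg2 : ∀ z : ℂ, ‖z‖ ≤ 2 * R → ‖g z - (c1 + ∑ ρ ∈ zer Φ R',
      (analyticOrderNatAt Φ ρ : ℂ) * (1 / ρ)) * z‖ ≤ 1) (r : ℝ) (h1r : R ≤ r) (h2r : r ≤ 2 * R)
    (hne : Φ (-(r : ℂ)) ≠ 0) :
    Real.log B - 2 - 4 * R * ‖deriv Φ 0‖ + ∑ ρ ∈ zer Φ R', od Φ ρ * (2 * r * bb ρ + qq ρ r) ≤
      Real.log ‖Φ (-(r : ℂ))‖ := by
  have hr0 : 0 < r := by linarith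
  have hrn : ‖(r : ℂ)‖ = r := by
    rw [Complex.norm_real, Real.norm_eq_abs, abs_of_nonneg hr0.le]
  have hrn' : ‖(-(r : ℂ))‖ = r := by rw [norm_neg, hrn]
  set Z := zer Φ R' with hZ
  set b : ℂ := c1 + ∑ ρ ∈ Z, (analyticOrderNatAt Φ ρ : ℂ) * (1 / ρ) with hb
  have hzer : ∀ ρ ∈ Z, ρ.re ≤ -1 := fun ρ hρ => hs.ze ρ (Low_mem hρ).2
  have hΦm := hg1 (-(r : ℂ)) (by rw [hrn']; exact h2r)
  have hΦp := hg1 (r : ℂ) (by rw [hrn]; exact h2r)
  have hBr : B ≤ ‖Φ (r : ℂ)‖ := hs.lo r hr0.le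
  have hp0 : Φ (r : ℂ) ≠ 0 := by
    intro h
    rw [h, norm_zero] at hBr
    linarith [hs.bp]
  have hprm : prodZ Φ R' (-(r : ℂ)) ≠ 0 := by
    intro h
    rw [hΦm, h, mul_zero] at hne
    exact hne rfl
  have hprp : prodZ Φ R' (r : ℂ) ≠ 0 := by
    intro h
    rw [hΦp, h, mul_zero] at hp0
    exact hp0 rfl
  have hg_lo : -(r * b.re) - 1 ≤ (g (-(r : ℂ))).re := by
    have h := hg2 (-(r : ℂ)) (by rw [hrn']; exact h2r)
    have h' := (neg_le_of_abs_le (Complex.abs_re_le_norm (g (-(r : ℂ)) - b * -(r : ℂ)))).trans'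
      (neg_le_neg h)
    simp only [Complex.sub_re, Complex.mul_re, Complex.neg_re, Complex.neg_im, Complex.ofReal_re,
      Complex.ofReal_im] at h'
    linarith
  have hg_up : (g (r : ℂ)).re ≤ r * b.re + 1 := by
    have h := hg2 (r : ℂ) (by rw [hrn]; exact h2r)
    have h' := (Complex.re_le_norm _).trans h
    simp only [Complex.sub_re, Complex.mul_re, Complex.ofReal_re, Complex.ofReal_im] at h'
    linarith
  have hbre : b.re = c1.re - ∑ ρ ∈ Z, od Φ ρ * bb ρ := by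
    rw [hb, Complex.add_re, Complex.re_sum, sub_eq_add_neg, ← Finset.sum_neg_distrib]
    congr 1
    refine Finset.sum_congr rfl fun ρ hρ => ?_
    rw [Complex.mul_re, Low_inv ρ (hzer ρ hρ), od]
    simp
  have e1 : Real.log ‖Φ (-(r : ℂ))‖ = (g (-(r : ℂ))).re +
      ∑ ρ ∈ Z, od Φ ρ * Real.log ‖1 - (-(r : ℂ)) / ρ‖ := by
    rw [hΦm, norm_mul, Complex.norm_exp, Real.log_mul (Real.exp_pos _).ne'
      (norm_ne_zero_iff.2 hprm), Real.log_exp, Low_logprod Φ R' _ hprm]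
  have e2 : Real.log ‖Φ (r : ℂ)‖ = (g (r : ℂ)).re +
      ∑ ρ ∈ Z, od Φ ρ * Real.log ‖1 - (r : ℂ) / ρ‖ := by
    rw [hΦp, norm_mul, Complex.norm_exp, Real.log_mul (Real.exp_pos _).ne'
      (norm_ne_zero_iff.2 hprp), Real.log_exp, Low_logprod Φ R' _ hprp]
  have e3 : Real.log B ≤ Real.log ‖Φ (r : ℂ)‖ := Real.log_le_log hs.bp hBr
  have e4 : ∑ ρ ∈ Z, od Φ ρ * Real.log ‖1 - (-(r : ℂ)) / ρ‖ =
      ∑ ρ ∈ Z, od Φ ρ * Real.log ‖1 - (r : ℂ) / ρ‖ + ∑ ρ ∈ Z, od Φ ρ * qq ρ r := by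
    rw [← Finset.sum_add_distrib]
    refine Finset.sum_congr rfl fun ρ hρ => ?_
    rw [← Low_one ρ r hr0 (hzer ρ hρ) ?_]
    · ring
    · intro h
      have h1 : ρ = -(r : ℂ) := eq_neg_of_add_eq_zero_left h
      rw [← h1] at hne
      exact hne (Low_mem hρ).2
  have e5 : ∑ ρ ∈ Z, od Φ ρ * (2 * r * bb ρ + qq ρ r) =
      2 * r * ∑ ρ ∈ Z, od Φ ρ * bb ρ + ∑ ρ ∈ Z, od Φ ρ * qq ρ r := by
    rw [Finset.mul_sum, ← Finset.sum_add_distrib]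
    refine Finset.sum_congr rfl fun ρ _ => by ring
  have e6 : c1.re ≤ ‖deriv Φ 0‖ := by
    rw [hc1]
    exact Complex.re_le_norm _
  have e7 : r * c1.re ≤ 2 * R * ‖deriv Φ 0‖ := by
    calc r * c1.re ≤ r * ‖deriv Φ 0‖ := mul_le_mul_of_nonneg_left e6 hr0.le
      _ ≤ 2 * R * ‖deriv Φ 0‖ := mul_le_mul_of_nonneg_right h2r (norm_nonneg _)
  have e8 : r * b.re = r * c1.re - r * ∑ ρ ∈ Z, od Φ ρ * bb ρ := by rw [hbre]; ring
  rw [e5]
  linarith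

theorem tLow : S_Bas → S_Avg → S_Low := by
  intro hBas hAvg Φ C B hs
  obtain ⟨hord, hPt, -, -, -⟩ := hBas Φ C B hs
  obtain ⟨c, hc1, hlog⟩ := logz factor Φ (3 * C) (3 / 2) hs.df hs.one
    (by have := hs.cc; linarith) (by norm_num) hord
  refine ⟨|Real.log B| + 2 + 4 * ‖deriv Φ 0‖ + 100, by positivity, fun R hR => ?_⟩
  obtain ⟨R₀, hR₀⟩ := hlog 1 le_rfl (by norm_num) (2 * R) 1 one_pos
  refine ⟨R₀, fun R' hR' => ?_⟩
  obtain ⟨g, hg1, hg2⟩ := hR₀ R' hR'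
  have hg2' : ∀ z : ℂ, ‖z‖ ≤ 2 * R → ‖g z - (c 1 + ∑ ρ ∈ zer Φ R',
      (analyticOrderNatAt Φ ρ : ℂ) * (1 / ρ)) * z‖ ≤ 1 := by
    intro z hz
    have := hg2 z hz
    simpa using this
  have key := Low_key Φ C B hs R R' hR (c 1) hc1 g hg1 hg2'
  have hP : Pt (zer Φ R') (od Φ) := hPt R'
  have hV0 := Low_V _ _ hP R
  by_contra hcon
  push Not at hcon
  let G : ℝ → ℝ := fun r => ∑ ρ ∈ zer Φ R', od Φ ρ *
    ((if R < ‖ρ‖ then 2 * r * bb ρ else 0) + qq ρ r)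
  have hR0 : 0 < R := by linarith
  have hRR : R ≤ 2 * R := by linarith
  -- the pointwise upper bound
  have hup : ∀ r ∈ Set.Icc R (2 * R), Φ (-(r : ℂ)) ≠ 0 →
      G r ≤ -(100 * (R * VZ (zer Φ R') (od Φ) R)) - R := by
    intro r hr hne
    have h1 := key r hr.1 hr.2 hne
    rw [Low_split _ _ R r] at h1
    have h2 := hcon r hr.1 hr.2 hne
    have h3 : -|Real.log B| ≤ Real.log B := neg_abs_le _
    have h4 : (|Real.log B| + 2) * 1 ≤ (|Real.log B| + 2) * R :=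
      mul_le_mul_of_nonneg_left hR (by positivity)
    have h5 : 0 ≤ R * VZ (zer Φ R') (od Φ) R := mul_nonneg hR0.le hV0
    have h6 : 0 ≤ (|Real.log B| + 2 + 4 * ‖deriv Φ 0‖) * (R * VZ (zer Φ R') (od Φ) R) :=
      mul_nonneg (by positivity) h5
    show ∑ ρ ∈ zer Φ R', od Φ ρ * ((if R < ‖ρ‖ then 2 * r * bb ρ else 0) + qq ρ r) ≤ _
    linarith
  -- integrability
  have hint : ∀ ρ ∈ zer Φ R', IntervalIntegrable (fun r : ℝ => od Φ ρ *
      ((if R < ‖ρ‖ then 2 * r * bb ρ else 0) + qq ρ r)) volume R (2 * R) := by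
    intro ρ hρ
    refine IntervalIntegrable.const_mul (IntervalIntegrable.add ?_
      (hAvg ρ (hP.re ρ hρ) R hR).1) _
    refine Continuous.intervalIntegrable ?_ _ _
    split_ifs
    · fun_prop
    · fun_prop
  have hGint : IntervalIntegrable G volume R (2 * R) := by
    have h := IntervalIntegrable.sum (zer Φ R') hint
    refine h.congr fun r _ => ?_
    simp only [Finset.sum_apply, G]
  have hlow : -(100 * (R ^ 2 * VZ (zer Φ R') (od Φ) R)) ≤ ∫ r in R..(2 * R), G r := by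
    show _ ≤ ∫ r in R..(2 * R), ∑ ρ ∈ zer Φ R', od Φ ρ *
      ((if R < ‖ρ‖ then 2 * r * bb ρ else 0) + qq ρ r)
    rw [intervalIntegral.integral_finsetSum hint, VZ, Finset.mul_sum, Finset.mul_sum,
      ← Finset.sum_neg_distrib]
    refine Finset.sum_le_sum fun ρ hρ => ?_
    rw [intervalIntegral.integral_const_mul]
    have h := mul_le_mul_of_nonneg_left (hAvg ρ (hP.re ρ hρ) R hR).2 (hP.nn ρ)
    refine le_trans (le_of_eq ?_) h
    ring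
  have hupI : ∫ r in R..(2 * R), G r ≤
      ∫ _ in R..(2 * R), (-(100 * (R * VZ (zer Φ R') (od Φ) R)) - R) := by
    refine intervalIntegral.integral_mono_ae_restrict hRR hGint
      intervalIntegrable_const ?_
    rw [EventuallyLE, ae_restrict_iff' measurableSet_Icc]
    filter_upwards [(Low_fin Φ hs.df hs.one R).countable.ae_notMem volume] with r hr hI
    refine hup r hI fun h0 => hr ⟨hI, h0⟩
  rw [intervalIntegral.integral_const, smul_eq_mul] at hupI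
  have hfin : (2 * R - R) * (-(100 * (R * VZ (zer Φ R') (od Φ) R)) - R) =
      -(100 * (R ^ 2 * VZ (zer Φ R') (od Φ) R)) - R ^ 2 := by ring
  rw [hfin] at hupI
  have : 0 < R ^ 2 := by positivity
  linarith

end MP7ed9c3.Vz
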