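import Pool.Agent.Lib.MP_7ed9c3_nt.Vz.Spec

/-!
# MP_7ed9c3_nt, part Vz: the main combination at a good scale
-/

set_option autoImplicit false

namespace MP7ed9c3.Vz

open NumberField IsDedekindDomain Filter Topology MeasureTheory MP7ed9c3.Zr

private theorem Man_bb (ρ : ℂ) : 0 ≤ bb ρ := by
  unfold bb
  positivity

private theorem Man_wt (x : ℝ) : 0 ≤ wt x := Real.sqrt_nonneg _

private theorem Man_VZ {Z Z' : Finset ℂ} {m : ℂ → ℝ} (hm : ∀ ρ, 0 ≤ m ρ) (h : Z' ⊆ Z) (R : ℝ) :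
    VZ Z' m R ≤ VZ Z m R :=
  Finset.sum_le_sum_of_subset_of_nonneg h fun ρ _ _ =>
    mul_nonneg (hm ρ) (mul_nonneg (Man_bb ρ) (Man_wt _))

/-- the choice of the parameter -/
private theorem Man_del {κ₂ : ℝ} (h0 : 0 ≤ κ₂) (h1 : κ₂ < 1) :
    ∃ δ : ℝ, 0 < δ ∧ δ < 1 ∧ (κ₂ + δ) * (1 + δ) < 1 := by
  refine ⟨(1 - κ₂) / 4, by linarith, by linarith, ?_⟩
  nlinarith [mul_pos (sub_pos.2 h1) (sub_pos.2 h1)]

/-- the final division -/
private theorem Man_div {S R r κ δ A C₈ C' A' C'' : ℝ} (hR : 1 ≤ R) (hr : R ≤ r) (hr2 : r ≤ 2 * R)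
    (hκ : 0 ≤ κ) (hδ : 0 ≤ δ) (hC8 : 0 ≤ C₈) (hC' : 0 ≤ C') (hC'' : 0 ≤ C'')
    (hA : 0 < A) (hA2 : 4 * C₈ ≤ δ * A)
    (h : 2 * r * S ≤ C' * (R * (1 + C₈)) + (Real.pi * κ * (r * Real.log r) + A' * r) +
      8 / A * (r * Real.log (2 + r)) * C₈ + C'') :
    S ≤ (Real.pi * κ / 2 + δ) * Real.log R +
      (Real.pi * κ / 2 + 2 * δ + C' * (1 + C₈) + A' / 2 + C'') := by
  have hr1 : 1 ≤ r := hR.trans hr
  have hr0 : 0 < r := by linarith
  have hR0 : 0 < R := by linarith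
  have hpk : 0 ≤ Real.pi * κ := mul_nonneg Real.pi_pos.le hκ
  have l1 : Real.log r ≤ Real.log R + 1 := by
    have e1 : Real.log r ≤ Real.log (2 * R) := Real.log_le_log hr0 hr2
    rw [Real.log_mul (by norm_num) hR0.ne'] at e1
    have e2 : Real.log 2 ≤ 1 := by
      have := Real.log_le_sub_one_of_pos (show (0 : ℝ) < 2 by norm_num)
      linarith
    linarith
  have l2 : Real.log (2 + r) ≤ Real.log R + 2 := by
    have e1 : Real.log (2 + r) ≤ Real.log (2 * 2 * R) := Real.log_le_log (by linarith) (by linarith)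
    rw [Real.log_mul (by norm_num) hR0.ne', Real.log_mul (by norm_num) (by norm_num)] at e1
    have e2 : Real.log 2 ≤ 1 := by
      have := Real.log_le_sub_one_of_pos (show (0 : ℝ) < 2 by norm_num)
      linarith
    linarith
  have l3 : 0 ≤ Real.log (2 + r) := Real.log_nonneg (by linarith)
  have k1 : 8 / A * (r * Real.log (2 + r)) * C₈ ≤ 2 * r * (δ * (Real.log R + 2)) := by
    have e1 : 8 / A * (r * Real.log (2 + r)) * C₈ = 2 * r * (4 * C₈ / A * Real.log (2 + r)) := by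
      ring
    rw [e1]
    have e2 : 4 * C₈ / A ≤ δ := by
      rw [div_le_iff₀ hA]
      exact hA2
    have e3 : 4 * C₈ / A * Real.log (2 + r) ≤ δ * (Real.log R + 2) :=
      (mul_le_mul_of_nonneg_right e2 l3).trans (mul_le_mul_of_nonneg_left l2 hδ)
    exact mul_le_mul_of_nonneg_left e3 (by linarith)
  have k2 : Real.pi * κ * (r * Real.log r) ≤ 2 * r * (Real.pi * κ / 2 * (Real.log R + 1)) := by
    have e1 : Real.pi * κ * (r * Real.log r) = 2 * r * (Real.pi * κ / 2 * Real.log r) := by ring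
    rw [e1]
    exact mul_le_mul_of_nonneg_left (mul_le_mul_of_nonneg_left l1 (by linarith)) (by linarith)
  have k3 : C' * (R * (1 + C₈)) ≤ 2 * r * (C' * (1 + C₈)) := by
    have e1 : 0 ≤ C' * (1 + C₈) := mul_nonneg hC' (by linarith)
    have e2 : C' * (R * (1 + C₈)) = R * (C' * (1 + C₈)) := by ring
    rw [e2]
    exact mul_le_mul_of_nonneg_right (by linarith) e1
  have k4 : C'' ≤ 2 * r * C'' := by
    nlinarith
  have k5 : A' * r = 2 * r * (A' / 2) := by ring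
  have hfin : 2 * r * S ≤ 2 * r * ((Real.pi * κ / 2 + δ) * Real.log R +
      (Real.pi * κ / 2 + 2 * δ + C' * (1 + C₈) + A' / 2 + C'')) := by
    have e : 2 * r * ((Real.pi * κ / 2 + δ) * Real.log R +
        (Real.pi * κ / 2 + 2 * δ + C' * (1 + C₈) + A' / 2 + C'')) =
        2 * r * (C' * (1 + C₈)) + (2 * r * (Real.pi * κ / 2 * (Real.log R + 1)) +
          2 * r * (A' / 2)) + 2 * r * (δ * (Real.log R + 2)) + 2 * r * C'' := by ring
    rw [e]
    linarith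
  exact le_of_mul_le_mul_left hfin (by linarith)

theorem tMan : S_Bas → S_Low → S_Evb → S_Apr → S_Scl → S_EvN → S_Out → S_Man := by
  intro hBas hLow hEvb hApr hScl hEvN hOut Φ C B κ hS hκ0 hκ
  classical
  obtain ⟨_, hPt, _, hmono, _⟩ := hBas Φ C B hS
  obtain ⟨C₀, hC0, hA1, hA2⟩ := hApr Φ C B hS
  obtain ⟨C', hC', hL⟩ := hLow Φ C B hS
  obtain ⟨C'', hC'', hE⟩ := hEvb Φ C B hS
  have hk2 : 0 ≤ Real.pi * κ / 2 := by
    have := mul_nonneg Real.pi_pos.le hκ0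
    linarith
  obtain ⟨δ, hδ0, hδ1, hδ⟩ := Man_del hk2 (by linarith : Real.pi * κ / 2 < 1)
  obtain ⟨C₈, r₁, hC8, hr1, hT⟩ := hScl C₀ δ hC0 hδ0 hδ1
  have hApos : 0 < 4 * C₈ / δ + 1 := by positivity
  have hA4 : 4 * C₈ ≤ δ * (4 * C₈ / δ + 1) := by
    have e : δ * (4 * C₈ / δ + 1) = 4 * C₈ + δ := by
      field_simp
    rw [e]
    linarith
  refine ⟨4 * C₈ / δ + 1, hApos, ?_⟩
  generalize 4 * C₈ / δ + 1 = A at hApos hA4
  intro D hD hLZ
  obtain ⟨A', hA', hEv⟩ := hEvN κ D hκ0 hD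
  have hl0 : 0 ≤ Real.log (2 + r₁) := Real.log_nonneg (by linarith)
  have hK1 : 0 ≤ Real.pi * κ / 2 + 2 * δ + C' * (1 + C₈) + A' / 2 + C'' := by positivity
  have hκ₁ : 0 ≤ (Real.pi * κ / 2 + δ) * (1 + δ) := by positivity
  refine ⟨(Real.pi * κ / 2 + δ) * (1 + δ),
    (Real.pi * κ / 2 + 2 * δ + C' * (1 + C₈) + A' / 2 + C'') + C₀ * Real.log (2 + r₁),
    hκ₁, hδ, add_nonneg hK1 (mul_nonneg hC0 hl0), ?_⟩
  intro R' t ht
  have hlt : 0 ≤ Real.log t := Real.log_nonneg ht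
  rcases lt_or_ge t r₁ with htr | htr
  · have e1 := hA1 R' t ht
    have e2 : Real.log (2 + t) ≤ Real.log (2 + r₁) := Real.log_le_log (by linarith) (by linarith)
    have e3 := mul_le_mul_of_nonneg_left e2 hC0
    have e4 := mul_nonneg hκ₁ hlt
    linarith
  · obtain ⟨T, hT1, hT2⟩ := hT t htr
    have hone : ∀ R ∈ T, (1 : ℝ) ≤ R := fun R hR => ht.trans (hT1 R hR).1
    -- a radius which is large enough for all `R ∈ T`
    have hev1 := (Filter.eventually_all_finset T).2 fun R hR =>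
      Filter.eventually_atTop.2 (hL R (hone R hR))
    have hev2 := (Filter.eventually_all_finset T).2 fun R hR =>
      Filter.eventually_atTop.2 (hE R (hone R hR))
    obtain ⟨M, hM1, hM2, hMR⟩ := (hev1.and (hev2.and (Filter.eventually_ge_atTop R'))).exists
    have hP := hPt M
    obtain ⟨R, hR, hV⟩ := hT2 (zer Φ M) (od Φ) hP (hA1 _) (hA2 _)
    have hR1 := hone R hR
    obtain ⟨r, hr, hr2, hne, hlow⟩ := hM1 R hR
    have hup := hM2 R hR r hr hr2 hne
    have hr1' : 1 ≤ r := hR1.trans hr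
    set Z := zer Φ M with hZ
    -- the splitting
    have hPi : Pt (inn Φ A M) (od Φ) :=
      ⟨fun ρ hρ => hP.re ρ (Finset.mem_filter.1 hρ).1, hP.nn⟩
    have hPo : Pt (Z.filter fun ρ => ¬ |ρ.re| ≤ A * ‖ρ‖ / Real.log (2 + ‖ρ‖)) (od Φ) :=
      ⟨fun ρ hρ => hP.re ρ (Finset.mem_filter.1 hρ).1, hP.nn⟩
    have hsplit : EZ Z (od Φ) r = EZ (inn Φ A M) (od Φ) r +
        EZ (Z.filter fun ρ => ¬ |ρ.re| ≤ A * ‖ρ‖ / Real.log (2 + ‖ρ‖)) (od Φ) r := by
      unfold EZ inn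
      rw [← hZ]
      exact (Finset.sum_filter_add_sum_filter_not Z _ _).symm
    have hin := hEv _ _ hPi (fun t ht => hLZ M t ht) r hr1'
    have hout := hOut _ (od Φ) A hPo hApos
      (fun ρ hρ => not_le.1 (Finset.mem_filter.1 hρ).2) R r hR1 hr hr2
    have hVo : VZ (Z.filter fun ρ => ¬ |ρ.re| ≤ A * ‖ρ‖ / Real.log (2 + ‖ρ‖)) (od Φ) R ≤ C₈ :=
      (Man_VZ hP.nn (Finset.filter_subset _ _) R).trans hV
    have hlr : 0 ≤ Real.log (2 + r) := Real.log_nonneg (by linarith)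
    have hcoef : 0 ≤ 8 / A * (r * Real.log (2 + r)) := by positivity
    have hout2 := hout.trans (mul_le_mul_of_nonneg_left hVo hcoef)
    have hC3 : C' * (R * (1 + VZ Z (od Φ) R)) ≤ C' * (R * (1 + C₈)) :=
      mul_le_mul_of_nonneg_left (mul_le_mul_of_nonneg_left (by linarith) (by linarith)) hC'
    have hmain := Man_div (S := SZ Z (od Φ) R) hR1 hr hr2 hκ0 hδ0.le hC8 hC' hC'' hApos hA4
      (A' := A') (by linarith)
    have hmon := hmono R' M t R hMR (hT1 R hR).1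
    have hlog : Real.log R ≤ (1 + δ) * Real.log t := by
      rw [← Real.log_rpow (by linarith)]
      exact Real.log_le_log (by linarith) (hT1 R hR).2
    have hlast := mul_le_mul_of_nonneg_left hlog
      (by linarith : 0 ≤ Real.pi * κ / 2 + δ)
    have hCl := mul_nonneg hC0 hl0
    have e : (Real.pi * κ / 2 + δ) * (1 + δ) * Real.log t =
        (Real.pi * κ / 2 + δ) * ((1 + δ) * Real.log t) := by ring
    rw [e]
    linarith

end MP7ed9c3.Vz
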