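import Pool.Agent.Lib.MP_7ed9c3_nt.Vz.Spec

/-!
# MP_7ed9c3_nt, part Vz: good scales
-/

set_option autoImplicit false

namespace MP7ed9c3.Vz

open Filter Topology MeasureTheory MP7ed9c3.Zr

theorem scl_s2 : (1.4142 : ℝ) < √2 ∧ √2 < 1.4143 := by
  constructor
  · rw [Real.lt_sqrt (by norm_num)]; norm_num
  · rw [Real.sqrt_lt' (by norm_num)]; norm_num

theorem scl_wt_nonneg (x : ℝ) : 0 ≤ wt x := Real.sqrt_nonneg _

theorem scl_wt_le (x : ℝ) : wt x ≤ √x := Real.sqrt_le_sqrt (min_le_left _ _)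

theorem scl_wt_le' (x : ℝ) : wt x ≤ (√x)⁻¹ := by
  rw [← Real.sqrt_inv]
  exact Real.sqrt_le_sqrt (min_le_right _ _)

/-- The sum over the scales, small argument. -/
theorem scl_small (J : ℕ) : ∀ u : ℝ, 0 < u →
    ∑ j ∈ Finset.range J, wt (u / 2 ^ j) ≤ 7 / 2 * √u := by
  induction J with
  | zero => intro u hu; simp
  | succ J ih =>
    intro u hu
    rw [Finset.sum_range_succ']
    have h1 : ∑ j ∈ Finset.range J, wt (u / 2 ^ (j + 1)) =
        ∑ j ∈ Finset.range J, wt ((u / 2) / 2 ^ j) := by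
      refine Finset.sum_congr rfl fun j _ => ?_
      congr 1
      field_simp
      ring
    rw [h1]
    have h2 := ih (u / 2) (by positivity)
    have h3 := scl_wt_le (u / 2 ^ 0)
    rw [pow_zero, div_one] at h3 ⊢
    rw [Real.sqrt_div hu.le] at h2
    have h4 := scl_s2
    have h5 : √u / √2 ≤ 5 / 7 * √u := by
      rw [div_le_iff₀ (by positivity)]
      nlinarith [Real.sqrt_nonneg u]
    nlinarith [Real.sqrt_nonneg u]

/-- The sum over the scales. -/
theorem scl_all (J : ℕ) : ∀ u : ℝ, 1 ≤ u →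
    ∑ j ∈ Finset.range J, wt (u / 2 ^ j) ≤ 6 - 5 / 2 * (√u)⁻¹ := by
  induction J with
  | zero =>
    intro u hu
    have h1 : 1 ≤ √u := Real.one_le_sqrt.mpr hu
    have h2 : (√u)⁻¹ ≤ 1 := inv_le_one_of_one_le₀ h1
    simp only [Finset.range_zero, Finset.sum_empty]
    linarith
  | succ J ih =>
    intro u hu
    have hs : 1 ≤ √u := Real.one_le_sqrt.mpr hu
    have hs0 : 0 < √u := by linarith
    rw [Finset.sum_range_succ']
    have h1 : ∑ j ∈ Finset.range J, wt (u / 2 ^ (j + 1)) =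
        ∑ j ∈ Finset.range J, wt ((u / 2) / 2 ^ j) := by
      refine Finset.sum_congr rfl fun j _ => ?_
      congr 1
      field_simp
      ring
    rw [h1]
    have h3 := scl_wt_le' (u / 2 ^ 0)
    rw [pow_zero, div_one] at h3 ⊢
    have h4 := scl_s2
    rcases le_or_gt 2 u with h | h
    · have h2 := ih (u / 2) (by linarith)
      have h5 : (√(u / 2))⁻¹ = √2 * (√u)⁻¹ := by
        rw [Real.sqrt_div (by linarith), inv_div, div_eq_mul_inv]
      rw [h5] at h2
      have h6 : 0 < (√u)⁻¹ := by positivity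
      nlinarith
    · have h2 := scl_small J (u / 2) (by linarith)
      rw [Real.sqrt_div (by linarith)] at h2
      have h5 : √u / √2 ≤ 0.7072 * √u := by
        rw [div_le_iff₀ (by positivity)]
        nlinarith
      have h6 : √u < 1.4143 := by
        have : √u < √2 := Real.sqrt_lt_sqrt (by linarith) h
        linarith
      have h7 : √u * (√u)⁻¹ = 1 := mul_inv_cancel₀ hs0.ne'
      have h8 : (√u)⁻¹ ≤ 1 := inv_le_one_of_one_le₀ hs
      -- (7/2) t + 2.4752 s <= 6, with s t = 1, 1 <= s <= 1.4143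
      have h9 : 7 / 2 * (√u)⁻¹ + 2.4752 * √u ≤ 6 := by
        have h10 : (√u - 1) * (1.4143 - √u) ≥ 0 := mul_nonneg (by linarith) (by linarith)
        have h11 : 7 / 2 + 2.4752 * (√u * √u) ≤ 6 * √u := by nlinarith
        have h12 := mul_le_mul_of_nonneg_right h11 (inv_nonneg.mpr hs0.le)
        have h13 : (7 / 2 + 2.4752 * (√u * √u)) * (√u)⁻¹ = 7 / 2 * (√u)⁻¹ + 2.4752 * √u := by
          field_simp
        have h14 : 6 * √u * (√u)⁻¹ = 6 := by field_simp
        linarith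
      linarith

theorem scl_seven (J : ℕ) (u : ℝ) (hu : 0 < u) :
    ∑ j ∈ Finset.range J, wt (u / 2 ^ j) ≤ 7 := by
  rcases le_or_gt 1 u with h | h
  · have h1 := scl_all J u h
    have h2 : 0 ≤ (√u)⁻¹ := by positivity
    linarith
  · have h1 := scl_small J u hu
    have h2 : √u ≤ 1 := Real.sqrt_le_one.mpr h.le
    linarith

/-- Far away. -/
theorem scl_far (J : ℕ) (u : ℝ) :
    ∑ j ∈ Finset.range J, wt (u / 2 ^ j) ≤ 3 * √(2 ^ J / u) := by
  have key : ∑ j ∈ Finset.range J, √(2 ^ j / u) ≤ 5 / 2 * √(2 ^ J / u) := by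
    induction J with
    | zero => simp
    | succ J ih =>
      rw [Finset.sum_range_succ]
      have h1 : √(2 ^ (J + 1) / u) = √2 * √(2 ^ J / u) := by
        rw [← Real.sqrt_mul (by norm_num)]
        congr 1
        ring
      rw [h1]
      have h4 := scl_s2
      nlinarith [Real.sqrt_nonneg (2 ^ J / u)]
  have h2 : ∑ j ∈ Finset.range J, wt (u / 2 ^ j) ≤ ∑ j ∈ Finset.range J, √(2 ^ j / u) := by
    refine Finset.sum_le_sum fun j _ => ?_
    refine Real.sqrt_le_sqrt ((min_le_right _ _).trans (le_of_eq ?_))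
    rw [inv_div]
  have h3 := Real.sqrt_nonneg (2 ^ J / u)
  linarith

/-- The sum of `VZ` over the scales. -/
theorem scl_sum (Z : Finset ℂ) (m : ℂ → ℝ) (hZ : Pt Z m) (r₀ : ℝ) (hr : 1 ≤ r₀) (J : ℕ) :
    ∑ j ∈ Finset.range J, VZ Z m (2 ^ j * r₀) ≤
      7 * SZ Z m (2 ^ J * r₀) + 3 * VZ Z m (2 ^ J * r₀) := by
  classical
  have hn : ∀ ρ ∈ Z, 1 ≤ ‖ρ‖ := fun ρ hρ => by
    have h1 := hZ.re ρ hρ
    have h2 := Complex.abs_re_le_norm ρ
    have h3 := neg_abs_le ρ.re
    linarith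
  have hb : ∀ ρ, 0 ≤ bb ρ := fun ρ => by unfold bb; positivity
  unfold VZ SZ
  rw [Finset.sum_comm, Finset.sum_filter, Finset.mul_sum, Finset.mul_sum,
    ← Finset.sum_add_distrib]
  refine Finset.sum_le_sum fun ρ hρ => ?_
  have hρ1 := hn ρ hρ
  have hu : 0 < ‖ρ‖ / r₀ := by positivity
  have e1 : ∑ j ∈ Finset.range J, m ρ * (bb ρ * wt (‖ρ‖ / (2 ^ j * r₀))) =
      m ρ * bb ρ * ∑ j ∈ Finset.range J, wt (‖ρ‖ / r₀ / 2 ^ j) := by
    rw [Finset.mul_sum]
    refine Finset.sum_congr rfl fun j _ => ?_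
    rw [mul_assoc, div_div, mul_comm r₀]
  rw [e1]
  have hmb : 0 ≤ m ρ * bb ρ := mul_nonneg (hZ.nn ρ) (hb ρ)
  by_cases h : ‖ρ‖ ≤ 2 ^ J * r₀
  · rw [if_pos h]
    have h1 := mul_le_mul_of_nonneg_left (scl_seven J _ hu) hmb
    have h2 : 0 ≤ m ρ * (bb ρ * wt (‖ρ‖ / (2 ^ J * r₀))) :=
      mul_nonneg (hZ.nn ρ) (mul_nonneg (hb ρ) (scl_wt_nonneg _))
    linarith
  · rw [if_neg h]
    push Not at h
    have h1 := mul_le_mul_of_nonneg_left (scl_far J (‖ρ‖ / r₀)) hmb
    have hP : 0 < 2 ^ J * r₀ := by positivity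
    have h2 : √(2 ^ J / (‖ρ‖ / r₀)) = wt (‖ρ‖ / (2 ^ J * r₀)) := by
      unfold wt
      have h3 : 1 ≤ ‖ρ‖ / (2 ^ J * r₀) := by
        rw [le_div_iff₀ hP]; linarith
      rw [min_eq_right ((inv_le_one_of_one_le₀ h3).trans h3)]
      congr 1
      field_simp
    rw [h2] at h1
    linarith

/-- **Scl.** -/
theorem tScl : S_Scl := by
  intro C δ hC hδ hδ1
  have hl2 : 0 < Real.log 2 := Real.log_pos (by norm_num)
  have hl2' : Real.log 2 < 0.6931471808 := Real.log_two_lt_d9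
  refine ⟨60 * C / δ, max 3 (Real.exp (2 / δ)), by positivity, by
    exact (by norm_num : (1 : ℝ) ≤ 3).trans (le_max_left _ _), ?_⟩
  intro r₀ hr₀
  have hr3 : 3 ≤ r₀ := (le_max_left _ _).trans hr₀
  have hr0 : 0 < r₀ := by linarith
  have hlog : 2 / δ ≤ Real.log r₀ := by
    rw [Real.le_log_iff_exp_le hr0]
    exact (le_max_right _ _).trans hr₀
  have hlog0 : 0 < Real.log r₀ := lt_of_lt_of_le (by positivity) hlog
  have hδl : 2 ≤ δ * Real.log r₀ := by
    have := mul_le_mul_of_nonneg_left hlog hδ.le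
    rwa [mul_div_cancel₀ _ hδ.ne'] at this
  set J : ℕ := ⌊δ * Real.log r₀ / Real.log 2⌋₊ with hJ
  have hJ1 : (J : ℝ) ≤ δ * Real.log r₀ / Real.log 2 := Nat.floor_le (by positivity)
  have hJ2 : δ * Real.log r₀ / Real.log 2 < J + 1 := Nat.lt_floor_add_one _
  have hJ3 : (J : ℝ) * Real.log 2 ≤ δ * Real.log r₀ := by
    rwa [le_div_iff₀ hl2] at hJ1
  have hJ4 : δ * Real.log r₀ / 2 ≤ J := by
    have h1 : δ * Real.log r₀ < (J + 1) * Real.log 2 := by
      rwa [div_lt_iff₀ hl2] at hJ2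
    have h2 : ((J : ℝ) + 1) * Real.log 2 ≤ (J + 1) * 1 :=
      mul_le_mul_of_nonneg_left (by linarith) (by positivity)
    linarith
  have hJ0 : (0 : ℝ) < J := by linarith
  have hpow : ∀ j : ℕ, j ≤ J → (2 : ℝ) ^ j * r₀ ≤ r₀ ^ (1 + δ) := by
    intro j hj
    have h1 : (2 : ℝ) ^ j ≤ 2 ^ J := pow_le_pow_right₀ (by norm_num) hj
    have h2 : (2 : ℝ) ^ J ≤ r₀ ^ δ := by
      rw [← Real.log_le_log_iff (by positivity) (by positivity), Real.log_pow,
        Real.log_rpow hr0]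
      exact hJ3
    calc (2 : ℝ) ^ j * r₀ ≤ r₀ ^ δ * r₀ := mul_le_mul_of_nonneg_right (h1.trans h2) hr0.le
      _ = r₀ ^ (1 + δ) := by rw [add_comm, Real.rpow_add hr0, Real.rpow_one]
  refine ⟨(Finset.range J).image fun j => (2 : ℝ) ^ j * r₀, ?_, ?_⟩
  · intro R hR
    rw [Finset.mem_image] at hR
    obtain ⟨j, hj, rfl⟩ := hR
    rw [Finset.mem_range] at hj
    refine ⟨?_, hpow j hj.le⟩
    have : (1 : ℝ) ≤ 2 ^ j := one_le_pow₀ (by norm_num)
    nlinarith
  · intro Z m hZ hS hV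
    by_contra hcon
    push Not at hcon
    have h1 : (J : ℝ) * (60 * C / δ) < ∑ j ∈ Finset.range J, VZ Z m (2 ^ j * r₀) := by
      have h2 : ∑ j ∈ Finset.range J, (60 * C / δ) < ∑ j ∈ Finset.range J, VZ Z m (2 ^ j * r₀) := by
        refine Finset.sum_lt_sum_of_nonempty ?_ fun j hj => ?_
        · rw [Finset.nonempty_range_iff]
          intro h
          rw [h] at hJ0
          simp at hJ0
        · exact hcon _ (Finset.mem_image_of_mem _ hj)
      rwa [Finset.sum_const, Finset.card_range, nsmul_eq_mul] at h2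
    set P : ℝ := 2 ^ J * r₀ with hP
    have hP1 : 1 ≤ P := by
      have : (1 : ℝ) ≤ 2 ^ J := one_le_pow₀ (by norm_num)
      nlinarith
    have h3 := scl_sum Z m hZ r₀ (by linarith) J
    have h4 := hS P hP1
    have h5 := hV P hP1
    have h6 : Real.log (2 + P) ≤ 3 * Real.log r₀ := by
      have h8 : P ≤ r₀ ^ (2 : ℕ) := by
        have h8 : P ≤ r₀ ^ (2 : ℝ) := (hpow J le_rfl).trans
          (Real.rpow_le_rpow_of_exponent_le (by linarith) (by linarith))
        rwa [Real.rpow_two] at h8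
      have h7 : 2 + P ≤ r₀ ^ (3 : ℕ) := by
        have h9 : r₀ ^ (3 : ℕ) = r₀ ^ (2 : ℕ) * r₀ := by ring
        have h10 : 1 ≤ r₀ ^ (2 : ℕ) := one_le_pow₀ (by linarith)
        have h11 : r₀ ^ (2 : ℕ) * 3 ≤ r₀ ^ (2 : ℕ) * r₀ :=
          mul_le_mul_of_nonneg_left hr3 (by linarith)
        rw [h9]
        linarith
      calc Real.log (2 + P) ≤ Real.log (r₀ ^ (3 : ℕ)) := Real.log_le_log (by linarith) h7
        _ = 3 * Real.log r₀ := by rw [Real.log_pow]; norm_num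
    have h7 : C * Real.log (2 + P) ≤ 3 * C * Real.log r₀ := by nlinarith
    have h8 : δ * Real.log r₀ / 2 * (60 * C / δ) ≤ J * (60 * C / δ) :=
      mul_le_mul_of_nonneg_right hJ4 (by positivity)
    have h9 : δ * Real.log r₀ / 2 * (60 * C / δ) = 30 * C * Real.log r₀ := by
      field_simp
      ring
    linarith

end MP7ed9c3.Vz
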