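import Pool.Agent.Lib.MP_7ed9c3_nt.Vz.Spec

/-!
# MP_7ed9c3_nt, part Vz: Shf, moving the centre
-/

set_option autoImplicit false

namespace MP7ed9c3.Vz

open NumberField IsDedekindDomain Filter Topology MeasureTheory MP7ed9c3.Zr

theorem Shf_sum_le (f : ℂ → ℝ) (S : Set ℂ) (hfin : (S ∩ Function.support f).Finite)
    (hf : ∀ x ∈ S, 0 ≤ f x) (T : Finset ℂ) (hT : ∀ x ∈ T, x ∈ S) :
    ∑ x ∈ T, f x ≤ ∑ᶠ x ∈ S, f x := by
  classical
  rw [finsum_mem_eq_sum f hfin, ← Finset.sum_filter_ne_zero]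
  apply Finset.sum_le_sum_of_subset_of_nonneg
  · intro x hx
    rw [Finset.mem_filter] at hx
    rw [Set.Finite.mem_toFinset]
    exact ⟨hT x hx.1, hx.2⟩
  · intro x hx _
    rw [Set.Finite.mem_toFinset] at hx
    exact hf x hx.1

theorem Shf_log {u t : ℝ} (hu : 0 ≤ u) (hut : u ≤ t) (_ht : 1 ≤ t) : 0 ≤ Real.log (t / u) := by
  rcases hu.eq_or_lt with h | h
  · rw [← h]; simp
  · apply Real.log_nonneg
    rw [le_div_iff₀ h]; linarith

theorem Shf_grow {x y : ℝ} (hx : 0 ≤ x) (hy : 0 ≤ y) (hxy : y ≤ 3 + x) :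
    (1 + y) * Real.log (2 + y) ≤ 12 * ((1 + x) * Real.log (2 + x)) := by
  have h1 : Real.log (2 + y) ≤ 3 * Real.log (2 + x) := by
    have h2 : (3 : ℝ) * Real.log (2 + x) = Real.log ((2 + x) ^ 3) := by
      rw [Real.log_pow]; norm_num
    rw [h2]
    apply Real.log_le_log (by linarith)
    have : 2 + y ≤ 5 + x := by linarith
    nlinarith [mul_nonneg hx hx, mul_nonneg (mul_nonneg hx hx) hx]
  have h3 : 0 ≤ Real.log (2 + y) := Real.log_nonneg (by linarith)
  have h4 : 0 ≤ Real.log (2 + x) := Real.log_nonneg (by linarith)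
  calc (1 + y) * Real.log (2 + y) ≤ (4 * (1 + x)) * (3 * Real.log (2 + x)) := by
        apply mul_le_mul (by linarith) h1 h3 (by linarith)
    _ = _ := by ring

theorem tShf : S_Shf := by
  intro F C B hF hgr hB hB2 hne
  have hF3 : F 3 ≠ 0 := hne 3 (by norm_num)
  have hF3n : 0 < ‖F 3‖ := norm_pos_iff.mpr hF3
  obtain ⟨hlo, hhi⟩ := hB2 3 (by norm_num)
  have hB1 : 1 ≤ B := by
    by_contra h
    push Not at h
    have : 1 < B⁻¹ := (one_lt_inv₀ hB).mpr h
    linarith
  have hlogB : 0 ≤ Real.log B := Real.log_nonneg hB1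
  set Φ : ℂ → ℂ := fun z => F (3 + z) / F 3 with hΦ
  have hΦd : Differentiable ℂ Φ := by
    apply Differentiable.div_const
    exact hF.comp (by fun_prop)
  have hΦ0 : Φ 0 = 1 := by rw [hΦ]; simp [hF3]
  have hΦz : ∀ z, Φ z = 0 ↔ F (3 + z) = 0 := by
    intro z
    rw [hΦ]
    simp [hF3]
  have hre : ∀ ρ : ℂ, Φ ρ = 0 → ρ.re ≤ -1 := by
    intro ρ hρ
    rw [hΦz] at hρ
    by_contra h
    push Not at h
    apply hne (3 + ρ) _ hρ
    simp only [Complex.add_re, Complex.re_ofNat]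
    linarith
  have hordΦ : ∀ z, analyticOrderNatAt Φ z = analyticOrderNatAt F (3 + z) := by
    intro z
    have h1 : Φ = (fun _ => (F 3)⁻¹) * (F ∘ fun z => 3 + z) := by
      ext w
      simp only [hΦ, Pi.mul_apply, Function.comp_apply]
      rw [div_eq_inv_mul]
    have h2 : analyticOrderAt Φ z = analyticOrderAt F (3 + z) := by
      rw [h1, analyticOrderAt_mul (by fun_prop)
        ((hF.comp (by fun_prop : Differentiable ℂ (fun z : ℂ => 3 + z))).analyticAt z)]
      have h3 : analyticOrderAt (fun _ : ℂ => (F 3)⁻¹) z = 0 :=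
        analyticOrderAt_eq_zero.2 (Or.inr (inv_ne_zero hF3))
      rw [h3, zero_add]
      exact analyticOrderAt_comp_of_deriv_ne_zero (by fun_prop) (by simp)
    rw [analyticOrderNatAt, analyticOrderNatAt, h2]
  have hsupp : ∀ ρ : ℂ, analyticOrderNatAt F ρ ≠ 0 → F ρ = 0 := fun ρ h =>
    apply_eq_zero_of_analyticOrderNatAt_ne_zero h
  have hFfin : ∀ T : ℝ, {ρ : ℂ | ‖ρ‖ < T ∧ F ρ = 0}.Finite := fun T => factor_finite hF hF3 T
  have hzer : ∀ R : ℝ, ∀ ρ ∈ zer Φ R, Φ ρ = 0 := by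
    intro R ρ hρ
    rw [zer] at hρ
    split_ifs at hρ with hfin
    · rw [Set.Finite.mem_toFinset] at hρ
      exact hρ.2
    · simp at hρ
  have hinn : ∀ A R : ℝ, ∀ ρ ∈ inn Φ A R, ρ.re ≤ -1 ∧ 0 < ‖ρ‖ ∧
      -ρ.re ≤ A * ‖ρ‖ / Real.log (2 + ‖ρ‖) := by
    intro A R ρ hρ
    rw [inn, Finset.mem_filter] at hρ
    have h1 := hre ρ (hzer R ρ hρ.1)
    refine ⟨h1, ?_, ?_⟩
    · rw [norm_pos_iff]
      rintro rfl
      simp only [Complex.zero_re] at h1
      linarith
    · have h2 := hρ.2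
      rwa [abs_of_nonpos (by linarith)] at h2
  have hnz : ∀ z, ‖Φ z‖ = ‖F (3 + z)‖ / ‖F 3‖ := by
    intro z; rw [hΦ]; simp only [norm_div]
  have hdivle : ∀ z, ‖F (3 + z)‖ / ‖F 3‖ ≤ ‖F (3 + z)‖ * B := by
    intro z
    rw [div_eq_mul_inv]
    apply mul_le_mul_of_nonneg_left _ (norm_nonneg _)
    rw [inv_le_comm₀ hF3n hB]; exact hlo
  have h3r : ∀ r : ℝ, 0 ≤ r → 2 ≤ ((3 : ℂ) + (r : ℂ)).re := by
    intro r hr
    simp only [Complex.add_re, Complex.re_ofNat, Complex.ofReal_re]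
    linarith
  refine ⟨Φ, 12 * |C| + 2 * Real.log B, (B * B)⁻¹, B * B, ‖F 3‖, ?_, ?_, hF3n, ?_, ?_, ?_⟩
  · refine ⟨hΦd, hΦ0, by positivity, ?_, by positivity, hre, ?_⟩
    · intro z
      have h3 := hgr (3 + z)
      have hg := Shf_grow (norm_nonneg z) (norm_nonneg (3 + z)) (by
        have := norm_add_le (3 : ℂ) z
        rwa [Complex.norm_ofNat] at this)
      set Q : ℝ := (1 + ‖z‖) * Real.log (2 + ‖z‖) with hQ
      have hQ2 : 1 / 2 ≤ Q := by
        have h5 : 1 / 2 ≤ Real.log (2 + ‖z‖) := by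
          have h6 : Real.log 2 ≤ Real.log (2 + ‖z‖) :=
            Real.log_le_log (by norm_num) (by linarith [norm_nonneg z])
          have := Real.log_two_gt_d9
          linarith
        rw [hQ]
        nlinarith [norm_nonneg z]
      have hP : 0 ≤ (1 + ‖3 + z‖) * Real.log (2 + ‖3 + z‖) :=
        mul_nonneg (by linarith [norm_nonneg (3 + z)])
          (Real.log_nonneg (by linarith [norm_nonneg (3 + z)]))
      have h4 : C * ((1 + ‖3 + z‖) * Real.log (2 + ‖3 + z‖)) ≤ 12 * |C| * Q := by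
        calc C * ((1 + ‖3 + z‖) * Real.log (2 + ‖3 + z‖))
            ≤ |C| * ((1 + ‖3 + z‖) * Real.log (2 + ‖3 + z‖)) :=
              mul_le_mul_of_nonneg_right (le_abs_self C) hP
          _ ≤ |C| * (12 * Q) := mul_le_mul_of_nonneg_left hg (abs_nonneg _)
          _ = _ := by ring
      rw [hnz]
      calc ‖F (3 + z)‖ / ‖F 3‖ ≤ ‖F (3 + z)‖ * B := hdivle z
        _ ≤ Real.exp (12 * |C| * Q) * Real.exp (Real.log B) := by
            rw [Real.exp_log hB]
            apply mul_le_mul_of_nonneg_right _ hB.le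
            exact h3.trans (Real.exp_le_exp.mpr h4)
        _ = Real.exp (12 * |C| * Q + Real.log B) := (Real.exp_add _ _).symm
        _ ≤ Real.exp ((12 * |C| + 2 * Real.log B) * Q) := by
            apply Real.exp_le_exp.mpr
            nlinarith
    · intro r hr
      rw [hnz]
      have h1 := (hB2 _ (h3r r hr)).1
      rw [mul_inv, div_eq_mul_inv]
      apply mul_le_mul h1 _ (by positivity) (norm_nonneg _)
      exact (inv_le_inv₀ hB hF3n).mpr hhi
  · intro r hr
    rw [hnz]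
    have h1 := (hB2 _ (h3r r hr)).2
    exact (hdivle r).trans (mul_le_mul_of_nonneg_right h1 hB.le)
  · intro z
    rw [hnz]
    field_simp
  · intro A R t t' ht htt
    unfold LZ
    calc ∑ ρ ∈ inn Φ A R with ‖ρ‖ ≤ t, od Φ ρ * Real.log (t / ‖ρ‖)
        ≤ ∑ ρ ∈ inn Φ A R with ‖ρ‖ ≤ t, od Φ ρ * Real.log (t' / ‖ρ‖) := by
          apply Finset.sum_le_sum
          intro ρ hρ
          rw [Finset.mem_filter] at hρ
          obtain ⟨_, h2, _⟩ := hinn A R ρ hρ.1
          apply mul_le_mul_of_nonneg_left _ (by unfold od; positivity)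
          apply Real.log_le_log (by positivity)
          exact div_le_div_of_nonneg_right htt h2.le
      _ ≤ ∑ ρ ∈ inn Φ A R with ‖ρ‖ ≤ t', od Φ ρ * Real.log (t' / ‖ρ‖) := by
          apply Finset.sum_le_sum_of_subset_of_nonneg
          · intro ρ hρ
            rw [Finset.mem_filter] at hρ ⊢
            exact ⟨hρ.1, hρ.2.trans htt⟩
          · intro ρ hρ _
            rw [Finset.mem_filter] at hρ
            exact mul_nonneg (by unfold od; positivity)
              (Shf_log (norm_nonneg _) hρ.2 (ht.trans htt))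
  · intro A R t ht
    classical
    unfold LZ
    have h2 : ∑ ρ ∈ inn Φ A R with ‖ρ‖ ≤ t, od Φ ρ * Real.log (t / ‖ρ‖) =
        ∑ s ∈ ((inn Φ A R).filter (fun ρ => ‖ρ‖ ≤ t)).image (fun ρ => 3 + ρ),
          (analyticOrderNatAt F s : ℝ) * Real.log (t / ‖s - 3‖) := by
      rw [Finset.sum_image (fun x _ y _ h => add_left_cancel h)]
      apply Finset.sum_congr rfl
      intro ρ _
      have h4 : (3 : ℂ) + ρ - 3 = ρ := by ring
      rw [od, hordΦ, h4]
    rw [h2]
    apply Shf_sum_le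
    · apply (hFfin (t + 4)).subset
      intro ρ hρ
      obtain ⟨h3, h4⟩ := hρ
      rw [Function.mem_support] at h4
      refine ⟨?_, ?_⟩
      · have h5 := h3.1
        have h6 : ‖ρ‖ ≤ ‖ρ - 3‖ + ‖(3 : ℂ)‖ := by
          have := norm_add_le (ρ - 3) 3
          rwa [sub_add_cancel] at this
        rw [Complex.norm_ofNat] at h6
        linarith
      · apply hsupp
        intro h5
        rw [h5] at h4
        simp at h4
    · intro x hx
      exact mul_nonneg (by positivity) (Shf_log (norm_nonneg _) hx.1 ht)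
    · intro s hs
      rw [Finset.mem_image] at hs
      obtain ⟨ρ, hρ, rfl⟩ := hs
      rw [Finset.mem_filter] at hρ
      obtain ⟨h3, h4, h5⟩ := hinn A R ρ hρ.1
      have h6 : (3 : ℂ) + ρ - 3 = ρ := by ring
      have h7 : (3 : ℝ) - (3 + ρ : ℂ).re = -ρ.re := by simp
      simp only [Set.mem_ofPred_eq]
      rw [h6, h7]
      exact ⟨hρ.2, h5⟩

end MP7ed9c3.Vz
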