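import Pool.Agent.Lib.MP_7ed9c3_nt.Vz.Bas
import Pool.Agent.Lib.MP_7ed9c3_nt.Vz.Cnt
import Pool.Agent.Lib.MP_7ed9c3_nt.Vz.Bnd
import Pool.Agent.Lib.MP_7ed9c3_nt.Vz.Avg
import Pool.Agent.Lib.MP_7ed9c3_nt.Vz.Low
import Pool.Agent.Lib.MP_7ed9c3_nt.Vz.Evb
import Pool.Agent.Lib.MP_7ed9c3_nt.Vz.Apr
import Pool.Agent.Lib.MP_7ed9c3_nt.Vz.Scl
import Pool.Agent.Lib.MP_7ed9c3_nt.Vz.EvN
import Pool.Agent.Lib.MP_7ed9c3_nt.Vz.Out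
import Pool.Agent.Lib.MP_7ed9c3_nt.Vz.Man
import Pool.Agent.Lib.MP_7ed9c3_nt.Vz.Shf
import Pool.Agent.Lib.MP_7ed9c3_nt.Vz.Fin
import Pool.Agent.Lib.MP_7ed9c3_nt.Vz.Fin2

/-!
# MP_7ed9c3_nt: assembly of part Vz
-/

namespace MP7ed9c3.Vz

theorem vzAll : S_VZ :=
  tVZ tBas (tMan tBas (tLow tBas tAvg) (tEvb tBas)
    (tApr tBas tCnt tBnd (tLow tBas tAvg)) tScl tEvN tOut) tShf

theorem vz2All : S_VZ2 := fin2 vzAll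

end MP7ed9c3.Vz
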