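import Pool.Agent.Lib.MP_7ed9c3_nt.Vz.Spec

/-!
# MP_7ed9c3_nt, part Vz: basic facts
-/

set_option autoImplicit false

namespace MP7ed9c3.Vz

open NumberField IsDedekindDomain Filter Topology MeasureTheory MP7ed9c3.Zr

/-- `(1+x) log(2+x) ≤ 3 (1+x)^(3/2)`. -/
theorem Bas_log (x : ℝ) (hx : 0 ≤ x) :
    (1 + x) * Real.log (2 + x) ≤ 3 * (1 + x) ^ (3 / 2 : ℝ) := by
  have h1 : Real.log (2 + x) ≤ 3 * √(1 + x) := by
    have h2 : (0 : ℝ) < √(2 + x) := Real.sqrt_pos.2 (by linarith)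
    have h3 : Real.log (2 + x) = 2 * Real.log √(2 + x) := by
      rw [Real.log_sqrt (by linarith)]
      ring
    have h4 := Real.log_le_sub_one_of_pos h2
    have h5 : 2 * √(2 + x) ≤ 3 * √(1 + x) := by
      have h6 : (2 * √(2 + x)) ^ 2 ≤ (3 * √(1 + x)) ^ 2 := by
        rw [mul_pow, mul_pow, Real.sq_sqrt (by linarith), Real.sq_sqrt (by linarith)]
        linarith
      exact (sq_le_sq₀ (by positivity) (by positivity)).1 h6
    linarith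
  have h2 : (1 + x) ^ (3 / 2 : ℝ) = (1 + x) * √(1 + x) := by
    rw [Real.sqrt_eq_rpow, show (3 / 2 : ℝ) = 1 + 1 / 2 by norm_num,
      Real.rpow_add (by linarith), Real.rpow_one]
  rw [h2]
  have h3 := mul_le_mul_of_nonneg_left h1 (by linarith : (0 : ℝ) ≤ 1 + x)
  linarith

/-- The growth hypothesis gives the order `3/2`. -/
theorem Bas_ord {Φ : ℂ → ℂ} {C : ℝ} (hC : 0 ≤ C) (hg : Grw Φ C) : Ord Φ (3 * C) (3 / 2) := by
  intro s
  refine (hg s).trans (Real.exp_le_exp.2 ?_)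
  have h := mul_le_mul_of_nonneg_left (Bas_log ‖s‖ (norm_nonneg s)) hC
  linarith

/-- The points of `zer Φ R`. -/
theorem Bas_mem {Φ : ℂ → ℂ} (hΦ : Differentiable ℂ Φ) (h1 : Φ 0 = 1) (R : ℝ) (ρ : ℂ) :
    ρ ∈ zer Φ R ↔ ‖ρ‖ < R ∧ Φ ρ = 0 := by
  have hf : {ρ : ℂ | ‖ρ‖ < R ∧ Φ ρ = 0}.Finite := (factor Φ hΦ h1 R).1
  unfold zer
  rw [dif_pos hf, Set.Finite.mem_toFinset]
  exact Iff.rfl

/-- `bb` is nonnegative. -/
theorem Bas_bb (ρ : ℂ) : 0 ≤ bb ρ := div_nonneg (abs_nonneg _) (by positivity)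

/-- The orders are nonnegative. -/
theorem Bas_od (Φ : ℂ → ℂ) (ρ : ℂ) : 0 ≤ od Φ ρ := Nat.cast_nonneg _

/-- Basic facts. -/
theorem tBas : S_Bas := by
  intro Φ C B h
  have hsub : ∀ R R' : ℝ, R ≤ R' → zer Φ R ⊆ zer Φ R' := by
    intro R R' hR ρ hρ
    rw [Bas_mem h.df h.one] at hρ ⊢
    exact ⟨hρ.1.trans_le hR, hρ.2⟩
  refine ⟨Bas_ord h.cc h.gr, fun R => ⟨fun ρ hρ => ?_, Bas_od Φ⟩, hsub, ?_, fun R t => rfl⟩
  · rw [Bas_mem h.df h.one] at hρ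
    exact h.ze ρ hρ.2
  · intro R R' t t' hR ht
    unfold SZ
    refine Finset.sum_le_sum_of_subset_of_nonneg ?_
      fun ρ _ _ => mul_nonneg (Bas_od Φ ρ) (Bas_bb ρ)
    intro ρ hρ
    rw [Finset.mem_filter] at hρ ⊢
    exact ⟨hsub R R' hR hρ.1, hρ.2.trans ht⟩

end MP7ed9c3.Vz
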