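import Pool.Agent.Lib.MP_7ed9c3_nt.Vz.Spec

/-!
# MP_7ed9c3_nt, part Vz, module Out: zeros off the vertical direction
-/

set_option autoImplicit false

namespace MP7ed9c3.Vz

open NumberField IsDedekindDomain Filter Topology MeasureTheory MP7ed9c3.Zr

private lemma Out_log4 (t : ℝ) (ht : 0 ≤ t) : Real.log (1 + t ^ 4) ≤ 4 * t := by
  have h1 : 1 + t ^ 4 ≤ (1 + t) ^ 4 := by
    have h : (1 + t) ^ 4 = 1 + t ^ 4 + (4 * t + 6 * t ^ 2 + 4 * t ^ 3) := by ring
    rw [h]
    have h0 : 0 ≤ 4 * t + 6 * t ^ 2 + 4 * t ^ 3 := by positivity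
    linarith
  have h2 : Real.log (1 + t ^ 4) ≤ Real.log ((1 + t) ^ 4) :=
    Real.log_le_log (by positivity) h1
  have h3 : Real.log ((1 + t) ^ 4) = 4 * Real.log (1 + t) := by
    rw [Real.log_pow]
    norm_num
  have h4 : Real.log (1 + t) ≤ t := by
    have := Real.log_le_sub_one_of_pos (by linarith : (0 : ℝ) < 1 + t)
    linarith
  linarith

private lemma Out_pt (x R r A b : ℝ) (hx : 1 ≤ x) (hR : 1 ≤ R) (hRr : R ≤ r) (hr : r ≤ 2 * R)
    (hA : 0 < A) (hb0 : 0 ≤ b) (hb : A ≤ b * x * Real.log (2 + x)) :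
    Real.log (1 + r ^ 2 / x ^ 2) ≤ 8 / A * (r * Real.log (2 + r)) * (b * wt (x / R)) := by
  have hr1 : 1 ≤ r := hR.trans hRr
  have hx0 : 0 < x := by linarith
  have hr0 : 0 < r := by linarith
  have hR0 : 0 < R := by linarith
  have hL : 1 ≤ Real.log (2 + r) := by
    rw [Real.le_log_iff_exp_le (by linarith)]
    linarith [Real.exp_one_lt_d9]
  obtain ⟨L, hLd⟩ : ∃ L, L = Real.log (2 + r) := ⟨_, rfl⟩
  rw [← hLd] at hL ⊢
  have hL0 : 0 < L := by linarith
  obtain ⟨s, hs0, hs2⟩ : ∃ s : ℝ, 0 < s ∧ s ^ 2 = x / r :=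
    ⟨√(x / r), Real.sqrt_pos.mpr (by positivity), Real.sq_sqrt (by positivity)⟩
  have hxs : x = r * s ^ 2 := by
    rw [hs2]
    field_simp
  have hy : r ^ 2 / x ^ 2 = (1 / s) ^ 4 := by
    rw [hxs]
    field_simp
  rw [hy]
  have hw0 : 0 ≤ wt (x / R) := Real.sqrt_nonneg _
  rcases le_or_gt x r with h | h
  · have hw : s / 2 ≤ wt (x / R) := by
      unfold wt
      apply Real.le_sqrt_of_sq_le
      have h0 : (s / 2) ^ 2 = x / r / 4 := by
        rw [div_pow, hs2]
        norm_num
      rw [h0, le_min_iff, inv_div]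
      constructor
      · have h1 : x / r ≤ x / R := div_le_div_of_nonneg_left hx0.le hR0 hRr
        have h2 : 0 ≤ x / r := by positivity
        linarith
      · rw [div_div, div_le_div_iff₀ (by positivity) hx0]
        have h3 : x * x ≤ r * (2 * R) := mul_le_mul h (h.trans hr) hx0.le hr0.le
        have h4 : 0 < r * R := by positivity
        nlinarith
    have hlog : Real.log (2 + x) ≤ L := by
      rw [hLd]
      exact Real.log_le_log (by linarith) (by linarith)
    have hA2 : A ≤ b * (r * s ^ 2) * L := by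
      rw [← hxs]
      exact hb.trans (mul_le_mul_of_nonneg_left hlog (by positivity))
    have h1 : 4 * (1 / s) = 4 / (s * A) * A := by field_simp
    have h2 : 4 / (s * A) * A ≤ 4 / (s * A) * (b * (r * s ^ 2) * L) :=
      mul_le_mul_of_nonneg_left hA2 (by positivity)
    have h3 : 4 / (s * A) * (b * (r * s ^ 2) * L) = 8 / A * (r * L) * (b * (s / 2)) := by
      field_simp
      ring
    have h4 : 8 / A * (r * L) * (b * (s / 2)) ≤ 8 / A * (r * L) * (b * wt (x / R)) := by
      gcongr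
    have h5 := Out_log4 (1 / s) (by positivity)
    linarith
  · have hs1 : 1 ≤ s := by
      have h1 : 1 ≤ s ^ 2 := by
        rw [hs2, le_div_iff₀ hr0]
        linarith
      nlinarith
    have hw : 1 / s / 2 ≤ wt (x / R) := by
      unfold wt
      apply Real.le_sqrt_of_sq_le
      have h0 : (1 / s / 2) ^ 2 = r / x / 4 := by
        rw [div_pow, div_pow, hs2]
        field_simp
        norm_num
      rw [h0, le_min_iff, inv_div]
      constructor
      · rw [div_div, div_le_div_iff₀ (by positivity) hR0]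
        nlinarith [mul_le_mul h.le (hRr.trans h.le) hR0.le hx0.le, mul_pos hx0 hx0]
      · have h1 : r / x ≤ 2 * R / x := div_le_div_of_nonneg_right hr hx0.le
        have h2 : 0 ≤ R / x := by positivity
        have h3 : 2 * R / x = 2 * (R / x) := by ring
        linarith
    have hlog : Real.log (2 + x) ≤ 2 * L * s := by
      have h1 : 2 + x ≤ (2 + r) * s ^ 2 := by
        rw [add_mul, ← hxs]
        nlinarith
      have h2 : Real.log (2 + x) ≤ Real.log ((2 + r) * s ^ 2) :=
        Real.log_le_log (by linarith) h1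
      have h3 : Real.log ((2 + r) * s ^ 2) = L + 2 * Real.log s := by
        rw [Real.log_mul (by positivity) (by positivity), Real.log_pow, hLd]
        norm_num
      have h4 : Real.log s ≤ s - 1 := Real.log_le_sub_one_of_pos hs0
      nlinarith
    have hA2 : A ≤ b * (r * s ^ 2) * (2 * L * s) := by
      rw [← hxs]
      exact hb.trans (mul_le_mul_of_nonneg_left hlog (by positivity))
    have h1 : (1 / s) ^ 4 = (1 / s) ^ 4 / A * A := by field_simp
    have h2 : (1 / s) ^ 4 / A * A ≤ (1 / s) ^ 4 / A * (b * (r * s ^ 2) * (2 * L * s)) :=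
      mul_le_mul_of_nonneg_left hA2 (by positivity)
    have h3 : (1 / s) ^ 4 / A * (b * (r * s ^ 2) * (2 * L * s)) =
        4 / A * (r * L) * (b * (1 / s / 2)) := by
      field_simp
      ring
    have h4 : 4 / A * (r * L) * (b * (1 / s / 2)) ≤ 8 / A * (r * L) * (b * wt (x / R)) := by
      have h5 : 4 / A ≤ 8 / A := div_le_div_of_nonneg_right (by norm_num) hA.le
      have h6 : 0 ≤ 4 / A := by positivity
      have h7 : 4 / A * (r * L) ≤ 8 / A * (r * L) := mul_le_mul_of_nonneg_right h5 (by positivity)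
      exact mul_le_mul h7 (mul_le_mul_of_nonneg_left hw hb0) (by positivity) (by positivity)
    have h5 : Real.log (1 + (1 / s) ^ 4) ≤ (1 / s) ^ 4 := by
      have := Real.log_le_sub_one_of_pos (by positivity : (0 : ℝ) < 1 + (1 / s) ^ 4)
      linarith
    linarith

/-- **Out.** -/
theorem tOut : S_Out := by
  intro Z m A hPt hA hZ R r hR hRr hr
  unfold EZ VZ
  rw [Finset.mul_sum]
  refine Finset.sum_le_sum fun ρ hρ => ?_
  have hre := hPt.re ρ hρ
  have hx : 1 ≤ ‖ρ‖ := by
    have h1 := Complex.abs_re_le_norm ρ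
    have h2 : 1 ≤ |ρ.re| := by
      rw [abs_of_neg (by linarith)]
      linarith
    linarith
  have hx0 : 0 < ‖ρ‖ := by linarith
  have hlx : 0 < Real.log (2 + ‖ρ‖) := Real.log_pos (by linarith)
  have hb0 : 0 ≤ bb ρ := by
    unfold bb
    positivity
  have hb : A ≤ bb ρ * ‖ρ‖ * Real.log (2 + ‖ρ‖) := by
    have h1 := hZ ρ hρ
    rw [div_lt_iff₀ hlx] at h1
    have h2 : bb ρ * ‖ρ‖ * Real.log (2 + ‖ρ‖) = |ρ.re| * Real.log (2 + ‖ρ‖) / ‖ρ‖ := by
      unfold bb
      field_simp
    rw [h2, le_div_iff₀ hx0]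
    exact h1.le
  have h := Out_pt ‖ρ‖ R r A (bb ρ) hx hR hRr hr hA hb0 hb
  calc m ρ * Real.log (1 + r ^ 2 / ‖ρ‖ ^ 2)
      ≤ m ρ * (8 / A * (r * Real.log (2 + r)) * (bb ρ * wt (‖ρ‖ / R))) :=
        mul_le_mul_of_nonneg_left h (hPt.nn ρ)
    _ = 8 / A * (r * Real.log (2 + r)) * (m ρ * (bb ρ * wt (‖ρ‖ / R))) := by ring

end MP7ed9c3.Vz
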