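import Pool.Agent.Lib.MP_7ed9c3_nt.Zr.All

/-!
# MP_7ed9c3_nt, part Vz: vertical zeros of an entire continuation (statements)

Let `F` be an entire function with `log |F s| ≤ C (1+|s|) log(2+|s|)` which agrees with the Euler product
of an elliptic curve over a number field for `Re s > 3/2`.  VZ: for every `κ < 2/π` there is `A` such
that `∑ log(r/|ρ-3|)` over the zeros `ρ`, `|ρ-3| ≤ r`, with `3 - Re ρ ≤ A |ρ-3|/log(2+|ρ-3|)` is larger than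
`κ r log r` for arbitrarily large `r`.

Every statement is a separate module; the complete proof is in the docstring. Library: part Zr
(`Zr/All.lean`: `factor`, `jensen factor`, `logz factor`, `abelz`, `powz abelz`, `plz`,
`odd (logz factor) (odd1 abelz)`, `edgez`, `shift`, `contra`, `evenz_prod`, ..), all proved.
-/

set_option autoImplicit false

namespace MP7ed9c3.Vz

open NumberField IsDedekindDomain Filter Topology MeasureTheory MP7ed9c3.Zr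

/-- The weight `√(min x (1/x))`. -/
noncomputable def wt (x : ℝ) : ℝ := √(min x x⁻¹)

/-- `|Re ρ|/|ρ|²`. -/
noncomputable def bb (ρ : ℂ) : ℝ := |ρ.re| / ‖ρ‖ ^ 2

/-- The order of vanishing as a real number. -/
noncomputable def od (Φ : ℂ → ℂ) (ρ : ℂ) : ℝ := (analyticOrderNatAt Φ ρ : ℝ)

/-- A finite set of points with real part at most `-1`, and nonnegative weights. -/
structure Pt (Z : Finset ℂ) (m : ℂ → ℝ) : Prop where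
  re : ∀ ρ ∈ Z, ρ.re ≤ -1
  nn : ∀ ρ, 0 ≤ m ρ

/-- The number of points. -/
noncomputable def NZ (Z : Finset ℂ) (m : ℂ → ℝ) (t : ℝ) : ℝ := ∑ ρ ∈ Z with ‖ρ‖ ≤ t, m ρ

/-- The sum of `|Re ρ|/|ρ|²`. -/
noncomputable def SZ (Z : Finset ℂ) (m : ℂ → ℝ) (t : ℝ) : ℝ := ∑ ρ ∈ Z with ‖ρ‖ ≤ t, m ρ * bb ρ

/-- The weighted sum around the radius `R`. -/
noncomputable def VZ (Z : Finset ℂ) (m : ℂ → ℝ) (R : ℝ) : ℝ :=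
  ∑ ρ ∈ Z, m ρ * (bb ρ * wt (‖ρ‖ / R))

/-- The integrated counting function. -/
noncomputable def LZ (Z : Finset ℂ) (m : ℂ → ℝ) (t : ℝ) : ℝ :=
  ∑ ρ ∈ Z with ‖ρ‖ ≤ t, m ρ * Real.log (t / ‖ρ‖)

/-- The even sum. -/
noncomputable def EZ (Z : Finset ℂ) (m : ℂ → ℝ) (r : ℝ) : ℝ :=
  ∑ ρ ∈ Z, m ρ * Real.log (1 + r ^ 2 / ‖ρ‖ ^ 2)

/-- The growth. -/
def Grw (Φ : ℂ → ℂ) (C : ℝ) : Prop :=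
  ∀ z : ℂ, ‖Φ z‖ ≤ Real.exp (C * ((1 + ‖z‖) * Real.log (2 + ‖z‖)))

/-- The standing hypotheses. -/
structure Sth (Φ : ℂ → ℂ) (C B : ℝ) : Prop where
  df : Differentiable ℂ Φ
  one : Φ 0 = 1
  cc : 0 ≤ C
  gr : Grw Φ C
  bp : 0 < B
  ze : ∀ ρ : ℂ, Φ ρ = 0 → ρ.re ≤ -1
  lo : ∀ r : ℝ, 0 ≤ r → B ≤ ‖Φ r‖

open Classical in
/-- The zeros near the vertical direction. -/
noncomputable def inn (Φ : ℂ → ℂ) (A R : ℝ) : Finset ℂ :=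
  (zer Φ R).filter fun ρ => |ρ.re| ≤ A * ‖ρ‖ / Real.log (2 + ‖ρ‖)

/-- **Bas** (basic facts). (1) `(1+x) log(2+x) ≤ 3 (1+x)^(3/2)` for `x ≥ 0` (`log(2+x) ≤ 2 √(2+x) ≤ 3 √(1+x)`),
so `Grw Φ C` implies `Ord Φ (3 C) (3/2)`. (2) The points of `zer Φ R` are zeros of absolute value `< R`
(the set is finite: `factor`), so `Pt (zer Φ R) (od Φ)`, and `zer Φ R ⊆ zer Φ R'` for `R ≤ R'`.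
(3) Monotonicity of the sums in `Z` and in `t`. (4) `NZ (zer Φ R) (od Φ) = num Φ R` (definition). -/
def S_Bas : Prop := ∀ (Φ : ℂ → ℂ) (C B : ℝ), Sth Φ C B →
  Ord Φ (3 * C) (3 / 2) ∧
  (∀ R : ℝ, Pt (zer Φ R) (od Φ)) ∧
  (∀ R R' : ℝ, R ≤ R' → zer Φ R ⊆ zer Φ R') ∧
  (∀ R R' t t' : ℝ, R ≤ R' → t ≤ t' →
    SZ (zer Φ R) (od Φ) t ≤ SZ (zer Φ R') (od Φ) t') ∧
  ∀ R t : ℝ, NZ (zer Φ R) (od Φ) t = num Φ R t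

/-- **Cnt** (the number of zeros). As F2 (`Zr/Jensen.lean`): for `t ≥ 1`, `G` from `factor` for the radius
`2t`: for `‖z‖ = 6t`, `ρ ∈ zer Φ (2t)`: `‖1 - z/ρ‖ ≥ 2`, so by the maximum principle
`1 = ‖G 0‖ ≤ exp(C (1+6t) log(2+6t))/2^n`, `n log 2 ≤ C (1+6t) log(2+6t) ≤ 21 C t log(2+t)` (`1+6t ≤ 7t`,
`2+6t ≤ (2+t)³`). -/
def S_Cnt : Prop := ∀ (Φ : ℂ → ℂ) (C B : ℝ), Sth Φ C B →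
  ∃ A : ℝ, 0 ≤ A ∧ ∀ R t : ℝ, 1 ≤ t → NZ (zer Φ R) (od Φ) t ≤ A * (t * Real.log (2 + t))

/-- **Bnd.** `bb ρ ≤ 1/‖ρ‖`, so the term of `ρ` in `VZ` is at most `m ρ f(‖ρ‖)`, `f(x) = R^(-1/2) x^(-1/2)`
for `x ≤ R`, `f(x) = R^(1/2) x^(-3/2)` for `x > R`. Summation by parts (`abelz`): `k = -f'`, `∫_x^∞ k = f(x)`:
`k(u) = (1/2) R^(-1/2) u^(-3/2)` for `u ≤ R` and `(3/2) R^(1/2) u^(-5/2)` for `u > R`; `B(u) = C u log(2+u)`.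
`∫_1^R k B ≤ C log(2+R)`; for `u ≥ R`: `log(2+u) ≤ log(2+R) + log(u/R) ≤ log(2+R) + 4 (u/R)^(1/4)`, so
`∫_R^∞ k B ≤ C (3 log(2+R) + 24)`; `log(2+R) ≥ 1`. (Or by hand: dyadic blocks `2^k R < ‖ρ‖ ≤ 2^(k+1) R` and
`2^(-k-1) R < ‖ρ‖ ≤ 2^(-k) R` contribute at most `4 C 2^(-k/2) (log(2+R) + k + 1)`.) -/
def S_Bnd : Prop := ∀ C : ℝ, 0 ≤ C → ∃ C' : ℝ, 0 ≤ C' ∧ ∀ (Z : Finset ℂ) (m : ℂ → ℝ), Pt Z m →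
  (∀ t : ℝ, 1 ≤ t → NZ Z m t ≤ C * (t * Real.log (2 + t))) →
  ∀ R : ℝ, 1 ≤ R → VZ Z m R ≤ C' * Real.log (2 + R)

/-- The logarithm of the quotient. -/
noncomputable def qq (ρ : ℂ) (r : ℝ) : ℝ := Real.log (‖ρ + (r : ℂ)‖ / ‖ρ - (r : ℂ)‖)

/-- **Avg** (one zero, average over `[R, 2R]`). Put `β = -Re ρ ≥ 1`, `b = bb ρ = β/‖ρ‖²`, `q = qq ρ r`.
`‖ρ-r‖² = ‖ρ‖² + 2βr + r²`, `‖ρ+r‖² = ‖ρ‖² - 2βr + r²`. For `ρ + r ≠ 0`: `q = -(1/2) log(1 + 4βr/‖ρ+r‖²) ≥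
-2βr/‖ρ+r‖²`. (For `ρ + r = 0`, one value of `r`, `qq = 0`: fine.) `wt = wt(‖ρ‖/R)`.
Case `‖ρ‖ ≤ R/2`: `‖ρ+r‖ ≥ r/2`, `q ≥ -8β/r ≥ -8 R b (‖ρ‖/R)² ≥ -8 R b wt`. Case `‖ρ‖ ≥ 4R`: `‖ρ+r‖ ≥ ‖ρ‖/2`,
`2rb + q ≥ 2rβ (1/‖ρ‖² - 1/‖ρ+r‖²) = 2rβ (r² - 2βr)/(‖ρ‖² ‖ρ+r‖²) ≥ -16 r² β²/‖ρ‖⁴ ≥ -64 R b (R/‖ρ‖) ≥ -64 R b wt`
(`β ≤ ‖ρ‖`, `r ≤ 2R`). Case `R/2 < ‖ρ‖ < 4R`: `wt ≥ 1/2`, `2rb ≥ 0`; if `β ≤ ‖ρ‖/2`: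
`‖ρ+r‖² ≥ ‖ρ‖² - ‖ρ‖r + r² ≥ (3/4) r²`, `q ≥ -(8/3) β/r ≥ -43 R b`. If `β > ‖ρ‖/2`: `R b ≥ 1/8`,
`‖ρ+r‖ ≥ |r - β|`, `‖ρ-r‖ ≤ 6R`, and `∫_R^{2R} log(|r-β|/(6R)) dr ≥ R (log(1/2) - 1 - log 6) ≥ -(7/2) R ≥
-28 R² b` (for an interval `I` of length `1`: `∫_I log|v| dv ≥ ∫_{-1/2}^{1/2} log|v| dv = log(1/2) - 1`; or:
`∫_I log|v| dv ≥ ∫_{-1}^{1} log|v| dv = -2`, as only `|v| < 1` contributes negatively; this gives `-(4)R`). -/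
def S_Avg : Prop := ∀ ρ : ℂ, ρ.re ≤ -1 → ∀ R : ℝ, 1 ≤ R →
  IntervalIntegrable (qq ρ) volume R (2 * R) ∧
  -(100 * (R ^ 2 * (bb ρ * wt (‖ρ‖ / R)))) ≤
    ∫ r in R..(2 * R), ((if R < ‖ρ‖ then 2 * r * bb ρ else 0) + qq ρ r)

/-- **Low** (from F3 and Avg). F3 (`logz factor`, `N = 1`, `ε = 1`, radius `2R`; `Ord` from `S_Bas`): for
`R' ≥ R₀` there is `g` with `Φ z = exp(g z) prodZ Φ R' z`, `‖g z - b z‖ ≤ 1` for `‖z‖ ≤ 2R`,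
`b = Φ'(0) + ∑ m/ρ`, so `Re b = Re Φ'(0) - ∑ m bb ρ`. For `r ∈ [R, 2R]`, `Φ(-r) ≠ 0`: `log‖Φ(-r)‖ = log‖Φ r‖ +
Re(g(-r) - g(r)) + ∑ m qq ρ r ≥ log B - 2 - 4R‖Φ'(0)‖ + ∑ m (2 r bb ρ + qq ρ r)`, and the last sum is
`2 r SZ(R) + G(r)`, `G(r) = ∑ m ((if R < ‖ρ‖ then 2 r bb ρ else 0) + qq ρ r)`. By Avg
`∫_R^{2R} G ≥ -100 R² VZ(R)`, so `G(r) ≥ -100 R VZ(R) - 1` on a set of positive measure (otherwise the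
integral is smaller), and only finitely many `r` have `Φ(-r) = 0`. -/
def S_Low : Prop := ∀ (Φ : ℂ → ℂ) (C B : ℝ), Sth Φ C B → ∃ C' : ℝ, 0 ≤ C' ∧ ∀ R : ℝ, 1 ≤ R →
  ∃ R₀ : ℝ, ∀ R' : ℝ, R₀ ≤ R' → ∃ r : ℝ, R ≤ r ∧ r ≤ 2 * R ∧ Φ (-(r : ℂ)) ≠ 0 ∧
    2 * r * SZ (zer Φ R') (od Φ) R - C' * (R * (1 + VZ (zer Φ R') (od Φ) R)) ≤
      Real.log ‖Φ (-(r : ℂ))‖

/-- **Evb** (from F3; compare `Zr/Even.lean`, `evenz_prod`). `‖Φ r Φ(-r)‖ ≤ e² exp(EZ)`, `‖Φ r‖ ≥ B`. -/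
def S_Evb : Prop := ∀ (Φ : ℂ → ℂ) (C B : ℝ), Sth Φ C B → ∃ C' : ℝ, 0 ≤ C' ∧ ∀ R : ℝ, 1 ≤ R →
  ∃ R₀ : ℝ, ∀ R' : ℝ, R₀ ≤ R' → ∀ r : ℝ, R ≤ r → r ≤ 2 * R → Φ (-(r : ℂ)) ≠ 0 →
    Real.log ‖Φ (-(r : ℂ))‖ ≤ EZ (zer Φ R') (od Φ) r + C'

/-- **Apr** (a priori bound; from Bas, Cnt, Bnd, Low). `V ≤ C₇ log(2+R)` by Cnt and Bnd. For given `R'`, `t = R`
take `R'' ≥ R', R₀` in Low: `2 R SZ(R) ≤ 2 r SZ(R) ≤ C (1+2R) log(2+2R) + C' R (1 + C₇ log(2+R))`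
(`Grw`, `log‖Φ‖ ≤ ..`), and `log(2+2R) ≤ 2 log(2+R)`. Monotonicity: Bas. -/
def S_Apr : Prop := ∀ (Φ : ℂ → ℂ) (C B : ℝ), Sth Φ C B → ∃ C' : ℝ, 0 ≤ C' ∧
  (∀ R' t : ℝ, 1 ≤ t → SZ (zer Φ R') (od Φ) t ≤ C' * Real.log (2 + t)) ∧
  ∀ R' R : ℝ, 1 ≤ R → VZ (zer Φ R') (od Φ) R ≤ C' * Real.log (2 + R)

/-- **Scl** (good scales). `J = ⌊δ log r₀/log 2⌋`, `T = {2^j r₀ : j < J}`, `r₁' = 2^J r₀ ≤ r₀^(1+δ)`. For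
`x = ‖ρ‖`: `∑_{j<J} wt(x/R_j) ≤ 7` (two geometric series with quotient `2^(-1/2)`, `2/(1-2^(-1/2)) < 7`), and
if `x > r₁'`: `wt(x/R_j) = √(R_j/x) ≤ 2^(-(J-j)/2) wt(x/r₁')`, so the sum is `≤ 3 wt(x/r₁')`
(`∑_{k≥1} 2^(-k/2) = 1/(√2-1) < 3`). So `∑_{j<J} VZ(R_j) ≤ 7 SZ(r₁') + 3 VZ(r₁') ≤ 10 C log(2+r₁')`
`≤ 30 C log r₀` (`r₀ ≥ 3`: `2 + r₁' ≤ r₀³`), `J ≥ (δ/2) log r₀/log 2 ≥ (δ/2) log r₀` for `r₀` large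
(`≥ 1`): some `j` has `VZ(R_j) ≤ 60 C/δ`. -/
def S_Scl : Prop := ∀ C δ : ℝ, 0 ≤ C → 0 < δ → δ < 1 → ∃ C' r₁ : ℝ, 0 ≤ C' ∧ 1 ≤ r₁ ∧
  ∀ r₀ : ℝ, r₁ ≤ r₀ → ∃ T : Finset ℝ, (∀ R ∈ T, r₀ ≤ R ∧ R ≤ r₀ ^ (1 + δ)) ∧
    ∀ (Z : Finset ℂ) (m : ℂ → ℝ), Pt Z m →
      (∀ t : ℝ, 1 ≤ t → SZ Z m t ≤ C * Real.log (2 + t)) →
      (∀ R : ℝ, 1 ≤ R → VZ Z m R ≤ C * Real.log (2 + R)) → ∃ R ∈ T, VZ Z m R ≤ C'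

/-- **EvN** (the even sum, integrated form). `k(u) = 4 r² u/(u²+r²)²`, `K(u) = 2r²/(u²+r²) = ∫_u^∞ k`. For
`x ≥ 1`: `∫_x^∞ k(u) log(u/x) du = ∫_x^∞ K(u)/u du = log(1 + r²/x²)` (parts; the last one is `even1_int` in
`Zr/Sums.lean`; or directly: `-K(u) log(u/x) - log(1+r²/u²)` is a primitive of `k(u) log(u/x)`, with the
limit `0` at infinity). So
`EZ = ∑ m ∫_{‖ρ‖}^∞ k(u) log(u/‖ρ‖) du = ∫_1^∞ k(u) LZ(u) du ≤ ∫_1^∞ k(u) (κ u log u + A) du`. `A ∫ k ≤ 2A ≤ 2 A r`.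
`∫_0^∞ k(u) u du = ∫_0^∞ K = π r` (parts), and `log u = log r + log(u/r) ≤ log r + 2 √(u/r)`,
`∫_0^∞ k(u) u √(u/r) du = r ∫_0^∞ 4 w² √w/(1+w²)² dw = c r`. (Alternative without `k`: compare with
`Zr/Sums.lean`, `even1`: by parts `∫_1^∞ k (κ u log u) du = κ ∫_1^∞ K(u) (log u + 1) du + κ K(1) 0`, and
`even1_main` bounds `∫_1^∞ K(u) log u du ≤ π r log r + 4 c₀ r`, `∫_1^∞ K ≤ π r`.) -/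
def S_EvN : Prop := ∀ κ A : ℝ, 0 ≤ κ → 0 ≤ A → ∃ A' : ℝ, 0 ≤ A' ∧
  ∀ (Z : Finset ℂ) (m : ℂ → ℝ), Pt Z m →
    (∀ t : ℝ, 1 ≤ t → LZ Z m t ≤ κ * (t * Real.log t) + A) →
    ∀ r : ℝ, 1 ≤ r → EZ Z m r ≤ Real.pi * κ * (r * Real.log r) + A' * r

/-- **Out** (zeros off the vertical direction). `x = ‖ρ‖ ≥ 1`, `1 < |Re ρ| log(2+x)/(A x) = bb ρ x log(2+x)/A`.
`x ≤ r`, `y = r/x`: `log(1+y²) ≤ 4 √y`, so the term is at most `(4/A) r log(2+r) bb ρ √(x/r)`. `x > r`: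
`log(1+y²) ≤ y²`, `log(2+x) ≤ log(2+r) + log(x/r) ≤ 2 log(2+r) √(x/r)` (`log v ≤ √v`, `log(2+r) ≥ 1`): the
term is at most `(2/A) r log(2+r) bb ρ √(r/x)`. And `wt(x/r) ≤ √2 wt(x/R)` for `R ≤ r ≤ 2R`. -/
def S_Out : Prop := ∀ (Z : Finset ℂ) (m : ℂ → ℝ) (A : ℝ), Pt Z m → 0 < A →
  (∀ ρ ∈ Z, A * ‖ρ‖ / Real.log (2 + ‖ρ‖) < |ρ.re|) →
  ∀ R r : ℝ, 1 ≤ R → R ≤ r → r ≤ 2 * R →
    EZ Z m r ≤ 8 / A * (r * Real.log (2 + r)) * VZ Z m R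

/-- **Man** (from Bas, Low, Evb, Apr, Scl, EvN, Out). `κ₂ = πκ/2 < 1`; `0 < δ < 1` with
`κ₁ = (κ₂+δ)(1+δ) < 1`. `C₀` from Apr; `C₈`, `r₁` from Scl for `C₀`, `δ`; `A = 4 C₈/δ + 1`. Let `D` and the
hypothesis be given; `A'` from EvN for `κ`, `D`. For `t ≥ r₁` and `R'`: `T` from Scl (`r₀ = t`); let `R''` be
at least `R'` and all the `R₀` of Low and Evb for `R ∈ T`; `Z = zer Φ R''` (`Pt` by Bas); Scl gives `R ∈ T` with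
`VZ Z R ≤ C₈`; Low gives `r`; with Evb, `Z = inn ∪ (Z \ inn)`, EvN for `inn Φ A R''`, Out for the rest
(`VZ` of the rest is `≤ VZ Z`): `2 r SZ(R) ≤ π κ r log r + A' r + (8/A) r log(2+r) C₈ + C' R (1+C₈) + C''`.
Divide by `2r` (`r ≥ R ≥ 1`, `log r ≤ log R + 1`, `log(2+r) ≤ log R + 2`, `4 C₈/A ≤ δ`):
`SZ(R) ≤ (κ₂+δ) log R + const`, `log R ≤ (1+δ) log t`, `SZ (zer Φ R') t ≤ SZ Z R`. For `1 ≤ t < r₁`: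
`SZ(t) ≤ SZ(r₁) ≤ C₀ log(2+r₁)`. -/
def S_Man : Prop := ∀ (Φ : ℂ → ℂ) (C B κ : ℝ), Sth Φ C B → 0 ≤ κ → Real.pi * κ < 2 →
  ∃ A : ℝ, 0 < A ∧ ∀ D : ℝ, 0 ≤ D →
    (∀ R' t : ℝ, 1 ≤ t → LZ (inn Φ A R') (od Φ) t ≤ κ * (t * Real.log t) + D) →
    ∃ κ₁ A₁ : ℝ, 0 ≤ κ₁ ∧ κ₁ < 1 ∧ 0 ≤ A₁ ∧
      ∀ R' t : ℝ, 1 ≤ t → SZ (zer Φ R') (od Φ) t ≤ κ₁ * Real.log t + A₁

/-- **Shf** (moving the centre; compare `Zr/Shift.lean`). `Φ(z) = F(3+z)/F 3`. `Grw`: `1+‖3+z‖ ≤ 4 (1+‖z‖)`,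
`log(2+‖3+z‖) ≤ log 4 + log(2+‖z‖) ≤ 3 log(2+‖z‖)`, and `1/‖F 3‖ ≤ B = exp(log B)`,
`log B ≤ 2 |log B| (1+‖z‖) log(2+‖z‖)`. If `Φ ζ = 0` then `Re(3+ζ) ≤ 3/2`. The zeros `ζ` of `Φ` correspond to the
zeros `ρ = 3 + ζ` of `F`, with the same order, `‖ζ‖ = ‖ρ-3‖`, `|Re ζ| = 3 - Re ρ`; the finsum is over the zeros
with `‖ρ-3‖ ≤ t` (finitely many; elsewhere the order is `0`), all terms `≥ 0`. -/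
def S_Shf : Prop := ∀ (F : ℂ → ℂ) (C B : ℝ), Differentiable ℂ F → Grw F C → 0 < B →
  (∀ s : ℂ, 2 ≤ s.re → B⁻¹ ≤ ‖F s‖ ∧ ‖F s‖ ≤ B) → (∀ s : ℂ, 3 / 2 < s.re → F s ≠ 0) →
  ∃ (Φ : ℂ → ℂ) (C' B' B'' C₀ : ℝ), Sth Φ C' B' ∧ (∀ r : ℝ, 0 ≤ r → ‖Φ r‖ ≤ B'') ∧ 0 < C₀ ∧
    (∀ z : ℂ, ‖F (3 + z)‖ = C₀ * ‖Φ z‖) ∧
    (∀ A R t t' : ℝ, 1 ≤ t → t ≤ t' →
      LZ (inn Φ A R) (od Φ) t ≤ LZ (inn Φ A R) (od Φ) t') ∧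
    ∀ A R t : ℝ, 1 ≤ t → LZ (inn Φ A R) (od Φ) t ≤
      ∑ᶠ ρ ∈ {ρ : ℂ | ‖ρ - 3‖ ≤ t ∧ 3 - ρ.re ≤ A * ‖ρ - 3‖ / Real.log (2 + ‖ρ - 3‖)},
        (analyticOrderNatAt F ρ : ℝ) * Real.log (t / ‖ρ - 3‖)

/-- **VZ** (from Bas, Man, Shf and part Zr; compare `asmZ2`). Suppose not: `κ < 2/π` (we may take `κ ≥ 0`), for
`A` from Man there is `r₀ ≥ 1` with: the sum is `≤ κ r log r` for `r ≥ r₀`. So `LZ ≤ κ t log t + D` for all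
`t ≥ 1`, `D = κ r₀ log r₀` (monotone in `t`: Shf). Man, then F7 (`odd (logz factor) (odd1 abelz)` with
`κ := κ₁`, `A := A₁`, `Ord Φ (3C') (3/2)`): `‖Φ(-r)‖ ≤ ‖Φ r‖ exp(2κ₁ r log r + A' r)`, `‖Φ r‖ ≤ B''`. `contra plz` with
`Ord F _ (3/2)` (from `Grw F C`, as in Bas (1)): contradiction, since `2 κ₁ < 2`. The edge bounds:
`edgez`, `edge_ne` (as in `zerosOf`). -/
def S_VZ : Prop :=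
  ∀ (K : Type) [Field K] [NumberField K] (E : WeierstrassCurve K), E.IsElliptic →
    ∀ M : HeightOneSpectrum (𝓞 K) → WeierstrassCurve (𝓞 K), (∀ v, IsMinAt E v (M v)) →
    ∀ F : ℂ → ℂ, Differentiable ℂ F →
      (∀ s : ℂ, 3 / 2 < s.re → F s = ∏' v : HeightOneSpectrum (𝓞 K), (locDen (M v) v s)⁻¹) →
      (∃ C : ℝ, ∀ s : ℂ, ‖F s‖ ≤ Real.exp (C * ((1 + ‖s‖) * Real.log (2 + ‖s‖)))) →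
      ∀ κ : ℝ, κ < 2 / Real.pi → ∃ A : ℝ, 0 < A ∧ ∀ r₀ : ℝ, ∃ r : ℝ, r₀ ≤ r ∧
        κ * (r * Real.log r) <
          ∑ᶠ ρ ∈ {ρ : ℂ | ‖ρ - 3‖ ≤ r ∧ 3 - ρ.re ≤ A * ‖ρ - 3‖ / Real.log (2 + ‖ρ - 3‖)},
            (analyticOrderNatAt F ρ : ℝ) * Real.log (r / ‖ρ - 3‖)

end MP7ed9c3.Vz
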