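import Pool.Agent.Lib.MP_7ed9c3_nt.Vz.Spec

/-!
# MP_7ed9c3_nt, part Vz: continuations of finite order (statement)
-/

set_option autoImplicit false

namespace MP7ed9c3.Vz

open NumberField IsDedekindDomain Filter Topology MeasureTheory MP7ed9c3.Zr

/-- **VZ2** (from VZ and part Zr). The first part is `z1All`. For the second part: `F8` (order `7/4`), `F6`
(the even part) and `F5` (Phragmen-Lindelof) give the growth `exp(c ‖s‖ log(1+‖s‖) + R (1+‖s‖))` of `F`. -/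
def S_VZ2 : Prop :=
  ∀ (K : Type) [Field K] [NumberField K] (E : WeierstrassCurve K), E.IsElliptic →
    ∀ M : HeightOneSpectrum (𝓞 K) → WeierstrassCurve (𝓞 K), (∀ v, IsMinAt E v (M v)) →
    ∀ F : ℂ → ℂ, Differentiable ℂ F →
      (∀ s : ℂ, 3 / 2 < s.re → F s = ∏' v : HeightOneSpectrum (𝓞 K), (locDen (M v) v s)⁻¹) →
      (∃ C a : ℝ, ∀ s : ℂ, ‖F s‖ ≤ Real.exp (C * (1 + ‖s‖) ^ a)) →
      ∀ κ : ℝ, κ < 2 / Real.pi →
        (∀ r₀ : ℝ, ∃ r : ℝ, r₀ ≤ r ∧ κ * (r * Real.log r) <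
          ((∑ᶠ ρ ∈ Metric.closedBall (0 : ℂ) r, analyticOrderNatAt F ρ : ℕ) : ℝ)) ∧
        ((∃ C r₁ : ℝ, ∀ r : ℝ, r₁ ≤ r →
            ((∑ᶠ ρ ∈ Metric.closedBall (0 : ℂ) r, analyticOrderNatAt F ρ : ℕ) : ℝ) ≤
              C * (r * Real.log r)) →
          ∃ A : ℝ, 0 < A ∧ ∀ r₀ : ℝ, ∃ r : ℝ, r₀ ≤ r ∧
            κ * (r * Real.log r) <
              ∑ᶠ ρ ∈ {ρ : ℂ | ‖ρ - 3‖ ≤ r ∧ 3 - ρ.re ≤ A * ‖ρ - 3‖ / Real.log (2 + ‖ρ - 3‖)},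
                (analyticOrderNatAt F ρ : ℝ) * Real.log (r / ‖ρ - 3‖))

end MP7ed9c3.Vz
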