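import Pool.Agent.Lib.MP_7ed9c3_nt.AllV

/-!
# MP_7ed9c3_nt, part Vz: the coefficients of the L-series
-/

set_option autoImplicit false

namespace MP7ed9c3.Vz

open NumberField IsDedekindDomain Filter Topology MeasureTheory MP7ed9c3

open Classical PowerSeries in
/-- The Euler product is a Dirichlet series with unbounded integral coefficients. -/
theorem valCoef (K : Type) [Field K] [NumberField K] (E : WeierstrassCurve K) (hE : E.IsElliptic)
    (M : HeightOneSpectrum (𝓞 K) → WeierstrassCurve (𝓞 K)) (hM : ∀ v, IsMinAt E v (M v)) :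
    ∃ b : ℕ → ℤ, b 0 = 0 ∧
      (∀ σ : ℝ, 3 / 2 < σ → Summable (fun n : ℕ => |(b n : ℝ)| * (n : ℝ) ^ (-σ))) ∧
      (∀ s : ℂ, 3 / 2 < s.re → ∏' v : HeightOneSpectrum (𝓞 K), (locDen (M v) v s)⁻¹ =
        ∑' n : ℕ, (b n : ℂ) * (n : ℂ) ^ (-s)) ∧
      ¬ ∃ B : ℤ, ∀ n, |b n| ≤ B := by
  obtain ⟨W₀, hΔ, hW₀⟩ := existsModel K E hE
  obtain ⟨C, hC⟩ := countPrimes K
  set S : Set (HeightOneSpectrum (𝓞 K)) :=
    {v | W₀.Δ ∈ v.asIdeal ∨ (6 : 𝓞 K) ∈ v.asIdeal} with hSdef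
  have h6 : (6 : 𝓞 K) ≠ 0 := by norm_num
  have hSfin : S.Finite := (N5.finite_mem hΔ).union (N5.finite_mem h6)
  set A : ℝ := 2 + ∑ v ∈ hSfin.toFinset, √(nm v) with hA
  have hA2 : 2 ≤ A := by
    rw [hA]
    have : 0 ≤ ∑ v ∈ hSfin.toFinset, √(nm v : ℝ) :=
      Finset.sum_nonneg fun v _ => Real.sqrt_nonneg _
    linarith
  have hgood : ∀ v, v ∉ S → (M v).Δ ∉ v.asIdeal ∧ tr (M v) v = tr W₀ v := by
    intro v hv
    have hv1 : W₀.Δ ∉ v.asIdeal := fun h => hv (Or.inl h)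
    have hv2 : (6 : 𝓞 K) ∉ v.asIdeal := fun h => hv (Or.inr h)
    exact goodDataAll K E W₀ hW₀ v (M v) hv1 hv2 (hM v)
  have h1 : ∀ v, |(tr (M v) v : ℝ)| ≤ nm v := fun v => (traceBoundAll K (M v) v).1
  have h2 : ∀ v, |(tr (M v) v : ℝ)| ≤ A * √(nm v) := by
    intro v
    by_cases hv : v ∈ S
    · have e1 : √(nm v : ℝ) ≤ A := by
        rw [hA]
        have : √(nm v : ℝ) ≤ ∑ v ∈ hSfin.toFinset, √(nm v : ℝ) :=
          Finset.single_le_sum (f := fun v => √(nm v : ℝ))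
            (fun v _ => Real.sqrt_nonneg _) (hSfin.mem_toFinset.mpr hv)
        linarith
      have e2 : (nm v : ℝ) = √(nm v : ℝ) * √(nm v : ℝ) :=
        (Real.mul_self_sqrt (Nat.cast_nonneg _)).symm
      calc |(tr (M v) v : ℝ)| ≤ nm v := h1 v
        _ = √(nm v : ℝ) * √(nm v : ℝ) := e2
        _ ≤ A * √(nm v) := mul_le_mul_of_nonneg_right e1 (Real.sqrt_nonneg _)
    · have hv1 : W₀.Δ ∉ v.asIdeal := fun h => hv (Or.inl h)
      have hv2 : (6 : 𝓞 K) ∉ v.asIdeal := fun h => hv (Or.inr h)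
      rw [(hgood v hv).2]
      exact le_trans ((traceBoundAll K W₀ v).2 hv1 hv2)
        (mul_le_mul_of_nonneg_right hA2 (Real.sqrt_nonneg _))
  obtain ⟨b, hb0, hbs, hbeq, hbp⟩ := (coeffs sparseSums) (HeightOneSpectrum (𝓞 K)) (fun v => nm v)
    (fun v => tr (M v) v) (fun v => (M v).Δ ∉ v.asIdeal) C A hC h1 h2
  refine ⟨b, hb0, hbs, ?_, ?_⟩
  · intro s hs
    rw [← hbeq s hs]
    refine tprod_congr fun v => ?_
    rw [locDen]
    unfold eden
    by_cases h : (M v).Δ ∉ v.asIdeal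
    · simp only [h, not_false_eq_true, if_true]
    · simp only [h, if_false]
  rintro ⟨B, hB⟩
  obtain ⟨v₀, hv₀, p, hp, hpd⟩ := G12.exists_outside hSfin
  have hfin : {v : HeightOneSpectrum (𝓞 K) | p ∣ nm v}.Finite := by
    refine (N5.finite_mem (K := K) (x := ((p : ℕ) : 𝓞 K)) ?_).subset ?_
    · exact_mod_cast hp.ne_zero
    · intro v hv
      exact (G12.of_dvd v hp hv).2
  have hfex : ∀ v : HeightOneSpectrum (𝓞 K), ∃ f : ℕ, p ∣ nm v → 0 < f ∧ nm v = p ^ f := by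
    intro v
    by_cases h : p ∣ nm v
    · obtain ⟨f, hf⟩ := (G12.of_dvd v hp h).1
      exact ⟨f, fun _ => hf⟩
    · exact ⟨0, fun h' => absurd h' h⟩
  choose f hf using hfex
  have hprod := hbp p f hp hfin hf
  have hmem₀ : v₀ ∈ hfin.toFinset := hfin.mem_toFinset.mpr hpd
  refine unbounded (HeightOneSpectrum (𝓞 K)) hfin.toFinset (fun v => nm v) f (fun v => tr (M v) v)
    (fun v => (M v).Δ ∉ v.asIdeal) (fun k => b (p ^ k)) v₀ hmem₀ (hgood v₀ hv₀).1 (hC.1 v₀)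
    (hf v₀ hpd).1 ?_ ⟨B, fun k => hB (p ^ k)⟩
  rw [← finprod_mem_eq_finite_toFinset_prod _ hfin]
  exact hprod

end MP7ed9c3.Vz
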