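import Pool.Agent.Lib.MP_7ed9c3_nt.Vz.Val1
import Mathlib.NumberTheory.LSeries.Deriv
import Mathlib.NumberTheory.LSeries.Convergence

/-!
# MP_7ed9c3_nt, part Vz: the Dirichlet series of the derivatives
-/

set_option autoImplicit false

namespace MP7ed9c3.Vz

open NumberField IsDedekindDomain Filter Topology MeasureTheory MP7ed9c3

theorem val_term {g : ℕ → ℂ} (hg : g 0 = 0) (z : ℂ) :
    LSeries.term g z = fun n : ℕ => g n * (n : ℂ) ^ (-z) := by
  ext n
  rcases Nat.eq_zero_or_pos n with h | h
  · rw [h, LSeries.term_zero, hg, zero_mul]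
  · rw [LSeries.term_of_ne_zero (by omega), Complex.cpow_neg, div_eq_mul_inv]

theorem val_logpow (f : ℕ → ℂ) (j n : ℕ) :
    (LSeries.logMul^[j] f) n = (Complex.log n) ^ j * f n := by
  induction j with
  | zero => simp
  | succ j ih =>
    rw [Function.iterate_succ_apply', LSeries.logMul, ih, pow_succ]
    ring

/-- The Dirichlet series of the derivatives of the continuation. -/
theorem valCoefD (K : Type) [Field K] [NumberField K] (E : WeierstrassCurve K) (hE : E.IsElliptic)
    (M : HeightOneSpectrum (𝓞 K) → WeierstrassCurve (𝓞 K)) (hM : ∀ v, IsMinAt E v (M v))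
    (F : ℂ → ℂ)
    (hFE : ∀ s : ℂ, 3 / 2 < s.re → F s = ∏' v : HeightOneSpectrum (𝓞 K), (locDen (M v) v s)⁻¹)
    (j : ℕ) :
    ∃ a : ℕ → ℂ, a 0 = 0 ∧ Summable (fun n : ℕ => ‖a n‖ * (n : ℝ) ^ (-(2 : ℝ))) ∧
      (∀ z : ℂ, 3 / 2 < z.re → Summable (fun n : ℕ => a n * (n : ℂ) ^ (-z)) ∧
        iteratedDeriv j F z = ∑' n : ℕ, a n * (n : ℂ) ^ (-z)) ∧
      ∀ N : ℕ, ∃ n : ℕ, N < n ∧ a n ≠ 0 := by
  obtain ⟨b, hb0, hbs, hbeq, hbu⟩ := valCoef K E hE M hM
  set f : ℕ → ℂ := fun n => (b n : ℂ) with hf
  have hf0 : f 0 = 0 := by simp [hf, hb0]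
  have hfs : ∀ z : ℂ, 3 / 2 < z.re → LSeriesSummable f z := by
    intro z hz
    rw [LSeriesSummable, val_term hf0]
    refine Summable.of_norm (Summable.of_nonneg_of_le (fun n => norm_nonneg _) (fun n => ?_)
      (hbs z.re hz))
    rcases Nat.eq_zero_or_pos n with h | h
    · rw [h, hf0]
      simp [hb0]
    · rw [norm_mul, Complex.norm_natCast_cpow_of_pos h, hf, Complex.norm_intCast, Complex.neg_re]
  have habs : LSeries.abscissaOfAbsConv f ≤ ((3 / 2 : ℝ) : EReal) := by
    refine LSeries.abscissaOfAbsConv_le_of_forall_lt_LSeriesSummable fun y hy => ?_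
    exact hfs y (by simpa using hy)
  have hab : ∀ z : ℂ, 3 / 2 < z.re → LSeries.abscissaOfAbsConv f < (z.re : EReal) := by
    intro z hz
    exact lt_of_le_of_lt habs (by exact_mod_cast hz)
  set g : ℕ → ℂ := LSeries.logMul^[j] f with hg
  have hgn : ∀ n, g n = (Complex.log n) ^ j * f n := fun n => by rw [hg, val_logpow]
  have hg0 : g 0 = 0 := by rw [hgn, hf0, mul_zero]
  have hgs : ∀ z : ℂ, 3 / 2 < z.re → Summable (fun n : ℕ => g n * (n : ℂ) ^ (-z)) := by
    intro z hz
    have h1 : LSeriesSummable g z := by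
      refine LSeriesSummable_of_abscissaOfAbsConv_lt_re ?_
      rw [hg, LSeries.absicssaOfAbsConv_logPowMul]
      exact hab z hz
    rw [LSeriesSummable, val_term hg0] at h1
    exact h1
  refine ⟨fun n => (-1) ^ j * g n, by simp only [hg0, mul_zero], ?_, ?_, ?_⟩
  · have h1 := (hgs 2 (by norm_num)).norm
    refine h1.congr fun n => ?_
    rcases Nat.eq_zero_or_pos n with h | h
    · rw [h, hg0]
      simp
    · rw [norm_mul, norm_mul, norm_pow, norm_neg, norm_one, one_pow, one_mul,
        Complex.norm_natCast_cpow_of_pos h, Complex.neg_re, Complex.re_ofNat]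
  · intro z hz
    refine ⟨?_, ?_⟩
    · have h1 := (hgs z hz).mul_left ((-1 : ℂ) ^ j)
      refine h1.congr fun n => ?_
      ring
    · have h2 : F =ᶠ[𝓝 z] LSeries f := by
        have ho : IsOpen {z : ℂ | 3 / 2 < z.re} := isOpen_lt continuous_const Complex.continuous_re
        filter_upwards [ho.mem_nhds hz] with s hs
        rw [hFE s hs, hbeq s hs, LSeries, val_term hf0]
      rw [h2.iteratedDeriv_eq j, LSeries_iteratedDeriv j (hab z hz), LSeries, val_term hg0,
        ← tsum_mul_left]
      refine tsum_congr fun n => ?_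
      ring
  · intro N
    by_contra hcon
    push Not at hcon
    apply hbu
    refine ⟨∑ i ∈ Finset.range (N + 2), |b i|, fun n => ?_⟩
    by_cases hn : n ∈ Finset.range (N + 2)
    · exact Finset.single_le_sum (f := fun i => |b i|) (fun i _ => abs_nonneg _) hn
    · rw [Finset.mem_range] at hn
      have h1 := hcon n (by omega)
      have h2 : Complex.log n ≠ 0 := by
        rw [← Complex.natCast_log]
        exact_mod_cast (Real.log_pos (by exact_mod_cast (by omega : 1 < n))).ne'
      have h3 : g n = 0 := by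
        rcases mul_eq_zero.1 h1 with h4 | h4
        · exact absurd h4 (pow_ne_zero _ (by norm_num))
        · exact h4
      rw [hgn] at h3
      rcases mul_eq_zero.1 h3 with h4 | h4
      · exact absurd h4 (pow_ne_zero _ h2)
      · have h5 : b n = 0 := by
          simp only [hf] at h4
          exact_mod_cast h4
        rw [h5, abs_zero]
        exact Finset.sum_nonneg fun _ _ => abs_nonneg _

end MP7ed9c3.Vz
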