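import Pool.Agent.Lib.MP_7ed9c3_nt.Vz.Val8
import Pool.Agent.Lib.MP_7ed9c3_nt.Vz.Val9

/-!
# MP_7ed9c3_nt, part Vz: the solutions of `F^(j)(s) = P(s)`, `P` a Dirichlet polynomial
-/

set_option autoImplicit false

namespace MP7ed9c3.Vz

open NumberField IsDedekindDomain Filter Topology MeasureTheory MP7ed9c3.Zr

/-- **The solutions of `F^(j)(s) = P(s)`.** -/
theorem val3All (K : Type) [Field K] [NumberField K] (E : WeierstrassCurve K) (hE : E.IsElliptic)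
    (M : HeightOneSpectrum (𝓞 K) → WeierstrassCurve (𝓞 K)) (hM : ∀ v, IsMinAt E v (M v))
    (F : ℂ → ℂ) (hF : Differentiable ℂ F)
    (hFE : ∀ s : ℂ, 3 / 2 < s.re → F s = ∏' v : HeightOneSpectrum (𝓞 K), (locDen (M v) v s)⁻¹)
    (hord : ∃ C a : ℝ, ∀ s : ℂ, ‖F s‖ ≤ Real.exp (C * (1 + ‖s‖) ^ a)) (κ : ℝ)
    (hκ : κ < 2 / Real.pi) (j N : ℕ) (w : ℕ → ℂ) (P : ℂ → ℂ)
    (hP : ∀ s : ℂ, P s = ∑ n ∈ Finset.Icc 1 N, w n * (n : ℂ) ^ (-s)) :
    (∀ r₀ : ℝ, ∃ r : ℝ, r₀ ≤ r ∧ κ * (r * Real.log r) <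
      ((∑ᶠ ρ ∈ Metric.closedBall (0 : ℂ) r,
        analyticOrderNatAt (fun s => iteratedDeriv j F s - P s) ρ : ℕ) : ℝ)) ∧
    ((∃ C r₁ : ℝ, ∀ r : ℝ, r₁ ≤ r →
        ((∑ᶠ ρ ∈ Metric.closedBall (0 : ℂ) r,
          analyticOrderNatAt (fun s => iteratedDeriv j F s - P s) ρ : ℕ) : ℝ) ≤ C * (r * Real.log r)) →
      ∃ A : ℝ, 0 < A ∧ ∀ r₀ : ℝ, ∃ r : ℝ, r₀ ≤ r ∧ κ * (r * Real.log r) <
        ∑ᶠ ρ ∈ {ρ : ℂ | ‖ρ - 3‖ ≤ r ∧ 3 - ρ.re ≤ A * ‖ρ - 3‖ / Real.log (2 + ‖ρ - 3‖)},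
          (analyticOrderNatAt (fun s => iteratedDeriv j F s - P s) ρ : ℝ) * Real.log (r / ‖ρ - 3‖)) := by
  classical
  have hpi := Real.pi_pos
  have hPd : Differentiable ℂ P := by
    have h1 : P = fun s : ℂ => ∑ n ∈ Finset.Icc 1 N, w n * (n : ℂ) ^ (-s) := funext hP
    rw [h1]
    exact val_polyd N w
  obtain ⟨L, hL, hPL'⟩ := val_poly N w
  have hPL : ∀ s, ‖P s‖ ≤ Real.exp (L * (1 + ‖s‖)) := fun s => by
    rw [hP]
    exact hPL' s
  obtain ⟨b, hb0, hbs, hbz, hbn⟩ := valCoefD K E hE M hM F hFE j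
  set a : ℕ → ℂ := fun n => b n - (if n ∈ Finset.Icc 1 N then w n else 0) with ha
  have ha0 : a 0 = 0 := by simp [ha, hb0]
  have han : ∀ n, n ∉ Finset.Icc 1 N → a n = b n := fun n hn => by
    simp only [ha, hn, if_false, sub_zero]
  have ha1 : ∀ n, n ∈ Finset.Icc 1 N → a n = b n - w n := fun n hn => by
    simp only [ha, hn, if_true]
  have hne : ∃ n, a n ≠ 0 := by
    obtain ⟨n, hn, hbn'⟩ := hbn N
    refine ⟨n, ?_⟩
    rw [han n (by
      rw [Finset.mem_Icc]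
      omega)]
    exact hbn'
  have hsum : Summable (fun n : ℕ => ‖a n‖ * (n : ℝ) ^ (-(2 : ℝ))) := by
    have h1 : Summable (fun n : ℕ =>
        ‖b n‖ * (n : ℝ) ^ (-(2 : ℝ)) + (if n ∈ Finset.Icc 1 N then ‖w n‖ else 0)) :=
      hbs.add (summable_of_ne_finset_zero (s := Finset.Icc 1 N) (by
        intro n hn
        rw [if_neg hn]))
    refine Summable.of_nonneg_of_le (fun n => by positivity) (fun n => ?_) h1
    by_cases hn : n ∈ Finset.Icc 1 N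
    · rw [ha1 n hn, if_pos hn]
      have hn' := Finset.mem_Icc.1 hn
      have h2 := norm_sub_le (b n) (w n)
      have h3 : (n : ℝ) ^ (-(2 : ℝ)) ≤ 1 :=
        Real.rpow_le_one_of_one_le_of_nonpos (by exact_mod_cast hn'.1) (by norm_num)
      have h4 : 0 ≤ (n : ℝ) ^ (-(2 : ℝ)) := by positivity
      nlinarith [norm_nonneg (w n), mul_le_mul_of_nonneg_right h2 h4,
        mul_nonneg (norm_nonneg (w n)) (sub_nonneg.2 h3)]
    · rw [han n hn, if_neg hn, add_zero]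
  obtain ⟨m, hm1, hma, c, hc, hedge⟩ := val_edge a ha0 hsum hne
  have hser : ∀ z : ℂ, 3 / 2 < z.re →
      iteratedDeriv j F z - P z = ∑' n : ℕ, a n * (n : ℂ) ^ (-z) := by
    intro z hz
    obtain ⟨hbs', hbe⟩ := hbz z hz
    have h1 : ∀ n : ℕ, a n * (n : ℂ) ^ (-z) = b n * (n : ℂ) ^ (-z) -
        (if n ∈ Finset.Icc 1 N then w n * (n : ℂ) ^ (-z) else 0) := by
      intro n
      by_cases hn : n ∈ Finset.Icc 1 N
      · rw [ha1 n hn, if_pos hn, sub_mul]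
      · rw [han n hn, if_neg hn, sub_zero]
    have hfs : ∀ n : ℕ, n ∉ Finset.Icc 1 N →
        (if n ∈ Finset.Icc 1 N then w n * (n : ℂ) ^ (-z) else 0) = 0 := fun n hn => if_neg hn
    rw [hbe]
    simp_rw [h1]
    rw [Summable.tsum_sub hbs' (summable_of_ne_finset_zero (s := Finset.Icc 1 N) hfs),
      tsum_eq_sum (s := Finset.Icc 1 N) hfs, hP]
    congr 1
    exact Finset.sum_congr rfl fun n hn => (if_pos hn).symm
  have hedge' : ∀ s : ℂ, 3 / 2 < s.re →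
      ‖(m : ℂ) ^ (s + c) / a m * (iteratedDeriv j F (s + c) - P (s + c)) - 1‖ ≤ 1 / 2 := by
    intro s hs
    have hre : (s + (c : ℂ)).re = s.re + c := by simp
    rw [hser (s + c) (by rw [hre]; linarith)]
    exact hedge (s + c) (by rw [hre]; linarith)
  obtain ⟨G, hGd, hG2, hOG, hback, hordG, hcntG⟩ :=
    val_setup (val_ddiff hF j) hPd hL hPL (val_dord hF hord j) hm1 hma hc hedge'
  have hGB : ∀ s : ℂ, 2 ≤ s.re → (2 : ℝ)⁻¹ ≤ ‖G s‖ ∧ ‖G s‖ ≤ 2 := by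
    intro s hs
    have h1 := hG2 s (by linarith)
    refine ⟨?_, h1.2⟩
    linarith [h1.1]
  have hGne : ∀ s : ℂ, 3 / 2 < s.re → G s ≠ 0 := by
    intro s hs h
    have h1 := (hG2 s hs).1
    rw [h, norm_zero] at h1
    linarith
  have hz₀ : iteratedDeriv j F (2 + c) - P (2 + c) ≠ 0 := by
    intro h
    have h1 := hedge' 2 (by norm_num)
    rw [h, mul_zero, zero_sub, norm_neg, norm_one] at h1
    linarith
  obtain ⟨B, hB, hBs⟩ := edgez K E hE M hM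
  have hcontra : ∀ (a' : ℝ), 1 ≤ a' → a' < 2 → ∀ (C₃ k A D : ℝ), 0 ≤ C₃ → Ord G C₃ a' → 0 ≤ k →
      k < 2 → (∀ r : ℝ, 3 ≤ r → ‖G (3 + (-(r : ℂ)))‖ ≤
        Real.exp (k * (r * Real.log r) + A * r + D)) → False := by
    intro a' ha1 ha2 C₃ k A D hC₃ hOG' hk0 hk2 hgrow
    obtain ⟨k', C₄, A', D', hk0', hk2', hOFj, hgrowj⟩ :=
      val_back hL hPL hm1 hc hback hC₃ ha1 hOG' hk0 hk2 hgrow
    have hOFj' : Ord (iteratedDeriv j F) |C₄| a' := fun s =>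
      (hOFj s).trans (Real.exp_le_exp.2 (mul_le_mul_of_nonneg_right (le_abs_self _)
        (by positivity)))
    obtain ⟨C₅, A'', D'', hOF, hgrow'⟩ :=
      val_int hF j ha1 hk0' |C₄| A' D' (abs_nonneg _) hOFj' hgrowj
    exact contra plz K E hE M hM F hF hFE hOF ha2 (fun s hs => by
      rw [hFE s (by linarith)]
      exact (hBs s hs).2) hk2' hk0' hgrow'
  -- the count for `G` from the count for `F - P`
  have hcount : ∀ κ₀ r₀ : ℝ, (∀ r : ℝ, r₀ ≤ r →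
      ((∑ᶠ ρ ∈ Metric.closedBall (0 : ℂ) r,
        analyticOrderNatAt (fun s => iteratedDeriv j F s - P s) ρ : ℕ) : ℝ) ≤ κ₀ * (r * Real.log r)) →
      ∀ κ₂ : ℝ, max κ₀ 0 < κ₂ → ∃ r₂ : ℝ, ∀ r : ℝ, r₂ ≤ r →
        ((∑ᶠ ρ ∈ Metric.closedBall (0 : ℂ) r, analyticOrderNatAt G ρ : ℕ) : ℝ) ≤
          κ₂ * (r * Real.log r) := by
    intro κ₀ r₀ hcon κ₂ hκ₂
    refine val_cnt (κ₁ := max κ₀ 0) (r₀ := max r₀ 1) (le_max_right _ _) hκ₂ hc
      (fun r => ((∑ᶠ ρ ∈ Metric.closedBall (0 : ℂ) r, analyticOrderNatAt G ρ : ℕ) : ℝ)) ?_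
    intro r hr
    have hr0 : r₀ ≤ r := (le_max_left _ _).trans hr
    have hr1 : 1 ≤ r := (le_max_right _ _).trans hr
    have h2 : ((∑ᶠ ρ ∈ Metric.closedBall (0 : ℂ) r, analyticOrderNatAt G ρ : ℕ) : ℝ) ≤
        ((∑ᶠ ρ ∈ Metric.closedBall (0 : ℂ) (r + c),
          analyticOrderNatAt (fun s => iteratedDeriv j F s - P s) ρ : ℕ) : ℝ) := by
      exact_mod_cast hcntG r
    have h3 := hcon (r + c) (by linarith)
    have hl : 0 ≤ Real.log (r + c) := Real.log_nonneg (by linarith)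
    have h4 : κ₀ * ((r + c) * Real.log (r + c)) ≤ max κ₀ 0 * ((r + c) * Real.log (r + c)) :=
      mul_le_mul_of_nonneg_right (le_max_left _ _) (by positivity)
    linarith
  set κ₁ : ℝ := max κ 0 with hκ₁
  have hκ₁0 : 0 ≤ κ₁ := le_max_right _ _
  have hκ₁' : κ₁ < 2 / Real.pi := max_lt hκ (by positivity)
  set κ' : ℝ := (κ₁ + 2 / Real.pi) / 2 with hκ'
  have hκ'1 : κ₁ < κ' := by rw [hκ']; linarith
  have hκ'2 : κ' < 2 / Real.pi := by rw [hκ']; linarith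
  refine ⟨?_, ?_⟩
  · intro r₀
    by_contra hcon
    push Not at hcon
    obtain ⟨r₂, hr₂⟩ := hcount κ r₀ hcon κ' hκ'1
    obtain ⟨k, C₃, A, D, hk0, hk2, hC₃, hOG', hgrow⟩ :=
      valGen (evenz (logz factor) (even1 abelz)) (reduce (logz factor) (powz abelz)) shift G hGd 2
        (by norm_num) hGB hGne hOG κ' r₂ hκ'2 hr₂
    exact hcontra (7 / 4) (by norm_num) (by norm_num) C₃ k A D hC₃ hOG' hk0 hk2 hgrow
  · rintro ⟨C, r₁, hC⟩
    obtain ⟨r₂, hr₂⟩ := hcount C r₁ hC (max C 0 + 1) (by linarith)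
    obtain ⟨c', R', hR'⟩ := growZ plz (evenz (logz factor) (even1 abelz))
      (reduce (logz factor) (powz abelz)) shift G hGd 2 (by norm_num) hGB hGne hOG _ r₂ hr₂
    have hGrw : Grw G (|c'| + 2 * |R'|) := fun s =>
      (hR' s).trans (Real.exp_le_exp.mpr (fin2_grow _ _ _ (norm_nonneg s)))
    obtain ⟨A', hA', hor⟩ := val_vert tBas (tMan tBas (tLow tBas tAvg) (tEvb tBas)
      (tApr tBas tCnt tBnd (tLow tBas tAvg)) tScl tEvN tOut) tShf G hGd hGrw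
      (show (0 : ℝ) < 2 by norm_num) hGB hGne κ' hκ'2
    rcases hor with hmany | ⟨k, A₁, D, hk0, hk2, hgrow⟩
    · obtain ⟨A, hA, hAr⟩ := val_cmp (F₁ := fun s => iteratedDeriv j F s - P s) (G := G)
        ((val_ddiff hF j).sub hPd)
        (z₀ := 2 + c) hz₀ hc hordG hGne hκ₁0 hκ'1 hA' hmany
      refine ⟨A, hA, fun r₀ => ?_⟩
      obtain ⟨r, hr, hrS⟩ := hAr (max r₀ 1)
      have hr1 : 1 ≤ r := (le_max_right _ _).trans hr
      refine ⟨r, (le_max_left _ _).trans hr, lt_of_le_of_lt ?_ hrS⟩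
      exact mul_le_mul_of_nonneg_right (le_max_left _ _)
        (mul_nonneg (by linarith) (Real.log_nonneg hr1))
    · exact (hcontra (3 / 2) (by norm_num) (by norm_num) _ k A₁ D (by positivity)
        (Fin_ord hGrw) hk0 hk2 hgrow).elim

end MP7ed9c3.Vz
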