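import Pool.Agent.Lib.MP_7ed9c3_nt.Vz.Val1
import Pool.Agent.Lib.MP_7ed9c3_nt.Vz.Val2

/-!
# MP_7ed9c3_nt, part Vz: lemmas for the value distribution
-/

set_option autoImplicit false

namespace MP7ed9c3.Vz

open NumberField IsDedekindDomain Filter Topology MeasureTheory MP7ed9c3.Zr

theorem val_log {κ κ' c : ℝ} (hκ : 0 ≤ κ) (hκ' : κ < κ') (hc : 0 ≤ c) :
    ∃ A : ℝ, 0 ≤ A ∧ ∀ t : ℝ, 1 ≤ t →
      κ * ((t + c) * Real.log (t + c)) ≤ κ' * (t * Real.log t) + A := by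
  set T : ℝ := max 1 (c * κ / (κ' - κ)) with hT
  have hd : 0 < κ' - κ := by linarith
  have hT1 : 1 ≤ T := le_max_left _ _
  have hlT : 0 ≤ Real.log T := Real.log_nonneg hT1
  refine ⟨(c + c ^ 2) * κ + c * κ * Real.log T, by positivity, fun t ht => ?_⟩
  have ht0 : 0 < t := by linarith
  have hl0 : 0 ≤ Real.log t := Real.log_nonneg ht
  have h1 : Real.log (t + c) ≤ Real.log t + c / t := by
    have h2 : t + c = t * (1 + c / t) := by field_simp
    rw [h2, Real.log_mul ht0.ne' (by positivity)]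
    have := Real.log_le_sub_one_of_pos (show 0 < 1 + c / t by positivity)
    linarith
  have h2 : (t + c) * Real.log (t + c) ≤ t * Real.log t + c * Real.log t + (c + c ^ 2) := by
    have h3 : (t + c) * Real.log (t + c) ≤ (t + c) * (Real.log t + c / t) :=
      mul_le_mul_of_nonneg_left h1 (by linarith)
    have h4 : (t + c) * (c / t) ≤ c + c ^ 2 := by
      rw [mul_div_assoc', div_le_iff₀ ht0]
      nlinarith [mul_nonneg (sq_nonneg c) (sub_nonneg.2 ht)]
    linarith [mul_add (t + c) (Real.log t) (c / t), add_mul t c (Real.log t)]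
  have h3 : κ * (c * Real.log t) ≤ (κ' - κ) * (t * Real.log t) + c * κ * Real.log T := by
    rcases le_total T t with h | h
    · have h4 : c * κ ≤ (κ' - κ) * t := by
        have h5 : c * κ / (κ' - κ) ≤ t := (le_max_right _ _).trans h
        rw [div_le_iff₀ hd] at h5
        linarith
      have h6 := mul_le_mul_of_nonneg_right h4 hl0
      have h7 : 0 ≤ c * κ * Real.log T := by positivity
      linarith
    · have h4 : Real.log t ≤ Real.log T := Real.log_le_log ht0 h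
      have h5 : 0 ≤ (κ' - κ) * (t * Real.log t) := by positivity
      have h6 := mul_le_mul_of_nonneg_left h4 (by positivity : 0 ≤ c * κ)
      linarith
  have h4 := mul_le_mul_of_nonneg_left h2 hκ
  linarith

theorem val_ord {G : ℂ → ℂ} {C a : ℝ} (hC : 0 ≤ C) (ha : 1 ≤ a) (hG : Ord G C a) (α d : ℂ)
    {L : ℝ} (hL : 0 ≤ L) (E : ℂ → ℂ) (hE : ∀ s, ‖E s‖ ≤ Real.exp (L * (1 + ‖s‖))) :
    ∃ C' : ℝ, 0 ≤ C' ∧ Ord (fun s => α + E s * G (s + d)) C' a := by
  refine ⟨‖α‖ + L + C * (1 + ‖d‖) ^ a + 1, by positivity, fun s => ?_⟩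
  have hs1 : (1 : ℝ) ≤ 1 + ‖s‖ := by linarith [norm_nonneg s]
  set X : ℝ := (1 + ‖s‖) ^ a with hX
  have hX1 : 1 ≤ X := Real.one_le_rpow hs1 (by linarith)
  have hX2 : 1 + ‖s‖ ≤ X := by
    conv_lhs => rw [← Real.rpow_one (1 + ‖s‖)]
    exact Real.rpow_le_rpow_of_exponent_le hs1 ha
  have h1 : (1 + ‖s + d‖) ^ a ≤ (1 + ‖d‖) ^ a * X := by
    rw [hX, ← Real.mul_rpow (by positivity) (by positivity)]
    refine Real.rpow_le_rpow (by positivity) ?_ (by linarith)
    have := norm_add_le s d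
    nlinarith [norm_nonneg s, norm_nonneg d, mul_nonneg (norm_nonneg s) (norm_nonneg d)]
  have h2 : ‖G (s + d)‖ ≤ Real.exp (C * (1 + ‖d‖) ^ a * X) := by
    refine (hG (s + d)).trans (Real.exp_le_exp.2 ?_)
    have := mul_le_mul_of_nonneg_left h1 hC
    linarith
  have h3 : ‖E s‖ ≤ Real.exp (L * X) :=
    (hE s).trans (Real.exp_le_exp.2 (mul_le_mul_of_nonneg_left hX2 hL))
  have h4 : ‖E s * G (s + d)‖ ≤ Real.exp (L * X + C * (1 + ‖d‖) ^ a * X) := by
    rw [norm_mul, Real.exp_add]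
    exact mul_le_mul h3 h2 (norm_nonneg _) (Real.exp_pos _).le
  have h5 : ‖α‖ ≤ Real.exp (‖α‖ * X) := by
    have h6 : ‖α‖ ≤ ‖α‖ * X := le_mul_of_one_le_right (norm_nonneg _) hX1
    have h7 := Real.add_one_le_exp (‖α‖ * X)
    linarith
  have hx0 : 0 ≤ ‖α‖ * X := by positivity
  have hy0 : 0 ≤ L * X + C * (1 + ‖d‖) ^ a * X := by positivity
  have h8 : ∀ x y : ℝ, 0 ≤ x → 0 ≤ y → Real.exp x + Real.exp y ≤ Real.exp (x + y + 1) := by
    intro x y hx hy
    have e1 : Real.exp x ≤ Real.exp (x + y) := Real.exp_le_exp.2 (by linarith)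
    have e2 : Real.exp y ≤ Real.exp (x + y) := Real.exp_le_exp.2 (by linarith)
    have e3 : (2 : ℝ) ≤ Real.exp 1 := by linarith [Real.add_one_le_exp (1 : ℝ)]
    rw [Real.exp_add (x + y) 1]
    nlinarith [Real.exp_pos (x + y)]
  calc ‖α + E s * G (s + d)‖ ≤ ‖α‖ + ‖E s * G (s + d)‖ := norm_add_le _ _
    _ ≤ Real.exp (‖α‖ * X) + Real.exp (L * X + C * (1 + ‖d‖) ^ a * X) := add_le_add h5 h4
    _ ≤ Real.exp (‖α‖ * X + (L * X + C * (1 + ‖d‖) ^ a * X) + 1) := h8 _ _ hx0 hy0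
    _ ≤ _ := by
      refine Real.exp_le_exp.2 ?_
      have e : (‖α‖ + L + C * (1 + ‖d‖) ^ a + 1) * X =
        ‖α‖ * X + (L * X + C * (1 + ‖d‖) ^ a * X) + X := by ring
      rw [e]
      linarith

theorem val_count {F₁ : ℂ → ℂ} (hF₁ : Differentiable ℂ F₁) {z₀ : ℂ} (hz₀ : F₁ z₀ ≠ 0)
    {E : ℂ → ℂ} (hE : Differentiable ℂ E) (hEne : ∀ s, E s ≠ 0) {c : ℝ} (hc : 0 ≤ c) (r : ℝ) :
    ∑ᶠ ρ ∈ Metric.closedBall (0 : ℂ) r, analyticOrderNatAt (fun s => E s * F₁ (s + c)) ρ ≤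
      ∑ᶠ ρ ∈ Metric.closedBall (0 : ℂ) (r + c), analyticOrderNatAt F₁ ρ := by
  classical
  have hord : ∀ z, analyticOrderNatAt (fun s => E s * F₁ (s + c)) z =
      analyticOrderNatAt F₁ (z + c) := by
    intro z
    have h1 : (fun s => E s * F₁ (s + c)) = E * (F₁ ∘ fun s => s + c) := by
      ext s
      simp only [Pi.mul_apply, Function.comp_apply]
    have h2 : analyticOrderAt (fun s => E s * F₁ (s + c)) z = analyticOrderAt F₁ (z + c) := by
      rw [h1, analyticOrderAt_mul (hE.analyticAt z)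
        ((hF₁.comp (by fun_prop : Differentiable ℂ (fun z : ℂ => z + c))).analyticAt z)]
      have h3 : analyticOrderAt E z = 0 := analyticOrderAt_eq_zero.2 (Or.inr (hEne z))
      rw [h3, zero_add]
      exact analyticOrderAt_comp_of_deriv_ne_zero (by fun_prop) (by simp)
    rw [analyticOrderNatAt, analyticOrderNatAt, h2]
  have hsupp : ∀ ρ : ℂ, analyticOrderNatAt F₁ ρ ≠ 0 → F₁ ρ = 0 := fun ρ h =>
    apply_eq_zero_of_analyticOrderNatAt_ne_zero h
  have hfin : ∀ T : ℝ, {ρ : ℂ | ‖ρ‖ < T ∧ F₁ ρ = 0}.Finite := fun T => factor_finite hF₁ hz₀ T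
  have hfinG : (Metric.closedBall (0 : ℂ) r ∩
      Function.support (analyticOrderNatAt (fun s => E s * F₁ (s + c)))).Finite := by
    have h1 := (hfin (r + c + 1)).preimage (f := fun z : ℂ => z + c)
      (fun x _ y _ h => add_right_cancel h)
    refine h1.subset ?_
    intro ρ hρ
    refine ⟨?_, ?_⟩
    · have h2 : ‖ρ‖ ≤ r := by simpa using hρ.1
      have h3 := norm_add_le ρ (c : ℂ)
      rw [Complex.norm_real, Real.norm_eq_abs, abs_of_nonneg hc] at h3
      show ‖ρ + c‖ < r + c + 1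
      linarith
    · apply hsupp
      rw [← hord]
      exact hρ.2
  rw [finsum_mem_eq_sum _ hfinG]
  have h2 : ∑ ρ ∈ hfinG.toFinset, analyticOrderNatAt (fun s => E s * F₁ (s + c)) ρ =
      ∑ s ∈ hfinG.toFinset.image (fun ρ => ρ + (c : ℂ)), analyticOrderNatAt F₁ s := by
    rw [Finset.sum_image (fun x _ y _ h => add_right_cancel h)]
    exact Finset.sum_congr rfl (fun ρ _ => hord ρ)
  rw [h2]
  apply shift_sum_le_nat
  · apply (hfin (r + c + 1)).subset
    intro ρ hρ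
    refine ⟨?_, hsupp ρ hρ.2⟩
    have : ‖ρ‖ ≤ r + c := by simpa using hρ.1
    linarith
  · intro x hx
    rw [Finset.mem_image] at hx
    obtain ⟨ρ, hρ, rfl⟩ := hx
    rw [Set.Finite.mem_toFinset] at hρ
    have h2 : ‖ρ‖ ≤ r := by simpa using hρ.1
    have h3 := norm_add_le ρ (c : ℂ)
    rw [Complex.norm_real, Real.norm_eq_abs, abs_of_nonneg hc] at h3
    rw [mem_closedBall_zero_iff]
    linarith

theorem val_edge (a : ℕ → ℂ) (ha0 : a 0 = 0)
    (hs : Summable (fun n : ℕ => ‖a n‖ * (n : ℝ) ^ (-(2 : ℝ)))) (hne : ∃ n, a n ≠ 0) :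
    ∃ m : ℕ, 1 ≤ m ∧ a m ≠ 0 ∧ ∃ c : ℝ, 0 ≤ c ∧ ∀ z : ℂ, c ≤ z.re →
      ‖(m : ℂ) ^ z / a m * (∑' n : ℕ, a n * (n : ℂ) ^ (-z)) - 1‖ ≤ 1 / 2 := by
  classical
  obtain ⟨m, hma, hmin⟩ : ∃ m, a m ≠ 0 ∧ ∀ n, n < m → a n = 0 :=
    ⟨Nat.find hne, Nat.find_spec hne, fun n hn => by
      by_contra h
      exact Nat.find_min hne hn h⟩
  have hm1 : 1 ≤ m := by
    rcases Nat.eq_zero_or_pos m with h | h
    · rw [h] at hma
      exact absurd ha0 hma
    · exact h
  have hm0 : (0 : ℝ) < m := by exact_mod_cast hm1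
  have hmc : (m : ℂ) ≠ 0 := by exact_mod_cast (by omega : m ≠ 0)
  have hna : 0 < ‖a m‖ := norm_pos_iff.2 hma
  set S : ℝ := ∑' n : ℕ, ‖a n‖ * (n : ℝ) ^ (-(2 : ℝ)) with hS
  have hS0 : 0 ≤ S := tsum_nonneg fun n => by positivity
  set q : ℝ := (m : ℝ) / (m + 1) with hq
  have hq0 : 0 < q := by positivity
  have hq1 : q < 1 := by
    rw [hq, div_lt_one (by positivity)]
    linarith
  set K : ℝ := (m : ℝ) ^ (2 : ℝ) / ‖a m‖ with hK
  have hK0 : 0 ≤ K := by positivity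
  obtain ⟨T, hT⟩ : ∃ T : ℕ, q ^ T * (K * S) ≤ 1 / 2 := by
    have h1 : Tendsto (fun T : ℕ => q ^ T * (K * S)) atTop (𝓝 (0 * (K * S))) :=
      (tendsto_pow_atTop_nhds_zero_of_lt_one hq0.le hq1).mul_const _
    rw [zero_mul] at h1
    obtain ⟨T, hT⟩ := (h1.eventually (ge_mem_nhds (show (0 : ℝ) < 1 / 2 by norm_num))).exists
    exact ⟨T, hT⟩
  refine ⟨m, hm1, hma, 2 + T, by positivity, fun z hz => ?_⟩
  have hzsum : Summable (fun n : ℕ => a n * (n : ℂ) ^ (-z)) := by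
    refine Summable.of_norm (Summable.of_nonneg_of_le (fun n => norm_nonneg _) (fun n => ?_) hs)
    rcases Nat.eq_zero_or_pos n with h | h
    · rw [h, ha0]
      simp
    · have hn1 : (1 : ℝ) ≤ n := by exact_mod_cast h
      rw [norm_mul, Complex.norm_natCast_cpow_of_pos h]
      refine mul_le_mul_of_nonneg_left ?_ (norm_nonneg _)
      refine Real.rpow_le_rpow_of_exponent_le hn1 ?_
      have : (0 : ℝ) ≤ T := by positivity
      simp only [Complex.neg_re]
      linarith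
  have hmul : (m : ℂ) ^ z / a m * (∑' n : ℕ, a n * (n : ℂ) ^ (-z)) - 1 =
      ∑' n : ℕ, ((m : ℂ) ^ z / a m * (a n * (n : ℂ) ^ (-z)) - (if n = m then 1 else 0)) := by
    rw [Summable.tsum_sub (hzsum.mul_left _) (summable_of_ne_finset_zero (s := {m}) (by
      intro n hn
      simp only [Finset.mem_singleton] at hn
      simp [hn])), tsum_mul_left, tsum_ite_eq]
  rw [hmul]
  refine (tsum_of_norm_bounded ((hs.hasSum).mul_left (q ^ T * K)) fun n => ?_).trans ?_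
  · rcases lt_trichotomy n m with h | h | h
    · rw [hmin n h]
      simp [h.ne]
    · rw [h]
      have e1 : (m : ℂ) ^ z / a m * (a m * (m : ℂ) ^ (-z)) - (if m = m then 1 else 0) = 0 := by
        rw [Complex.cpow_neg]
        have h2 : (m : ℂ) ^ z ≠ 0 := by
          rw [Complex.cpow_def_of_ne_zero hmc]
          exact Complex.exp_ne_zero _
        field_simp
        simp
      rw [e1, norm_zero]
      positivity
    · have hn0 : 0 < n := by omega
      have hn0' : (0 : ℝ) < n := by exact_mod_cast hn0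
      rw [if_neg (by omega), sub_zero, norm_mul, norm_mul, norm_div,
        Complex.norm_natCast_cpow_of_pos hn0, Complex.norm_natCast_cpow_of_pos (by omega),
        Complex.neg_re]
      have h3 : (m : ℝ) ^ z.re * (n : ℝ) ^ (-z.re) = ((m : ℝ) / n) ^ z.re := by
        rw [Real.rpow_neg hn0'.le, Real.div_rpow hm0.le hn0'.le, div_eq_mul_inv]
      have h4 : (m : ℝ) / n ≤ q := by
        rw [hq]
        refine div_le_div_of_nonneg_left hm0.le (by positivity) ?_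
        exact_mod_cast h
      have h5 : ((m : ℝ) / n) ^ z.re ≤ ((m : ℝ) / n) ^ ((2 : ℝ) + T) :=
        Real.rpow_le_rpow_of_exponent_ge (by positivity) (h4.trans hq1.le) hz
      have h6 : ((m : ℝ) / n) ^ ((2 : ℝ) + T) = ((m : ℝ) / n) ^ (2 : ℝ) * ((m : ℝ) / n) ^ T := by
        rw [Real.rpow_add (by positivity), Real.rpow_natCast]
      have h7 : ((m : ℝ) / n) ^ T ≤ q ^ T := pow_le_pow_left₀ (by positivity) h4 T
      have h8 : ((m : ℝ) / n) ^ z.re ≤ ((m : ℝ) / n) ^ (2 : ℝ) * q ^ T := by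
        rw [h6] at h5
        exact h5.trans (mul_le_mul_of_nonneg_left h7 (by positivity))
      have h9 : ((m : ℝ) / n) ^ (2 : ℝ) = (m : ℝ) ^ (2 : ℝ) * (n : ℝ) ^ (-(2 : ℝ)) := by
        rw [Real.rpow_neg hn0'.le, Real.div_rpow hm0.le hn0'.le, div_eq_mul_inv]
      calc (m : ℝ) ^ z.re / ‖a m‖ * (‖a n‖ * (n : ℝ) ^ (-z.re)) =
          ‖a n‖ / ‖a m‖ * ((m : ℝ) ^ z.re * (n : ℝ) ^ (-z.re)) := by ring
        _ = ‖a n‖ / ‖a m‖ * ((m : ℝ) / n) ^ z.re := by rw [h3]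
        _ ≤ ‖a n‖ / ‖a m‖ * (((m : ℝ) / n) ^ (2 : ℝ) * q ^ T) :=
            mul_le_mul_of_nonneg_left h8 (by positivity)
        _ = q ^ T * K * (‖a n‖ * (n : ℝ) ^ (-(2 : ℝ))) := by
            rw [h9, hK]
            ring
  · rw [← hS]
    linarith

end MP7ed9c3.Vz
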