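import Pool.Agent.Lib.MP_7ed9c3_nt.Vz.Val3
import Pool.Agent.Lib.MP_7ed9c3_nt.Zr.All
import Pool.Agent.Lib.MP_7ed9c3_nt.Vz.Fin2

/-!
# MP_7ed9c3_nt, part Vz: the number of the solutions of `F(s) = w`
-/

set_option autoImplicit false

namespace MP7ed9c3.Vz

open NumberField IsDedekindDomain Filter Topology MeasureTheory MP7ed9c3.Zr

/-- The reduction of `F - w` to a function with value `1` at `+∞`. -/
theorem val_red {F : ℂ → ℂ} (hF : Differentiable ℂ F) {C a : ℝ} (hC : 0 ≤ C) (ha : 1 ≤ a)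
    (hO : Ord F C a) (w : ℂ) {m : ℕ} (hm : 1 ≤ m) {e : ℂ} (he : e ≠ 0) {c : ℝ} (hc : 0 ≤ c)
    (hedge : ∀ s : ℂ, 3 / 2 < s.re → ‖(m : ℂ) ^ (s + c) / e * (F (s + c) - w) - 1‖ ≤ 1 / 2)
    (κ r₀ : ℝ) (hκ : κ < 2 / Real.pi)
    (hcon : ∀ r : ℝ, r₀ ≤ r →
      ((∑ᶠ ρ ∈ Metric.closedBall (0 : ℂ) r, analyticOrderNatAt (fun s => F s - w) ρ : ℕ) : ℝ) ≤
        κ * (r * Real.log r)) :
    ∃ k C₄ A D : ℝ, 0 ≤ k ∧ k < 2 ∧ Ord F C₄ (7 / 4) ∧
      ∀ r : ℝ, 3 ≤ r → ‖F (3 + (-(r : ℂ)))‖ ≤ Real.exp (k * (r * Real.log r) + A * r + D) := by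
  have hpi := Real.pi_pos
  have hm0 : (0 : ℝ) < m := by exact_mod_cast hm
  have hmn : 0 < m := by omega
  have hmc : (m : ℂ) ≠ 0 := by exact_mod_cast (by omega : m ≠ 0)
  have hlm : 0 ≤ Real.log m := Real.log_nonneg (by exact_mod_cast hm)
  have hne : 0 < ‖e‖ := norm_pos_iff.2 he
  set F₁ : ℂ → ℂ := fun s => F s - w with hF₁
  have hF₁d : Differentiable ℂ F₁ := hF.sub_const w
  set E₁ : ℂ → ℂ := fun s => (m : ℂ) ^ (s + c) / e with hE₁
  have hE₁d : Differentiable ℂ E₁ := by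
    refine Differentiable.div_const (Differentiable.const_cpow (by fun_prop) (Or.inl hmc)) _
  have hcp : ∀ s : ℂ, (m : ℂ) ^ s ≠ 0 := fun s => by
    rw [Complex.cpow_def_of_ne_zero hmc]
    exact Complex.exp_ne_zero _
  have hE₁ne : ∀ s, E₁ s ≠ 0 := fun s => div_ne_zero (hcp _) he
  set G : ℂ → ℂ := fun s => E₁ s * F₁ (s + c) with hG
  have hGd : Differentiable ℂ G := hE₁d.mul (hF₁d.comp (by fun_prop))
  have hG1 : ∀ s : ℂ, 3 / 2 < s.re → ‖G s - 1‖ ≤ 1 / 2 := hedge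
  have hGlo : ∀ s : ℂ, 3 / 2 < s.re → 1 / 2 ≤ ‖G s‖ := by
    intro s hs
    have h1 := hG1 s hs
    have h2 : ‖(1 : ℂ)‖ ≤ ‖G s‖ + ‖G s - 1‖ := by
      have := norm_sub_le (G s) (G s - 1)
      simpa using this
    rw [norm_one] at h2
    linarith
  have hGhi : ∀ s : ℂ, 3 / 2 < s.re → ‖G s‖ ≤ 2 := by
    intro s hs
    have h1 := hG1 s hs
    have h2 : ‖G s‖ ≤ ‖G s - 1‖ + ‖(1 : ℂ)‖ := by
      have := norm_add_le (G s - 1) 1
      simpa using this
    rw [norm_one] at h2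
    linarith
  have hGB : ∀ s : ℂ, 2 ≤ s.re → (2 : ℝ)⁻¹ ≤ ‖G s‖ ∧ ‖G s‖ ≤ 2 := by
    intro s hs
    refine ⟨?_, hGhi s (by linarith)⟩
    have := hGlo s (by linarith)
    linarith
  have hGne : ∀ s : ℂ, 3 / 2 < s.re → G s ≠ 0 := by
    intro s hs h
    have := hGlo s hs
    rw [h, norm_zero] at this
    linarith
  -- the order of `G`
  have hOG : ∃ C a : ℝ, ∀ s : ℂ, ‖G s‖ ≤ Real.exp (C * (1 + ‖s‖) ^ a) := by
    obtain ⟨C₁, hC₁, h1⟩ := val_ord hC ha hO (-w) 0 (L := 0) le_rfl (fun _ => 1)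
      (fun s => by simp)
    have h1' : Ord F₁ C₁ a := fun s => by
      have h2 := h1 s
      have h3 : -w + 1 * F (s + 0) = F₁ s := by
        rw [hF₁, add_zero]
        ring
      simp only [h3] at h2
      exact h2
    obtain ⟨C₂, hC₂, h2⟩ := val_ord hC₁ ha h1' 0 (c : ℂ)
      (L := Real.log m * (1 + c) + ‖e‖⁻¹) (by positivity) E₁ (fun s => by
        rw [hE₁]
        simp only
        rw [norm_div, Complex.norm_natCast_cpow_of_pos hmn, div_eq_mul_inv,
          Real.rpow_def_of_pos hm0]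
        have h4 : (s + (c : ℂ)).re ≤ (1 + c) * (1 + ‖s‖) := by
          rw [Complex.add_re, Complex.ofReal_re]
          have := Complex.re_le_norm s
          nlinarith [norm_nonneg s, mul_nonneg hc (norm_nonneg s)]
        have h5 : Real.exp (Real.log m * (s + (c : ℂ)).re) ≤
            Real.exp (Real.log m * ((1 + c) * (1 + ‖s‖))) :=
          Real.exp_le_exp.2 (mul_le_mul_of_nonneg_left h4 hlm)
        have h6 : ‖e‖⁻¹ ≤ Real.exp (‖e‖⁻¹ * (1 + ‖s‖)) := by
          have h7 := Real.add_one_le_exp (‖e‖⁻¹ * (1 + ‖s‖))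
          have h8 : 0 < ‖e‖⁻¹ := by positivity
          nlinarith [norm_nonneg s, mul_nonneg h8.le (norm_nonneg s)]
        calc Real.exp (Real.log m * (s + (c : ℂ)).re) * ‖e‖⁻¹ ≤
            Real.exp (Real.log m * ((1 + c) * (1 + ‖s‖))) * Real.exp (‖e‖⁻¹ * (1 + ‖s‖)) :=
              mul_le_mul h5 h6 (by positivity) (Real.exp_pos _).le
          _ = Real.exp ((Real.log m * (1 + c) + ‖e‖⁻¹) * (1 + ‖s‖)) := by
              rw [← Real.exp_add]
              congr 1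
              ring)
    refine ⟨C₂, a, fun s => ?_⟩
    have h3 := h2 s
    simp only [zero_add] at h3
    exact h3
  -- the number of the zeros of `G`
  set κ₁ : ℝ := max κ 0 with hκ₁
  have hκ₁0 : 0 ≤ κ₁ := le_max_right _ _
  have hκ₁' : κ₁ < 2 / Real.pi := max_lt hκ (by positivity)
  set κ' : ℝ := (κ₁ + 2 / Real.pi) / 2 with hκ'
  have hκ'1 : κ₁ < κ' := by rw [hκ']; linarith
  have hκ'2 : κ' < 2 / Real.pi := by rw [hκ']; linarith
  set κ'' : ℝ := (κ' + 2 / Real.pi) / 2 with hκ''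
  have hκ''1 : κ' < κ'' := by rw [hκ'']; linarith
  have hκ''2 : κ'' < 2 / Real.pi := by rw [hκ'']; linarith
  obtain ⟨A₀, hA₀, hsl⟩ := val_log hκ₁0 hκ'1 hc
  have hz₀ : F₁ (2 + c) ≠ 0 := by
    intro h
    apply hGne 2 (by norm_num)
    rw [hG]
    simp only
    rw [h, mul_zero]
  have hcount : ∀ r : ℝ, max (max r₀ 3) (A₀ / (κ'' - κ')) ≤ r →
      ((∑ᶠ ρ ∈ Metric.closedBall (0 : ℂ) r, analyticOrderNatAt G ρ : ℕ) : ℝ) ≤
        κ'' * (r * Real.log r) := by
    intro r hr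
    have hr0 : r₀ ≤ r := (le_max_left _ _).trans ((le_max_left _ _).trans hr)
    have hr3 : 3 ≤ r := (le_max_right _ _).trans ((le_max_left _ _).trans hr)
    have hrA : A₀ / (κ'' - κ') ≤ r := (le_max_right _ _).trans hr
    have h1 := val_count hF₁d hz₀ hE₁d hE₁ne hc r
    have h2 : ((∑ᶠ ρ ∈ Metric.closedBall (0 : ℂ) r, analyticOrderNatAt G ρ : ℕ) : ℝ) ≤
        ((∑ᶠ ρ ∈ Metric.closedBall (0 : ℂ) (r + c), analyticOrderNatAt F₁ ρ : ℕ) : ℝ) := by
      exact_mod_cast h1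
    have h3 := hcon (r + c) (by linarith)
    have hl : 0 ≤ Real.log (r + c) := Real.log_nonneg (by linarith)
    have h4 : κ * ((r + c) * Real.log (r + c)) ≤ κ₁ * ((r + c) * Real.log (r + c)) :=
      mul_le_mul_of_nonneg_right (le_max_left _ _) (by positivity)
    have h5 := hsl r (by linarith)
    have hl1 : 1 ≤ Real.log r := by
      have h6 : Real.exp 1 ≤ 3 := by linarith [Real.exp_one_lt_d9]
      rw [← Real.log_exp 1]
      exact Real.log_le_log (Real.exp_pos _) (h6.trans hr3)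
    have h6 : A₀ ≤ (κ'' - κ') * (r * Real.log r) := by
      have hd : 0 < κ'' - κ' := by linarith
      rw [div_le_iff₀ hd] at hrA
      have h7 : r ≤ r * Real.log r := le_mul_of_one_le_right (by linarith) hl1
      have h8 := mul_le_mul_of_nonneg_left h7 hd.le
      linarith
    have h7 : (κ'' - κ') * (r * Real.log r) = κ'' * (r * Real.log r) - κ' * (r * Real.log r) := by
      ring
    linarith
  obtain ⟨k, C₃, A, D, hk0, hk2, hC₃, hOG', hgrow⟩ :=
    valGen (evenz (logz factor) (even1 abelz)) (reduce (logz factor) (powz abelz)) shift G hGd 2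
      (by norm_num) hGB hGne hOG κ'' _ hκ''2 hcount
  -- back to `F`
  have hback : ∀ s : ℂ, F s = w + e * (m : ℂ) ^ (-s) * G (s + (-(c : ℂ))) := by
    intro s
    have h1 : s + (-(c : ℂ)) + c = s := by ring
    rw [hG]
    simp only
    rw [hE₁, hF₁]
    simp only
    rw [h1, Complex.cpow_neg]
    have := hcp s
    field_simp
    ring
  have hE₂ : ∀ s : ℂ, ‖e * (m : ℂ) ^ (-s)‖ ≤ Real.exp (‖e‖ + Real.log m * ‖s‖) := by
    intro s
    rw [norm_mul, Complex.norm_natCast_cpow_of_pos hmn, Real.rpow_def_of_pos hm0, Real.exp_add]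
    have h1 : ‖e‖ ≤ Real.exp ‖e‖ := by linarith [Real.add_one_le_exp ‖e‖]
    have h2 : (-s).re ≤ ‖s‖ := by
      rw [← norm_neg]
      exact Complex.re_le_norm _
    exact mul_le_mul h1 (Real.exp_le_exp.2 (mul_le_mul_of_nonneg_left h2 hlm))
      (Real.exp_pos _).le (Real.exp_pos _).le
  obtain ⟨C₄, hC₄, hOF⟩ := val_ord hC₃ (by norm_num) hOG' w (-(c : ℂ)) (L := ‖e‖ + Real.log m)
    (by positivity) (fun s => e * (m : ℂ) ^ (-s)) (fun s => by
      refine (hE₂ s).trans (Real.exp_le_exp.2 ?_)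
      nlinarith [norm_nonneg s, mul_nonneg hne.le (norm_nonneg s)])
  have hOF' : Ord F C₄ (7 / 4) := fun s => by
    have h1 := hOF s
    simp only [← hback s] at h1
    exact h1
  -- the growth of `F`
  set k' : ℝ := (k + 2) / 2 with hk'
  have hk'1 : k < k' := by rw [hk']; linarith
  have hk'2 : k' < 2 := by rw [hk']; linarith
  obtain ⟨A₂, hA₂, hsl2⟩ := val_log hk0 hk'1 hc
  set D₁ : ℝ := ‖e‖ + 3 * Real.log m + A₂ + |A| * c + |D| with hD₁
  have hD₁0 : 0 ≤ D₁ := by positivity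
  refine ⟨k', C₄, Real.log m + |A|, ‖w‖ + D₁, by linarith, hk'2, hOF', fun r hr => ?_⟩
  have hr0 : 0 ≤ r := by linarith
  have hlr : 0 ≤ Real.log r := Real.log_nonneg (by linarith)
  have h1 := hgrow (r + c) (by linarith)
  have h2 : (3 : ℂ) + (-(r : ℂ)) + (-(c : ℂ)) = 3 + (-((r + c : ℝ) : ℂ)) := by
    push_cast
    ring
  have h3 : Real.exp (k * ((r + c) * Real.log (r + c)) + A * (r + c) + D) ≤
      Real.exp (k' * (r * Real.log r) + A₂ + |A| * r + |A| * c + |D|) := by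
    refine Real.exp_le_exp.2 ?_
    have h4 := hsl2 r (by linarith)
    have h5 : A * (r + c) ≤ |A| * (r + c) :=
      mul_le_mul_of_nonneg_right (le_abs_self A) (by linarith)
    have h6 := le_abs_self D
    linarith
  have h4 := hE₂ (3 + (-(r : ℂ)))
  have h5 : ‖(3 : ℂ) + (-(r : ℂ))‖ ≤ 3 + r := by
    have := norm_add_le (3 : ℂ) (-(r : ℂ))
    rw [norm_neg, Complex.norm_real, Real.norm_eq_abs, abs_of_nonneg hr0,
      Complex.norm_ofNat] at this
    exact this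
  have h6 : ‖e * (m : ℂ) ^ (-(3 + (-(r : ℂ))))‖ ≤ Real.exp (‖e‖ + Real.log m * (3 + r)) := by
    refine h4.trans (Real.exp_le_exp.2 ?_)
    have := mul_le_mul_of_nonneg_left h5 hlm
    linarith
  have h7 : ‖e * (m : ℂ) ^ (-(3 + (-(r : ℂ)))) * G (3 + (-(r : ℂ)) + (-(c : ℂ)))‖ ≤
      Real.exp (k' * (r * Real.log r) + (Real.log m + |A|) * r + D₁) := by
    rw [norm_mul, h2]
    refine (mul_le_mul h6 (h1.trans h3) (norm_nonneg _) (Real.exp_pos _).le).trans ?_
    rw [← Real.exp_add]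
    refine Real.exp_le_exp.2 (le_of_eq ?_)
    rw [hD₁]
    ring
  have hy0 : 0 ≤ k' * (r * Real.log r) + (Real.log m + |A|) * r + D₁ := by
    have : 0 ≤ k' := by linarith
    positivity
  rw [hback (3 + (-(r : ℂ)))]
  refine (norm_add_le _ _).trans ?_
  have h8 : ∀ y : ℝ, 0 ≤ y → ‖w‖ + Real.exp y ≤ Real.exp (‖w‖ + y) := by
    intro y hy
    rw [Real.exp_add]
    have e1 := Real.add_one_le_exp ‖w‖
    have e2 := Real.one_le_exp hy
    nlinarith [norm_nonneg w]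
  have h9 := h8 _ hy0
  have h10 : k' * (r * Real.log r) + (Real.log m + |A|) * r + (‖w‖ + D₁) =
      ‖w‖ + (k' * (r * Real.log r) + (Real.log m + |A|) * r + D₁) := by ring
  rw [h10]
  linarith

/-- **Every value `w` is taken more than `κ r log r` times.** -/
theorem valAll (K : Type) [Field K] [NumberField K] (E : WeierstrassCurve K) (hE : E.IsElliptic)
    (M : HeightOneSpectrum (𝓞 K) → WeierstrassCurve (𝓞 K)) (hM : ∀ v, IsMinAt E v (M v))
    (F : ℂ → ℂ) (hF : Differentiable ℂ F)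
    (hFE : ∀ s : ℂ, 3 / 2 < s.re → F s = ∏' v : HeightOneSpectrum (𝓞 K), (locDen (M v) v s)⁻¹)
    (hord : ∃ C a : ℝ, ∀ s : ℂ, ‖F s‖ ≤ Real.exp (C * (1 + ‖s‖) ^ a)) (κ : ℝ)
    (hκ : κ < 2 / Real.pi) (w : ℂ) (r₀ : ℝ) : ∃ r : ℝ, r₀ ≤ r ∧ κ * (r * Real.log r) <
      ((∑ᶠ ρ ∈ Metric.closedBall (0 : ℂ) r, analyticOrderNatAt (fun s => F s - w) ρ : ℕ) : ℝ) := by
  classical
  by_contra hcon
  push_neg at hcon
  obtain ⟨b, hb0, hbs, hbeq, hbu⟩ := valCoef K E hE M hM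
  set a : ℕ → ℂ := fun n => (b n : ℂ) - (if n = 1 then w else 0) with ha
  have ha0 : a 0 = 0 := by simp [ha, hb0]
  have han : ∀ n, n ≠ 1 → a n = (b n : ℂ) := fun n hn => by
    simp [ha, hn]
  have ha1 : a 1 = (b 1 : ℂ) - w := by simp [ha]
  have hne : ∃ n, a n ≠ 0 := by
    by_contra h
    push_neg at h
    apply hbu
    refine ⟨|b 1|, fun n => ?_⟩
    by_cases hn : n = 1
    · rw [hn]
    · have h1 := h n
      rw [han n hn] at h1
      have h2 : b n = 0 := by exact_mod_cast h1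
      rw [h2]
      simp
  have hsum : Summable (fun n : ℕ => ‖a n‖ * (n : ℝ) ^ (-(2 : ℝ))) := by
    have h1 : Summable (fun n : ℕ =>
        |(b n : ℝ)| * (n : ℝ) ^ (-(2 : ℝ)) + (if n = 1 then ‖w‖ else 0)) :=
      (hbs 2 (by norm_num)).add (summable_of_ne_finset_zero (s := {1}) (by
        intro n hn
        simp only [Finset.mem_singleton] at hn
        simp [hn]))
    refine Summable.of_nonneg_of_le (fun n => by positivity) (fun n => ?_) h1
    by_cases hn : n = 1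
    · rw [hn, ha1]
      have h2 := norm_sub_le ((b 1 : ℤ) : ℂ) w
      rw [Complex.norm_intCast] at h2
      simpa using h2
    · rw [han n hn, Complex.norm_intCast, if_neg hn, add_zero]
  obtain ⟨m, hm1, hma, c, hc, hedge⟩ := val_edge a ha0 hsum hne
  -- `F z - w` is the Dirichlet series of `a`
  have hser : ∀ z : ℂ, 3 / 2 < z.re → F z - w = ∑' n : ℕ, a n * (n : ℂ) ^ (-z) := by
    intro z hz
    have hbz : Summable (fun n : ℕ => (b n : ℂ) * (n : ℂ) ^ (-z)) := by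
      refine Summable.of_norm (Summable.of_nonneg_of_le (fun n => norm_nonneg _) (fun n => ?_)
        (hbs z.re hz))
      rcases Nat.eq_zero_or_pos n with h | h
      · rw [h, hb0]
        simp
      · rw [norm_mul, Complex.norm_natCast_cpow_of_pos h, Complex.norm_intCast, Complex.neg_re]
    have h1 : ∀ n : ℕ, a n * (n : ℂ) ^ (-z) =
        (b n : ℂ) * (n : ℂ) ^ (-z) - (if n = 1 then w else 0) := by
      intro n
      by_cases hn : n = 1
      · rw [hn, ha1]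
        simp
      · rw [han n hn, if_neg hn, sub_zero]
    rw [hFE z hz, hbeq z hz]
    simp_rw [h1]
    rw [Summable.tsum_sub hbz (summable_of_ne_finset_zero (s := {1}) (by
      intro n hn
      simp only [Finset.mem_singleton] at hn
      simp [hn])), tsum_ite_eq]
  have hedge' : ∀ s : ℂ, 3 / 2 < s.re →
      ‖(m : ℂ) ^ (s + c) / a m * (F (s + c) - w) - 1‖ ≤ 1 / 2 := by
    intro s hs
    have hre : (s + (c : ℂ)).re = s.re + c := by simp
    rw [hser (s + c) (by rw [hre]; linarith)]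
    exact hedge (s + c) (by rw [hre]; linarith)
  -- the finite order
  obtain ⟨C₀, a₀, hO⟩ := hord
  have hO' : Ord F |C₀| (max a₀ 1) := fun s => by
    refine (hO s).trans (Real.exp_le_exp.2 ?_)
    have h1 : (1 : ℝ) ≤ 1 + ‖s‖ := by linarith [norm_nonneg s]
    have h2 : (1 + ‖s‖) ^ a₀ ≤ (1 + ‖s‖) ^ (max a₀ 1) :=
      Real.rpow_le_rpow_of_exponent_le h1 (le_max_left _ _)
    calc C₀ * (1 + ‖s‖) ^ a₀ ≤ |C₀| * (1 + ‖s‖) ^ a₀ :=
          mul_le_mul_of_nonneg_right (le_abs_self _) (by positivity)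
      _ ≤ |C₀| * (1 + ‖s‖) ^ (max a₀ 1) := mul_le_mul_of_nonneg_left h2 (abs_nonneg _)
  obtain ⟨k, C₄, A, D, hk0, hk2, hOF, hgrow⟩ := val_red hF (abs_nonneg C₀) (le_max_right _ _) hO'
    w hm1 hma hc hedge' κ r₀ hκ hcon
  obtain ⟨B, hB, hBs⟩ := edgez K E hE M hM
  exact contra plz K E hE M hM F hF hFE hOF (by norm_num) (fun s hs => by
    rw [hFE s (by linarith)]
    exact (hBs s hs).2) hk2 hk0 hgrow

end MP7ed9c3.Vz
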