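import Pool.Agent.Lib.MP_7ed9c3_nt.Vz.Val3
import Pool.Agent.Lib.MP_7ed9c3_nt.Zr.All
import Pool.Agent.Lib.MP_7ed9c3_nt.Vz.Fin2
import Pool.Agent.Lib.MP_7ed9c3_nt.Vz.Fin

/-!
# MP_7ed9c3_nt, part Vz: reduction of `F - P` for a Dirichlet polynomial `P`
-/

set_option autoImplicit false

namespace MP7ed9c3.Vz

open NumberField IsDedekindDomain Filter Topology MeasureTheory MP7ed9c3.Zr

theorem val_ordP {G : ℂ → ℂ} {C a : ℝ} (hC : 0 ≤ C) (ha : 1 ≤ a) (hG : Ord G C a) (P : ℂ → ℂ)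
    {L' : ℝ} (hL' : 0 ≤ L') (hP : ∀ s, ‖P s‖ ≤ Real.exp (L' * (1 + ‖s‖))) (d : ℂ)
    {L : ℝ} (hL : 0 ≤ L) (E : ℂ → ℂ) (hE : ∀ s, ‖E s‖ ≤ Real.exp (L * (1 + ‖s‖))) :
    ∃ C' : ℝ, 0 ≤ C' ∧ Ord (fun s => P s + E s * G (s + d)) C' a := by
  refine ⟨L' + L + C * (1 + ‖d‖) ^ a + 1, by positivity, fun s => ?_⟩
  have hs1 : (1 : ℝ) ≤ 1 + ‖s‖ := by linarith [norm_nonneg s]
  set X : ℝ := (1 + ‖s‖) ^ a with hX
  have hX1 : 1 ≤ X := Real.one_le_rpow hs1 (by linarith)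
  have hX2 : 1 + ‖s‖ ≤ X := by
    conv_lhs => rw [← Real.rpow_one (1 + ‖s‖)]
    exact Real.rpow_le_rpow_of_exponent_le hs1 ha
  have h1 : (1 + ‖s + d‖) ^ a ≤ (1 + ‖d‖) ^ a * X := by
    rw [hX, ← Real.mul_rpow (by positivity) (by positivity)]
    refine Real.rpow_le_rpow (by positivity) ?_ (by linarith)
    have := norm_add_le s d
    nlinarith [norm_nonneg s, norm_nonneg d, mul_nonneg (norm_nonneg s) (norm_nonneg d)]
  have h2 : ‖G (s + d)‖ ≤ Real.exp (C * (1 + ‖d‖) ^ a * X) := by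
    refine (hG (s + d)).trans (Real.exp_le_exp.2 ?_)
    have := mul_le_mul_of_nonneg_left h1 hC
    linarith
  have h3 : ‖E s‖ ≤ Real.exp (L * X) :=
    (hE s).trans (Real.exp_le_exp.2 (mul_le_mul_of_nonneg_left hX2 hL))
  have h4 : ‖E s * G (s + d)‖ ≤ Real.exp (L * X + C * (1 + ‖d‖) ^ a * X) := by
    rw [norm_mul, Real.exp_add]
    exact mul_le_mul h3 h2 (norm_nonneg _) (Real.exp_pos _).le
  have h5 : ‖P s‖ ≤ Real.exp (L' * X) :=
    (hP s).trans (Real.exp_le_exp.2 (mul_le_mul_of_nonneg_left hX2 hL'))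
  have hx0 : 0 ≤ L' * X := by positivity
  have hy0 : 0 ≤ L * X + C * (1 + ‖d‖) ^ a * X := by positivity
  have h8 : ∀ x y : ℝ, 0 ≤ x → 0 ≤ y → Real.exp x + Real.exp y ≤ Real.exp (x + y + 1) := by
    intro x y hx hy
    have e1 : Real.exp x ≤ Real.exp (x + y) := Real.exp_le_exp.2 (by linarith)
    have e2 : Real.exp y ≤ Real.exp (x + y) := Real.exp_le_exp.2 (by linarith)
    have e3 : (2 : ℝ) ≤ Real.exp 1 := by linarith [Real.add_one_le_exp (1 : ℝ)]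
    rw [Real.exp_add (x + y) 1]
    nlinarith [Real.exp_pos (x + y)]
  calc ‖P s + E s * G (s + d)‖ ≤ ‖P s‖ + ‖E s * G (s + d)‖ := norm_add_le _ _
    _ ≤ Real.exp (L' * X) + Real.exp (L * X + C * (1 + ‖d‖) ^ a * X) := add_le_add h5 h4
    _ ≤ Real.exp (L' * X + (L * X + C * (1 + ‖d‖) ^ a * X) + 1) := h8 _ _ hx0 hy0
    _ ≤ _ := by
      refine Real.exp_le_exp.2 ?_
      have e : (L' + L + C * (1 + ‖d‖) ^ a + 1) * X =
        L' * X + (L * X + C * (1 + ‖d‖) ^ a * X) + X := by ring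
      rw [e]
      linarith

/-- The orders of `E(s) F₁(s + c)`. -/
theorem val_order {F₁ : ℂ → ℂ} (hF₁ : Differentiable ℂ F₁)
    {E : ℂ → ℂ} (hE : Differentiable ℂ E) (hEne : ∀ s, E s ≠ 0) (c : ℝ) (z : ℂ) :
    analyticOrderNatAt (fun s => E s * F₁ (s + c)) z = analyticOrderNatAt F₁ (z + c) := by
  have h1 : (fun s => E s * F₁ (s + c)) = E * (F₁ ∘ fun s => s + c) := by
    ext s
    simp only [Pi.mul_apply, Function.comp_apply]
  have h2 : analyticOrderAt (fun s => E s * F₁ (s + c)) z = analyticOrderAt F₁ (z + c) := by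
    rw [h1, analyticOrderAt_mul (hE.analyticAt z)
      ((hF₁.comp (by fun_prop : Differentiable ℂ (fun z : ℂ => z + c))).analyticAt z)]
    have h3 : analyticOrderAt E z = 0 := analyticOrderAt_eq_zero.2 (Or.inr (hEne z))
    rw [h3, zero_add]
    exact analyticOrderAt_comp_of_deriv_ne_zero (by fun_prop) (by simp)
  rw [analyticOrderNatAt, analyticOrderNatAt, h2]

/-- The reduction of `F - P` to a function `G` with value `1` at `+∞`. -/
theorem val_setup {F P : ℂ → ℂ} (hF : Differentiable ℂ F) (hP : Differentiable ℂ P) {L : ℝ}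
    (hL : 0 ≤ L) (hPL : ∀ s, ‖P s‖ ≤ Real.exp (L * (1 + ‖s‖)))
    (hord : ∃ C a : ℝ, ∀ s : ℂ, ‖F s‖ ≤ Real.exp (C * (1 + ‖s‖) ^ a))
    {m : ℕ} (hm : 1 ≤ m) {e : ℂ} (he : e ≠ 0) {c : ℝ} (hc : 0 ≤ c)
    (hedge : ∀ s : ℂ, 3 / 2 < s.re →
      ‖(m : ℂ) ^ (s + c) / e * (F (s + c) - P (s + c)) - 1‖ ≤ 1 / 2) :
    ∃ G : ℂ → ℂ, Differentiable ℂ G ∧ (∀ s : ℂ, 3 / 2 < s.re → 1 / 2 ≤ ‖G s‖ ∧ ‖G s‖ ≤ 2) ∧
      (∃ C a : ℝ, ∀ s : ℂ, ‖G s‖ ≤ Real.exp (C * (1 + ‖s‖) ^ a)) ∧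
      (∀ s : ℂ, F s = P s + e * (m : ℂ) ^ (-s) * G (s + (-(c : ℂ)))) ∧
      (∀ z : ℂ, analyticOrderNatAt G z = analyticOrderNatAt (fun s => F s - P s) (z + c)) ∧
      ∀ r : ℝ, ∑ᶠ ρ ∈ Metric.closedBall (0 : ℂ) r, analyticOrderNatAt G ρ ≤
        ∑ᶠ ρ ∈ Metric.closedBall (0 : ℂ) (r + c), analyticOrderNatAt (fun s => F s - P s) ρ := by
  have hm0 : (0 : ℝ) < m := by exact_mod_cast hm
  have hmn : 0 < m := by omega
  have hmc : (m : ℂ) ≠ 0 := by exact_mod_cast (by omega : m ≠ 0)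
  have hlm : 0 ≤ Real.log m := Real.log_nonneg (by exact_mod_cast hm)
  have hne : 0 < ‖e‖ := norm_pos_iff.2 he
  set F₁ : ℂ → ℂ := fun s => F s - P s with hF₁
  have hF₁d : Differentiable ℂ F₁ := hF.sub hP
  set E₁ : ℂ → ℂ := fun s => (m : ℂ) ^ (s + c) / e with hE₁
  have hE₁d : Differentiable ℂ E₁ := by
    refine Differentiable.div_const (Differentiable.const_cpow (by fun_prop) (Or.inl hmc)) _
  have hcp : ∀ s : ℂ, (m : ℂ) ^ s ≠ 0 := fun s => by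
    rw [Complex.cpow_def_of_ne_zero hmc]
    exact Complex.exp_ne_zero _
  have hE₁ne : ∀ s, E₁ s ≠ 0 := fun s => div_ne_zero (hcp _) he
  have hG1 : ∀ s : ℂ, 3 / 2 < s.re → ‖E₁ s * F₁ (s + c) - 1‖ ≤ 1 / 2 := hedge
  have hGlo : ∀ s : ℂ, 3 / 2 < s.re → 1 / 2 ≤ ‖E₁ s * F₁ (s + c)‖ := by
    intro s hs
    have h1 := hG1 s hs
    have h2 : ‖(1 : ℂ)‖ ≤ ‖E₁ s * F₁ (s + c)‖ + ‖E₁ s * F₁ (s + c) - 1‖ := by
      have := norm_sub_le (E₁ s * F₁ (s + c)) (E₁ s * F₁ (s + c) - 1)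
      simpa using this
    rw [norm_one] at h2
    linarith
  have hGhi : ∀ s : ℂ, 3 / 2 < s.re → ‖E₁ s * F₁ (s + c)‖ ≤ 2 := by
    intro s hs
    have h1 := hG1 s hs
    have h2 : ‖E₁ s * F₁ (s + c)‖ ≤ ‖E₁ s * F₁ (s + c) - 1‖ + ‖(1 : ℂ)‖ := by
      have := norm_add_le (E₁ s * F₁ (s + c) - 1) 1
      simpa using this
    rw [norm_one] at h2
    linarith
  have hz₀ : F₁ (2 + c) ≠ 0 := by
    intro h
    have h1 := hGlo 2 (by norm_num)
    rw [h, mul_zero, norm_zero] at h1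
    linarith
  refine ⟨fun s => E₁ s * F₁ (s + c), hE₁d.mul (hF₁d.comp (by fun_prop)),
    fun s hs => ⟨hGlo s hs, hGhi s hs⟩, ?_, ?_, fun z => val_order hF₁d hE₁d hE₁ne c z,
    fun r => val_count hF₁d hz₀ hE₁d hE₁ne hc r⟩
  · obtain ⟨C₀, a₀, hO⟩ := hord
    have hO' : Ord F |C₀| (max a₀ 1) := fun s => by
      refine (hO s).trans (Real.exp_le_exp.2 ?_)
      have h1 : (1 : ℝ) ≤ 1 + ‖s‖ := by linarith [norm_nonneg s]
      have h2 : (1 + ‖s‖) ^ a₀ ≤ (1 + ‖s‖) ^ (max a₀ 1) :=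
        Real.rpow_le_rpow_of_exponent_le h1 (le_max_left _ _)
      calc C₀ * (1 + ‖s‖) ^ a₀ ≤ |C₀| * (1 + ‖s‖) ^ a₀ :=
            mul_le_mul_of_nonneg_right (le_abs_self _) (by positivity)
        _ ≤ |C₀| * (1 + ‖s‖) ^ (max a₀ 1) := mul_le_mul_of_nonneg_left h2 (abs_nonneg _)
    obtain ⟨C₁, hC₁, h1⟩ := val_ordP (abs_nonneg C₀) (le_max_right _ _) hO' (fun s => -P s) hL
      (fun s => by rw [norm_neg]; exact hPL s) 0 (L := 0) le_rfl (fun _ => 1) (fun s => by simp)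
    have h1' : Ord F₁ C₁ (max a₀ 1) := fun s => by
      have h2 := h1 s
      have h3 : -P s + 1 * F (s + 0) = F₁ s := by
        rw [hF₁, add_zero]
        ring
      simp only [h3] at h2
      exact h2
    obtain ⟨C₂, hC₂, h2⟩ := val_ordP hC₁ (le_max_right _ _) h1' (fun _ => 0) (L' := 0) le_rfl
      (fun s => by simp) (c : ℂ)
      (L := Real.log m * (1 + c) + ‖e‖⁻¹) (by positivity) E₁ (fun s => by
        rw [hE₁]
        simp only
        rw [norm_div, Complex.norm_natCast_cpow_of_pos hmn, div_eq_mul_inv,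
          Real.rpow_def_of_pos hm0]
        have h4 : (s + (c : ℂ)).re ≤ (1 + c) * (1 + ‖s‖) := by
          rw [Complex.add_re, Complex.ofReal_re]
          have := Complex.re_le_norm s
          nlinarith [norm_nonneg s, mul_nonneg hc (norm_nonneg s)]
        have h5 : Real.exp (Real.log m * (s + (c : ℂ)).re) ≤
            Real.exp (Real.log m * ((1 + c) * (1 + ‖s‖))) :=
          Real.exp_le_exp.2 (mul_le_mul_of_nonneg_left h4 hlm)
        have h6 : ‖e‖⁻¹ ≤ Real.exp (‖e‖⁻¹ * (1 + ‖s‖)) := by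
          have h7 := Real.add_one_le_exp (‖e‖⁻¹ * (1 + ‖s‖))
          have h8 : 0 < ‖e‖⁻¹ := by positivity
          nlinarith [norm_nonneg s, mul_nonneg h8.le (norm_nonneg s)]
        calc Real.exp (Real.log m * (s + (c : ℂ)).re) * ‖e‖⁻¹ ≤
            Real.exp (Real.log m * ((1 + c) * (1 + ‖s‖))) * Real.exp (‖e‖⁻¹ * (1 + ‖s‖)) :=
              mul_le_mul h5 h6 (by positivity) (Real.exp_pos _).le
          _ = Real.exp ((Real.log m * (1 + c) + ‖e‖⁻¹) * (1 + ‖s‖)) := by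
              rw [← Real.exp_add]
              congr 1
              ring)
    refine ⟨C₂, max a₀ 1, fun s => ?_⟩
    have h3 := h2 s
    simp only [zero_add] at h3
    exact h3
  · intro s
    have h1 : s + (-(c : ℂ)) + c = s := by ring
    simp only
    rw [hE₁, hF₁]
    simp only
    rw [h1, Complex.cpow_neg]
    have := hcp s
    field_simp
    ring

/-- From the growth of `G` to the growth of `F`. -/
theorem val_back {F P G : ℂ → ℂ} {L : ℝ} (hL : 0 ≤ L)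
    (hPL : ∀ s, ‖P s‖ ≤ Real.exp (L * (1 + ‖s‖)))
    {m : ℕ} (hm : 1 ≤ m) {e : ℂ} {c : ℝ} (hc : 0 ≤ c)
    (hback : ∀ s : ℂ, F s = P s + e * (m : ℂ) ^ (-s) * G (s + (-(c : ℂ))))
    {C₃ a k A D : ℝ} (hC₃ : 0 ≤ C₃) (ha : 1 ≤ a) (hOG' : Ord G C₃ a) (hk0 : 0 ≤ k) (hk2 : k < 2)
    (hgrow : ∀ r : ℝ, 3 ≤ r → ‖G (3 + (-(r : ℂ)))‖ ≤ Real.exp (k * (r * Real.log r) + A * r + D)) :
    ∃ k C₄ A D : ℝ, 0 ≤ k ∧ k < 2 ∧ Ord F C₄ a ∧
      ∀ r : ℝ, 3 ≤ r → ‖F (3 + (-(r : ℂ)))‖ ≤ Real.exp (k * (r * Real.log r) + A * r + D) := by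
  have hm0 : (0 : ℝ) < m := by exact_mod_cast hm
  have hmn : 0 < m := by omega
  have hlm : 0 ≤ Real.log m := Real.log_nonneg (by exact_mod_cast hm)
  have hE₂ : ∀ s : ℂ, ‖e * (m : ℂ) ^ (-s)‖ ≤ Real.exp (‖e‖ + Real.log m * ‖s‖) := by
    intro s
    rw [norm_mul, Complex.norm_natCast_cpow_of_pos hmn, Real.rpow_def_of_pos hm0, Real.exp_add]
    have h1 : ‖e‖ ≤ Real.exp ‖e‖ := by linarith [Real.add_one_le_exp ‖e‖]
    have h2 : (-s).re ≤ ‖s‖ := by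
      rw [← norm_neg]
      exact Complex.re_le_norm _
    exact mul_le_mul h1 (Real.exp_le_exp.2 (mul_le_mul_of_nonneg_left h2 hlm))
      (Real.exp_pos _).le (Real.exp_pos _).le
  obtain ⟨C₄, hC₄, hOF⟩ := val_ordP hC₃ ha hOG' P hL hPL (-(c : ℂ)) (L := ‖e‖ + Real.log m)
    (by positivity) (fun s => e * (m : ℂ) ^ (-s)) (fun s => by
      refine (hE₂ s).trans (Real.exp_le_exp.2 ?_)
      nlinarith [norm_nonneg s, norm_nonneg e, mul_nonneg (norm_nonneg e) (norm_nonneg s)])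
  have hOF' : Ord F C₄ a := fun s => by
    have h1 := hOF s
    simp only [← hback s] at h1
    exact h1
  set k' : ℝ := (k + 2) / 2 with hk'
  have hk'1 : k < k' := by rw [hk']; linarith
  have hk'2 : k' < 2 := by rw [hk']; linarith
  obtain ⟨A₂, hA₂, hsl2⟩ := val_log hk0 hk'1 hc
  set D₁ : ℝ := ‖e‖ + 3 * Real.log m + A₂ + |A| * c + |D| with hD₁
  have hD₁0 : 0 ≤ D₁ := by positivity
  refine ⟨k', C₄, L + (Real.log m + |A|), 4 * L + D₁ + 1, by linarith, hk'2, hOF', fun r hr => ?_⟩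
  have hr0 : 0 ≤ r := by linarith
  have hlr : 0 ≤ Real.log r := Real.log_nonneg (by linarith)
  have h1 := hgrow (r + c) (by linarith)
  have h2 : (3 : ℂ) + (-(r : ℂ)) + (-(c : ℂ)) = 3 + (-((r + c : ℝ) : ℂ)) := by
    push_cast
    ring
  have h3 : Real.exp (k * ((r + c) * Real.log (r + c)) + A * (r + c) + D) ≤
      Real.exp (k' * (r * Real.log r) + A₂ + |A| * r + |A| * c + |D|) := by
    refine Real.exp_le_exp.2 ?_
    have h4 := hsl2 r (by linarith)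
    have h5 : A * (r + c) ≤ |A| * (r + c) :=
      mul_le_mul_of_nonneg_right (le_abs_self A) (by linarith)
    have h6 := le_abs_self D
    linarith
  have h4 := hE₂ (3 + (-(r : ℂ)))
  have h5 : ‖(3 : ℂ) + (-(r : ℂ))‖ ≤ 3 + r := by
    have := norm_add_le (3 : ℂ) (-(r : ℂ))
    rw [norm_neg, Complex.norm_real, Real.norm_eq_abs, abs_of_nonneg hr0,
      Complex.norm_ofNat] at this
    exact this
  have h6 : ‖e * (m : ℂ) ^ (-(3 + (-(r : ℂ))))‖ ≤ Real.exp (‖e‖ + Real.log m * (3 + r)) := by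
    refine h4.trans (Real.exp_le_exp.2 ?_)
    have := mul_le_mul_of_nonneg_left h5 hlm
    linarith
  have h7 : ‖e * (m : ℂ) ^ (-(3 + (-(r : ℂ)))) * G (3 + (-(r : ℂ)) + (-(c : ℂ)))‖ ≤
      Real.exp (k' * (r * Real.log r) + (Real.log m + |A|) * r + D₁) := by
    rw [norm_mul, h2]
    refine (mul_le_mul h6 (h1.trans h3) (norm_nonneg _) (Real.exp_pos _).le).trans ?_
    rw [← Real.exp_add]
    refine Real.exp_le_exp.2 (le_of_eq ?_)
    rw [hD₁]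
    ring
  have hy0 : 0 ≤ k' * (r * Real.log r) + (Real.log m + |A|) * r + D₁ := by
    have : 0 ≤ k' := by linarith
    positivity
  have h7' : ‖P (3 + (-(r : ℂ)))‖ ≤ Real.exp (L * r + 4 * L) := by
    refine (hPL _).trans (Real.exp_le_exp.2 ?_)
    have := mul_le_mul_of_nonneg_left h5 hL
    linarith
  rw [hback (3 + (-(r : ℂ)))]
  refine (norm_add_le _ _).trans ?_
  have h8 : ∀ x y : ℝ, 0 ≤ x → 0 ≤ y → Real.exp x + Real.exp y ≤ Real.exp (x + y + 1) := by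
    intro x y hx hy
    have e1 : Real.exp x ≤ Real.exp (x + y) := Real.exp_le_exp.2 (by linarith)
    have e2 : Real.exp y ≤ Real.exp (x + y) := Real.exp_le_exp.2 (by linarith)
    have e3 : (2 : ℝ) ≤ Real.exp 1 := by linarith [Real.add_one_le_exp (1 : ℝ)]
    rw [Real.exp_add (x + y) 1]
    nlinarith [Real.exp_pos (x + y)]
  have h9 := h8 (L * r + 4 * L) _ (by positivity) hy0
  have h10 : k' * (r * Real.log r) + (L + (Real.log m + |A|)) * r + (4 * L + D₁ + 1) =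
      (L * r + 4 * L) + (k' * (r * Real.log r) + (Real.log m + |A|) * r + D₁) + 1 := by ring
  rw [h10]
  linarith

/-- The vertical zeros of a general function: either there are many or the growth is small. -/
theorem val_vert (hBas : S_Bas) (hMan : S_Man) (hShf : S_Shf) (G : ℂ → ℂ)
    (hG : Differentiable ℂ G) {C : ℝ} (hC : Grw G C) {B : ℝ} (hB : 0 < B)
    (hGB : ∀ s : ℂ, 2 ≤ s.re → B⁻¹ ≤ ‖G s‖ ∧ ‖G s‖ ≤ B) (hGne : ∀ s : ℂ, 3 / 2 < s.re → G s ≠ 0)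
    (κ : ℝ) (hκ : κ < 2 / Real.pi) :
    ∃ A : ℝ, 0 < A ∧ ((∀ r₀ : ℝ, ∃ r : ℝ, r₀ ≤ r ∧ κ * (r * Real.log r) <
        ∑ᶠ ρ ∈ {ρ : ℂ | ‖ρ - 3‖ ≤ r ∧ 3 - ρ.re ≤ A * ‖ρ - 3‖ / Real.log (2 + ‖ρ - 3‖)},
          (analyticOrderNatAt G ρ : ℝ) * Real.log (r / ‖ρ - 3‖)) ∨
      ∃ k A' D : ℝ, 0 ≤ k ∧ k < 2 ∧ ∀ r : ℝ, 3 ≤ r →
        ‖G (3 + (-(r : ℂ)))‖ ≤ Real.exp (k * (r * Real.log r) + A' * r + D)) := by
  obtain ⟨Φ, C', B', B'', C₀, hS, hup, hC₀, hFΦ, hmono, hsum⟩ := hShf G C B hG hC hB hGB hGne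
  set κ' : ℝ := max κ 0 with hκ'
  have hκ'0 : 0 ≤ κ' := le_max_right _ _
  have hκκ' : κ ≤ κ' := le_max_left _ _
  have hκ'1 : Real.pi * κ' < 2 := by
    rw [hκ']
    rcases le_total κ 0 with h | h
    · rw [max_eq_right h]; norm_num
    · rw [max_eq_left h]
      rw [lt_div_iff₀ Real.pi_pos] at hκ
      linarith
  obtain ⟨A, hA, hAm⟩ := hMan Φ C' B' κ' hS hκ'0 hκ'1
  refine ⟨A, hA, ?_⟩
  by_contra hcon'
  rw [not_or] at hcon'
  obtain ⟨hcon, hno⟩ := hcon'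
  push Not at hcon
  obtain ⟨r₀, hr₀⟩ := hcon
  set r₁ : ℝ := max r₀ 1 with hr₁
  have hr₁1 : 1 ≤ r₁ := le_max_right _ _
  have hr₁0 : r₀ ≤ r₁ := le_max_left _ _
  have hl₁ : 0 ≤ r₁ * Real.log r₁ := mul_nonneg (by linarith) (Real.log_nonneg hr₁1)
  have hD : 0 ≤ κ' * (r₁ * Real.log r₁) := mul_nonneg hκ'0 hl₁
  have hbig : ∀ R' t : ℝ, r₁ ≤ t → LZ (inn Φ A R') (od Φ) t ≤ κ' * (t * Real.log t) := by
    intro R' t ht
    have ht1 : 1 ≤ t := hr₁1.trans ht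
    refine (hsum A R' t ht1).trans ((hr₀ t (hr₁0.trans ht)).trans ?_)
    exact mul_le_mul_of_nonneg_right hκκ'
      (mul_nonneg (by linarith) (Real.log_nonneg ht1))
  have hLZ : ∀ R' t : ℝ, 1 ≤ t → LZ (inn Φ A R') (od Φ) t ≤
      κ' * (t * Real.log t) + κ' * (r₁ * Real.log r₁) := by
    intro R' t ht
    have h1 : 0 ≤ κ' * (t * Real.log t) :=
      mul_nonneg hκ'0 (mul_nonneg (by linarith) (Real.log_nonneg ht))
    rcases le_total r₁ t with h | h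
    · have := hbig R' t h
      linarith
    · have h2 := hmono A R' t r₁ ht h
      have h3 := hbig R' r₁ le_rfl
      linarith
  obtain ⟨κ₁, A₁, hκ₁0, hκ₁1, hA₁, hSZ⟩ := hAm _ hD hLZ
  have hC'0 : 0 ≤ 3 * C' := by linarith [hS.cc]
  obtain ⟨A', hA'⟩ := odd (logz factor) (odd1 abelz) Φ (3 * C') (3 / 2) κ₁ A₁ hS.df hS.one hC'0
    (by norm_num) (hBas Φ C' B' hS).1 (by norm_num) hκ₁0 hA₁ hS.ze
    (fun R t ht => hSZ R t ht)
  have hB''1 : 1 ≤ B'' := by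
    have h1 := hup 0 le_rfl
    rw [Complex.ofReal_zero, hS.one, norm_one] at h1
    exact h1
  have hCB : 0 < C₀ * B'' := by positivity
  refine hno ⟨2 * κ₁, A', Real.log (C₀ * B''), by linarith, by linarith, ?_⟩
  intro r hr
  rw [hFΦ]
  have h1 := hA' r (by linarith)
  have h2 := hup r (by linarith)
  calc C₀ * ‖Φ (-(r : ℂ))‖ ≤ C₀ * (‖Φ r‖ *
        Real.exp (2 * κ₁ * (r * Real.log r) + A' * r)) := mul_le_mul_of_nonneg_left h1 hC₀.le
    _ ≤ C₀ * (B'' * Real.exp (2 * κ₁ * (r * Real.log r) + A' * r)) :=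
        mul_le_mul_of_nonneg_left
          (mul_le_mul_of_nonneg_right h2 (Real.exp_pos _).le) hC₀.le
    _ = Real.exp (Real.log (C₀ * B'')) * Real.exp (2 * κ₁ * (r * Real.log r) + A' * r) := by
        rw [Real.exp_log hCB]; ring
    _ = Real.exp (2 * κ₁ * (r * Real.log r) + A' * r + Real.log (C₀ * B'')) := by
        rw [← Real.exp_add]
        congr 1
        ring

end MP7ed9c3.Vz
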