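import Pool.Agent.Lib.MP_7ed9c3_nt.Vz.Val5

/-!
# MP_7ed9c3_nt, part Vz: moving the centre of the sums
-/

set_option autoImplicit false

namespace MP7ed9c3.Vz

open NumberField IsDedekindDomain Filter Topology MeasureTheory MP7ed9c3.Zr

theorem val_sum_le (f : ℂ → ℝ) (S : Set ℂ) (hfin : (S ∩ Function.support f).Finite)
    (hf : ∀ x ∈ S, 0 ≤ f x) (T : Finset ℂ) (hT : ∀ x ∈ T, x ∈ S) :
    ∑ x ∈ T, f x ≤ ∑ᶠ x ∈ S, f x := by
  classical
  rw [finsum_mem_eq_sum f hfin, ← Finset.sum_filter_ne_zero]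
  apply Finset.sum_le_sum_of_subset_of_nonneg
  · intro x hx
    rw [Finset.mem_filter] at hx
    rw [Set.Finite.mem_toFinset]
    exact ⟨hT x hx.1, hx.2⟩
  · intro x hx _
    rw [Set.Finite.mem_toFinset] at hx
    exact hf x hx.1

theorem val_region {c x y A' : ℝ} (hc : 0 ≤ c) (hA' : 0 < A') (hx : 0 ≤ x) (hy : 1 ≤ y)
    (hxy : x ≤ y + c) (hyx : y ≤ x + c) :
    A' * x / Real.log (2 + x) ≤
      A' * ((1 + c) * (1 + 2 * Real.log (1 + c))) * y / Real.log (2 + y) := by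
  have hlc : 0 ≤ Real.log (1 + c) := Real.log_nonneg (by linarith)
  have h3 : (1 : ℝ) / 2 ≤ Real.log (2 + x) := by
    have h4 : Real.log 2 ≤ Real.log (2 + x) := Real.log_le_log (by norm_num) (by linarith)
    have := Real.log_two_gt_d9
    linarith
  have hly : 0 < Real.log (2 + y) := Real.log_pos (by linarith)
  have h1 : Real.log (2 + y) ≤ (1 + 2 * Real.log (1 + c)) * Real.log (2 + x) := by
    have h2 : Real.log (2 + y) ≤ Real.log ((2 + x) * (1 + c)) := by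
      refine Real.log_le_log (by linarith) ?_
      nlinarith [mul_nonneg hx hc]
    rw [Real.log_mul (by linarith) (by linarith)] at h2
    nlinarith [mul_nonneg hlc (sub_nonneg.2 h3)]
  have h2 : x ≤ (1 + c) * y := by nlinarith [mul_nonneg hc (sub_nonneg.2 hy)]
  rw [div_le_div_iff₀ (by linarith) hly]
  have h5 : x * Real.log (2 + y) ≤
      ((1 + c) * y) * ((1 + 2 * Real.log (1 + c)) * Real.log (2 + x)) :=
    mul_le_mul h2 h1 hly.le (by positivity)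
  have h6 := mul_le_mul_of_nonneg_left h5 hA'.le
  calc A' * x * Real.log (2 + y) = A' * (x * Real.log (2 + y)) := by ring
    _ ≤ A' * (((1 + c) * y) * ((1 + 2 * Real.log (1 + c)) * Real.log (2 + x))) := h6
    _ = _ := by ring

theorem val_cmp {F₁ G : ℂ → ℂ} (hF₁ : Differentiable ℂ F₁) {z₀ : ℂ} (hz₀ : F₁ z₀ ≠ 0) {c : ℝ}
    (hc : 0 ≤ c) (hord : ∀ z : ℂ, analyticOrderNatAt G z = analyticOrderNatAt F₁ (z + c))
    (hGne : ∀ s : ℂ, 3 / 2 < s.re → G s ≠ 0) {κ κ' A' : ℝ} (hκ : 0 ≤ κ) (hκ' : κ < κ')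
    (hA' : 0 < A')
    (h : ∀ r₀ : ℝ, ∃ r : ℝ, r₀ ≤ r ∧ κ' * (r * Real.log r) <
        ∑ᶠ ρ ∈ {ρ : ℂ | ‖ρ - 3‖ ≤ r ∧ 3 - ρ.re ≤ A' * ‖ρ - 3‖ / Real.log (2 + ‖ρ - 3‖)},
          (analyticOrderNatAt G ρ : ℝ) * Real.log (r / ‖ρ - 3‖)) :
    ∃ A : ℝ, 0 < A ∧ ∀ r₀ : ℝ, ∃ r : ℝ, r₀ ≤ r ∧ κ * (r * Real.log r) <
        ∑ᶠ ρ ∈ {ρ : ℂ | ‖ρ - 3‖ ≤ r ∧ 3 - ρ.re ≤ A * ‖ρ - 3‖ / Real.log (2 + ‖ρ - 3‖)},
          (analyticOrderNatAt F₁ ρ : ℝ) * Real.log (r / ‖ρ - 3‖) := by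
  classical
  have hlc : 0 ≤ Real.log (1 + c) := Real.log_nonneg (by linarith)
  have hsupp : ∀ ρ : ℂ, analyticOrderNatAt F₁ ρ ≠ 0 → F₁ ρ = 0 := fun ρ h =>
    apply_eq_zero_of_analyticOrderNatAt_ne_zero h
  have hsuppG : ∀ ρ : ℂ, analyticOrderNatAt G ρ ≠ 0 → G ρ = 0 := fun ρ h =>
    apply_eq_zero_of_analyticOrderNatAt_ne_zero h
  have hfin : ∀ T : ℝ, {ρ : ℂ | ‖ρ‖ < T ∧ F₁ ρ = 0}.Finite := fun T => factor_finite hF₁ hz₀ T
  have hn3 : ∀ ρ : ℂ, ‖ρ‖ ≤ ‖ρ - 3‖ + 3 := by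
    intro ρ
    have := norm_add_le (ρ - 3) 3
    rw [sub_add_cancel, Complex.norm_ofNat] at this
    exact this
  have hfinF : ∀ T : ℝ, {ρ : ℂ | ‖ρ - 3‖ ≤ T ∧ analyticOrderNatAt F₁ ρ ≠ 0}.Finite := by
    intro T
    refine (hfin (T + 4)).subset ?_
    intro ρ hρ
    refine ⟨?_, hsupp ρ hρ.2⟩
    have h1 := hn3 ρ
    have h2 := hρ.1
    show ‖ρ‖ < T + 4
    linarith
  have hfinG : ∀ T : ℝ, {ρ : ℂ | ‖ρ - 3‖ ≤ T ∧ analyticOrderNatAt G ρ ≠ 0}.Finite := by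
    intro T
    have h1 := (hfinF (T + c)).preimage (f := fun z : ℂ => z + c)
      (fun x _ y _ h => add_right_cancel h)
    refine h1.subset ?_
    intro ρ hρ
    refine ⟨?_, ?_⟩
    · have h3 := norm_add_le (ρ - 3) (c : ℂ)
      rw [Complex.norm_real, Real.norm_eq_abs, abs_of_nonneg hc] at h3
      have h4 : ρ + c - 3 = ρ - 3 + c := by ring
      show ‖ρ + c - 3‖ ≤ T + c
      rw [h4]
      have h5 : ‖ρ - 3‖ ≤ T := hρ.1
      linarith
    · show analyticOrderNatAt F₁ (ρ + c) ≠ 0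
      rw [← hord]
      exact hρ.2
  have hx32 : ∀ ρ : ℂ, analyticOrderNatAt G ρ ≠ 0 → 3 / 2 ≤ ‖ρ - 3‖ := by
    intro ρ hρ
    have h1 : ρ.re ≤ 3 / 2 := by
      by_contra h2
      exact hGne ρ (not_le.1 h2) (hsuppG ρ hρ)
    have h2 := Complex.abs_re_le_norm (ρ - 3)
    have h3 := neg_abs_le (ρ - 3).re
    have h4 : (ρ - 3).re = ρ.re - 3 := by simp
    rw [h4] at h2 h3
    linarith
  -- the constants
  set ε : ℝ := (κ' - κ) / (2 * (κ + 1)) with hε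
  have hε0 : 0 < ε := div_pos (by linarith) (by linarith)
  set κ₂ : ℝ := (κ + κ') / 2 with hκ₂
  have hκ₂1 : κ * (1 + ε) ≤ κ₂ := by
    have h1 : κ * ε ≤ (κ' - κ) / 2 := by
      rw [hε, mul_div_assoc', div_le_div_iff₀ (by linarith) (by norm_num)]
      nlinarith
    rw [hκ₂]
    linarith
  have hκ₂0 : 0 ≤ κ₂ := by rw [hκ₂]; linarith
  have hκ₂' : 0 < κ' - κ₂ := by rw [hκ₂]; linarith
  set X₀ : ℝ := c / ε + c + 1 with hX₀
  have hX₀c : c + 1 ≤ X₀ := by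
    have : 0 ≤ c / ε := by positivity
    linarith
  set N₀ : ℝ := ∑ ρ ∈ (hfinG X₀).toFinset, (analyticOrderNatAt G ρ : ℝ) with hN₀
  have hN₀0 : 0 ≤ N₀ := Finset.sum_nonneg fun _ _ => Nat.cast_nonneg _
  set A : ℝ := A' * ((1 + c) * (1 + 2 * Real.log (1 + c))) with hA
  refine ⟨A, by positivity, fun r₀ => ?_⟩
  obtain ⟨r, hr, hrS⟩ := h (max (max r₀ 1) (max (c / ε)
    (max (Real.exp (2 * (κ₂ * ε) / (κ' - κ₂))) (2 * N₀ / (κ' - κ₂)))))
  have hr₀ : r₀ ≤ r := (le_max_left _ _).trans ((le_max_left _ _).trans hr)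
  have hr1 : 1 ≤ r := (le_max_right _ _).trans ((le_max_left _ _).trans hr)
  have hrc : c / ε ≤ r := (le_max_left _ _).trans ((le_max_right _ _).trans hr)
  have hre : Real.exp (2 * (κ₂ * ε) / (κ' - κ₂)) ≤ r :=
    (le_max_left _ _).trans ((le_max_right _ _).trans ((le_max_right _ _).trans hr))
  have hrN : 2 * N₀ / (κ' - κ₂) ≤ r :=
    (le_max_right _ _).trans ((le_max_right _ _).trans ((le_max_right _ _).trans hr))
  have hr0 : 0 < r := by linarith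
  have hlr : 0 ≤ Real.log r := Real.log_nonneg hr1
  have hcr : c ≤ ε * r := by
    rw [div_le_iff₀ hε0] at hrc
    linarith
  refine ⟨(1 + ε) * r, by nlinarith, ?_⟩
  -- the asymptotic inequality
  have hasy : κ * ((1 + ε) * r * Real.log ((1 + ε) * r)) ≤ κ' * (r * Real.log r) - N₀ * Real.log r := by
    have h1 : Real.log ((1 + ε) * r) ≤ Real.log r + ε := by
      rw [Real.log_mul (by linarith) hr0.ne']
      have := Real.log_le_sub_one_of_pos (show 0 < 1 + ε by linarith)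
      linarith
    have h2 : κ * ((1 + ε) * r * Real.log ((1 + ε) * r)) ≤ κ₂ * (r * (Real.log r + ε)) := by
      have h3 : r * Real.log ((1 + ε) * r) ≤ r * (Real.log r + ε) :=
        mul_le_mul_of_nonneg_left h1 hr0.le
      have h4 : 0 ≤ r * (Real.log r + ε) := by positivity
      calc κ * ((1 + ε) * r * Real.log ((1 + ε) * r)) =
          κ * (1 + ε) * (r * Real.log ((1 + ε) * r)) := by ring
        _ ≤ κ * (1 + ε) * (r * (Real.log r + ε)) :=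
            mul_le_mul_of_nonneg_left h3 (by positivity)
        _ ≤ κ₂ * (r * (Real.log r + ε)) := mul_le_mul_of_nonneg_right hκ₂1 h4
    have h5 : 2 * (κ₂ * ε) ≤ (κ' - κ₂) * Real.log r := by
      have h6 : 2 * (κ₂ * ε) / (κ' - κ₂) ≤ Real.log r := by
        rw [← Real.log_exp (2 * (κ₂ * ε) / (κ' - κ₂))]
        exact Real.log_le_log (Real.exp_pos _) hre
      rw [div_le_iff₀ hκ₂'] at h6
      linarith
    have h7 : 2 * N₀ ≤ (κ' - κ₂) * r := by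
      rw [div_le_iff₀ hκ₂'] at hrN
      linarith
    have h8 : 2 * (κ₂ * ε) * r ≤ (κ' - κ₂) * Real.log r * r := mul_le_mul_of_nonneg_right h5 hr0.le
    have h9 : 2 * N₀ * Real.log r ≤ (κ' - κ₂) * r * Real.log r := mul_le_mul_of_nonneg_right h7 hlr
    have h10 : κ₂ * (r * (Real.log r + ε)) = κ₂ * (r * Real.log r) + κ₂ * ε * r := by ring
    have h11 : (κ' - κ₂) * Real.log r * r = κ' * (r * Real.log r) - κ₂ * (r * Real.log r) := by ring
    have h12 : (κ' - κ₂) * r * Real.log r = κ' * (r * Real.log r) - κ₂ * (r * Real.log r) := by ring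
    linarith
  -- the sum over the zeros of `G`
  set f : ℂ → ℝ := fun ρ => (analyticOrderNatAt G ρ : ℝ) * Real.log (r / ‖ρ - 3‖) with hf
  set g : ℂ → ℝ := fun ρ => (analyticOrderNatAt F₁ ρ : ℝ) * Real.log ((1 + ε) * r / ‖ρ - 3‖) with hg
  set SG : Set ℂ := {ρ : ℂ | ‖ρ - 3‖ ≤ r ∧ 3 - ρ.re ≤ A' * ‖ρ - 3‖ / Real.log (2 + ‖ρ - 3‖)}
    with hSG
  set SF : Set ℂ := {ρ : ℂ | ‖ρ - 3‖ ≤ (1 + ε) * r ∧
    3 - ρ.re ≤ A * ‖ρ - 3‖ / Real.log (2 + ‖ρ - 3‖)} with hSF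
  have hfs : ∀ ρ, f ρ ≠ 0 → analyticOrderNatAt G ρ ≠ 0 := by
    intro ρ h1 h2
    apply h1
    simp only [hf]
    rw [h2]
    simp
  have hgs : ∀ ρ, g ρ ≠ 0 → analyticOrderNatAt F₁ ρ ≠ 0 := by
    intro ρ h1 h2
    apply h1
    simp only [hg]
    rw [h2]
    simp
  have hfinf : (SG ∩ Function.support f).Finite := by
    refine (hfinG r).subset ?_
    intro ρ hρ
    exact ⟨hρ.1.1, hfs ρ hρ.2⟩
  have hfing : (SF ∩ Function.support g).Finite := by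
    refine (hfinF ((1 + ε) * r)).subset ?_
    intro ρ hρ
    exact ⟨hρ.1.1, hgs ρ hρ.2⟩
  have hg0 : ∀ ρ ∈ SF, 0 ≤ g ρ := by
    intro ρ hρ
    refine mul_nonneg (Nat.cast_nonneg _) ?_
    rcases eq_or_lt_of_le (norm_nonneg (ρ - 3)) with h1 | h1
    · rw [← h1]
      simp
    · refine Real.log_nonneg ?_
      rw [one_le_div h1]
      exact hρ.1
  have hsplit : ∑ᶠ ρ ∈ SG, f ρ = ∑ ρ ∈ hfinf.toFinset with ‖ρ - 3‖ < X₀, f ρ +
      ∑ ρ ∈ hfinf.toFinset with ¬ ‖ρ - 3‖ < X₀, f ρ := by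
    rw [finsum_mem_eq_sum f hfinf, Finset.sum_filter_add_sum_filter_not]
  have hsmall : ∑ ρ ∈ hfinf.toFinset with ‖ρ - 3‖ < X₀, f ρ ≤ N₀ * Real.log r := by
    rw [hN₀, Finset.sum_mul]
    refine (Finset.sum_le_sum (g := fun ρ => (analyticOrderNatAt G ρ : ℝ) * Real.log r)
      fun ρ hρ => ?_).trans (Finset.sum_le_sum_of_subset_of_nonneg ?_ fun _ _ _ => by positivity)
    · rw [Finset.mem_filter, Set.Finite.mem_toFinset] at hρ
      have h1 := hx32 ρ (hfs ρ hρ.1.2)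
      refine mul_le_mul_of_nonneg_left ?_ (Nat.cast_nonneg _)
      refine Real.log_le_log (by positivity) ?_
      rw [div_le_iff₀ (by linarith)]
      nlinarith
    · intro ρ hρ
      rw [Finset.mem_filter, Set.Finite.mem_toFinset] at hρ
      rw [Set.Finite.mem_toFinset]
      exact ⟨hρ.2.le, hfs ρ hρ.1.2⟩
  have hlarge : ∑ ρ ∈ hfinf.toFinset with ¬ ‖ρ - 3‖ < X₀, f ρ ≤ ∑ᶠ ρ ∈ SF, g ρ := by
    have hprop : ∀ ρ ∈ hfinf.toFinset.filter (fun ρ => ¬ ‖ρ - 3‖ < X₀),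
        ρ + (c : ℂ) ∈ SF ∧ f ρ ≤ g (ρ + c) := by
      intro ρ hρ
      rw [Finset.mem_filter, Set.Finite.mem_toFinset, not_lt] at hρ
      have hρr : ‖ρ - 3‖ ≤ r := hρ.1.1.1
      have hρre : 3 - ρ.re ≤ A' * ‖ρ - 3‖ / Real.log (2 + ‖ρ - 3‖) := hρ.1.1.2
      have hx : X₀ ≤ ‖ρ - 3‖ := hρ.2
      have e1 : ρ + c - 3 = ρ - 3 + c := by ring
      have hyx : ‖ρ + c - 3‖ ≤ ‖ρ - 3‖ + c := by
        have h3 := norm_add_le (ρ - 3) (c : ℂ)
        rw [Complex.norm_real, Real.norm_eq_abs, abs_of_nonneg hc] at h3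
        rw [e1]
        exact h3
      have hxy : ‖ρ - 3‖ ≤ ‖ρ + c - 3‖ + c := by
        have h3 := norm_sub_le (ρ + c - 3) (c : ℂ)
        have e2 : ρ + c - 3 - c = ρ - 3 := by ring
        rw [Complex.norm_real, Real.norm_eq_abs, abs_of_nonneg hc, e2] at h3
        exact h3
      have hy1 : 1 ≤ ‖ρ + c - 3‖ := by linarith
      refine ⟨⟨?_, ?_⟩, ?_⟩
      · linarith
      · have h4 := val_region hc hA' (norm_nonneg (ρ - 3)) hy1 hxy hyx
        have h5 : (ρ + (c : ℂ)).re = ρ.re + c := by simp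
        rw [h5]
        linarith
      · simp only [hf, hg]
        rw [hord]
        refine mul_le_mul_of_nonneg_left ?_ (Nat.cast_nonneg _)
        have hx0 : 0 < ‖ρ - 3‖ := by linarith
        have hy0 : 0 < ‖ρ + c - 3‖ := by linarith
        refine Real.log_le_log (by positivity) ?_
        rw [div_le_div_iff₀ hx0 hy0]
        have h6 : c ≤ ε * ‖ρ - 3‖ := by
          have h7 : c / ε ≤ ‖ρ - 3‖ := by linarith
          rw [div_le_iff₀ hε0] at h7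
          linarith
        have h8 : ‖ρ + c - 3‖ ≤ (1 + ε) * ‖ρ - 3‖ := by linarith
        have h9 := mul_le_mul_of_nonneg_left h8 hr0.le
        linarith
    calc ∑ ρ ∈ hfinf.toFinset with ¬ ‖ρ - 3‖ < X₀, f ρ ≤
        ∑ ρ ∈ hfinf.toFinset with ¬ ‖ρ - 3‖ < X₀, g (ρ + c) :=
          Finset.sum_le_sum fun ρ hρ => (hprop ρ hρ).2
      _ = ∑ ρ ∈ (hfinf.toFinset.filter (fun ρ => ¬ ‖ρ - 3‖ < X₀)).image (fun ρ => ρ + (c : ℂ)),
            g ρ := by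
          rw [Finset.sum_image (fun x _ y _ h => add_right_cancel h)]
      _ ≤ ∑ᶠ ρ ∈ SF, g ρ := by
          refine val_sum_le g SF hfing hg0 _ ?_
          intro x hx
          rw [Finset.mem_image] at hx
          obtain ⟨ρ, hρ, rfl⟩ := hx
          exact (hprop ρ hρ).1
  rw [hsplit] at hrS
  linarith

end MP7ed9c3.Vz
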