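import Pool.Agent.Lib.MP_7ed9c3_nt.Vz.Val7

/-!
# MP_7ed9c3_nt, part Vz: from the derivatives back to the function
-/

set_option autoImplicit false

namespace MP7ed9c3.Vz

open NumberField IsDedekindDomain Filter Topology MeasureTheory MP7ed9c3.Zr

theorem val_exps {x y : ℝ} (hx : 0 ≤ x) (hy : 0 ≤ y) :
    Real.exp x + Real.exp y ≤ Real.exp (x + y + 1) := by
  have e1 : Real.exp x ≤ Real.exp (x + y) := Real.exp_le_exp.2 (by linarith)
  have e2 : Real.exp y ≤ Real.exp (x + y) := Real.exp_le_exp.2 (by linarith)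
  have e3 : (2 : ℝ) ≤ Real.exp 1 := by linarith [Real.add_one_le_exp (1 : ℝ)]
  rw [Real.exp_add (x + y) 1]
  nlinarith [Real.exp_pos (x + y)]

theorem val_int1 {f : ℂ → ℂ} (hf : Differentiable ℂ f) {C a : ℝ} (hC : 0 ≤ C) (ha : 1 ≤ a)
    (h : Ord (deriv f) C a) : ∃ C' : ℝ, 0 ≤ C' ∧ Ord f C' a := by
  refine ⟨‖f 0‖ + C + 2, by positivity, fun s => ?_⟩
  have hs1 : (1 : ℝ) ≤ 1 + ‖s‖ := by linarith [norm_nonneg s]
  set X : ℝ := (1 + ‖s‖) ^ a with hX
  have hX1 : 1 ≤ X := Real.one_le_rpow hs1 (by linarith)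
  have hX2 : 1 + ‖s‖ ≤ X := by
    conv_lhs => rw [← Real.rpow_one (1 + ‖s‖)]
    exact Real.rpow_le_rpow_of_exponent_le hs1 ha
  have h1 : ‖f s - f 0‖ ≤ Real.exp (C * X) * ‖s - 0‖ := by
    refine Convex.norm_image_sub_le_of_norm_deriv_le (𝕜 := ℂ) (s := Metric.closedBall (0 : ℂ) ‖s‖)
      (fun z _ => hf z) (fun z hz => ?_) (convex_closedBall _ _) (by simp) (by simp)
    rw [mem_closedBall_zero_iff] at hz
    refine (h z).trans (Real.exp_le_exp.2 (mul_le_mul_of_nonneg_left ?_ hC))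
    exact Real.rpow_le_rpow (by positivity) (by linarith) (by linarith)
  rw [sub_zero] at h1
  have h2 : ‖s‖ ≤ Real.exp X := by linarith [Real.add_one_le_exp X]
  have h3 : ‖f 0‖ ≤ Real.exp (‖f 0‖ * X) := by
    have h6 : ‖f 0‖ ≤ ‖f 0‖ * X := le_mul_of_one_le_right (norm_nonneg _) hX1
    linarith [Real.add_one_le_exp (‖f 0‖ * X)]
  have h4 : ‖f s‖ ≤ ‖f 0‖ + ‖f s - f 0‖ := by
    have := norm_add_le (f 0) (f s - f 0)
    simpa using this
  have h5 : Real.exp (C * X) * ‖s‖ ≤ Real.exp (C * X + X) := by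
    rw [Real.exp_add]
    exact mul_le_mul_of_nonneg_left h2 (Real.exp_pos _).le
  have h7 : Real.exp (‖f 0‖ * X) + Real.exp (C * X + X) ≤
      Real.exp (‖f 0‖ * X + (C * X + X) + 1) := val_exps (by positivity) (by positivity)
  have h8 : Real.exp (‖f 0‖ * X + (C * X + X) + 1) ≤ Real.exp ((‖f 0‖ + C + 2) * X) := by
    refine Real.exp_le_exp.2 ?_
    have e : (‖f 0‖ + C + 2) * X = ‖f 0‖ * X + (C * X + X) + X := by ring
    rw [e]
    linarith
  linarith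

theorem val_int2 {f : ℂ → ℂ} (hf : Differentiable ℂ f) {k A D : ℝ} (hk : 0 ≤ k)
    (h : ∀ r : ℝ, 3 ≤ r → ‖deriv f (3 + (-(r : ℂ)))‖ ≤
      Real.exp (k * (r * Real.log r) + A * r + D)) :
    ∃ A' D' : ℝ, ∀ r : ℝ, 3 ≤ r → ‖f (3 + (-(r : ℂ)))‖ ≤
      Real.exp (k * (r * Real.log r) + A' * r + D') := by
  refine ⟨|A| + 1, |D| + ‖f 0‖ + 1, fun r hr => ?_⟩
  have hr0 : 0 ≤ r := by linarith
  have hlr : 0 ≤ Real.log r := Real.log_nonneg (by linarith)
  set Y : ℝ := k * (r * Real.log r) + |A| * r + |D| with hY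
  have hY0 : 0 ≤ Y := by positivity
  have h1 : ‖f (3 + (-(r : ℂ))) - f 0‖ ≤ Real.exp Y * ‖(3 + (-(r : ℂ))) - 0‖ := by
    refine Convex.norm_image_sub_le_of_norm_deriv_le (𝕜 := ℂ)
      (s := segment ℝ (0 : ℂ) (3 + (-(r : ℂ))))
      (fun z _ => hf z) (fun z hz => ?_) (convex_segment _ _) (left_mem_segment _ _ _)
      (right_mem_segment _ _ _)
    obtain ⟨u, v, hu, hv, huv, rfl⟩ := hz
    have hv1 : v ≤ 1 := by linarith
    have e1 : u • (0 : ℂ) + v • (3 + (-(r : ℂ))) = 3 + (-((3 + v * (r - 3) : ℝ) : ℂ)) := by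
      rw [smul_zero, zero_add, Complex.real_smul]
      push_cast
      ring
    rw [e1]
    have h3 : 3 ≤ 3 + v * (r - 3) := by nlinarith
    have h4 : 3 + v * (r - 3) ≤ r := by nlinarith
    refine (h _ h3).trans (Real.exp_le_exp.2 ?_)
    set t : ℝ := 3 + v * (r - 3) with ht
    have ht0 : 0 < t := by linarith
    have h5 : Real.log t ≤ Real.log r := Real.log_le_log ht0 h4
    have h6 : 0 ≤ Real.log t := Real.log_nonneg (by linarith)
    have h7 : t * Real.log t ≤ r * Real.log r := mul_le_mul h4 h5 h6 hr0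
    have h8 := mul_le_mul_of_nonneg_left h7 hk
    have h9 : A * t ≤ |A| * r :=
      (mul_le_mul_of_nonneg_right (le_abs_self A) ht0.le).trans
        (mul_le_mul_of_nonneg_left h4 (abs_nonneg A))
    have h10 := le_abs_self D
    linarith
  have h2 : ‖(3 + (-(r : ℂ))) - 0‖ ≤ Real.exp r := by
    have e2 : (3 + (-(r : ℂ))) - 0 = -((r - 3 : ℝ) : ℂ) := by push_cast; ring
    rw [e2, norm_neg, Complex.norm_real, Real.norm_eq_abs, abs_of_nonneg (by linarith)]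
    linarith [Real.add_one_le_exp r]
  have h3 : ‖f 0‖ ≤ Real.exp ‖f 0‖ := by linarith [Real.add_one_le_exp ‖f 0‖]
  have h4 : ‖f (3 + (-(r : ℂ)))‖ ≤ ‖f 0‖ + ‖f (3 + (-(r : ℂ))) - f 0‖ := by
    have := norm_add_le (f 0) (f (3 + (-(r : ℂ))) - f 0)
    rw [add_sub_cancel] at this
    exact this
  have h5 : Real.exp Y * ‖(3 + (-(r : ℂ))) - 0‖ ≤ Real.exp (Y + r) := by
    rw [Real.exp_add Y r]
    exact mul_le_mul_of_nonneg_left h2 (Real.exp_pos _).le
  have h7 : Real.exp ‖f 0‖ + Real.exp (Y + r) ≤ Real.exp (‖f 0‖ + (Y + r) + 1) :=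
    val_exps (norm_nonneg _) (by positivity)
  have e3 : k * (r * Real.log r) + (|A| + 1) * r + (|D| + ‖f 0‖ + 1) = ‖f 0‖ + (Y + r) + 1 := by
    rw [hY]
    ring
  rw [e3]
  linarith

theorem val_ddiff {F : ℂ → ℂ} (hF : Differentiable ℂ F) (j : ℕ) :
    Differentiable ℂ (iteratedDeriv j F) := by
  induction j with
  | zero => rw [iteratedDeriv_zero]; exact hF
  | succ j ih =>
    rw [iteratedDeriv_succ]
    exact differentiableOn_univ.1 (DifferentiableOn.deriv ih.differentiableOn isOpen_univ)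

/-- From the `j`-th derivative to the function. -/
theorem val_int {F : ℂ → ℂ} (hF : Differentiable ℂ F) (j : ℕ) {a k : ℝ} (ha : 1 ≤ a) (hk : 0 ≤ k) :
    ∀ C A D : ℝ, 0 ≤ C → Ord (iteratedDeriv j F) C a →
      (∀ r : ℝ, 3 ≤ r → ‖iteratedDeriv j F (3 + (-(r : ℂ)))‖ ≤
        Real.exp (k * (r * Real.log r) + A * r + D)) →
      ∃ C' A' D' : ℝ, Ord F C' a ∧ ∀ r : ℝ, 3 ≤ r → ‖F (3 + (-(r : ℂ)))‖ ≤
        Real.exp (k * (r * Real.log r) + A' * r + D') := by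
  induction j with
  | zero =>
    intro C A D hC h1 h2
    rw [iteratedDeriv_zero] at h1 h2
    exact ⟨C, A, D, h1, h2⟩
  | succ j ih =>
    intro C A D hC h1 h2
    rw [iteratedDeriv_succ] at h1 h2
    obtain ⟨C', hC', h3⟩ := val_int1 (val_ddiff hF j) hC ha h1
    obtain ⟨A', D', h4⟩ := val_int2 (val_ddiff hF j) hk h2
    exact ih C' A' D' hC' h3 h4

/-- The finite order of the derivatives. -/
theorem val_dord {F : ℂ → ℂ} (hF : Differentiable ℂ F)
    (hord : ∃ C a : ℝ, ∀ s : ℂ, ‖F s‖ ≤ Real.exp (C * (1 + ‖s‖) ^ a)) (j : ℕ) :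
    ∃ C a : ℝ, ∀ s : ℂ, ‖iteratedDeriv j F s‖ ≤ Real.exp (C * (1 + ‖s‖) ^ a) := by
  obtain ⟨C, a, hO⟩ := hord
  set a' : ℝ := max a 0 with ha'
  have ha0 : 0 ≤ a' := le_max_right _ _
  set J : ℝ := (j.factorial : ℝ) with hJ
  have hJ1 : 0 < J := by
    rw [hJ]
    exact_mod_cast Nat.factorial_pos j
  refine ⟨|Real.log J| + |C| * 2 ^ a', a', fun s => ?_⟩
  have hs1 : (1 : ℝ) ≤ 1 + ‖s‖ := by linarith [norm_nonneg s]
  have hX : (1 : ℝ) ≤ (1 + ‖s‖) ^ a' := Real.one_le_rpow hs1 ha0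
  have h1 : ∀ z ∈ Metric.sphere s 1, ‖F z‖ ≤ Real.exp (|C| * 2 ^ a' * (1 + ‖s‖) ^ a') := by
    intro z hz
    rw [mem_sphere_iff_norm] at hz
    have h2 : 1 + ‖z‖ ≤ 2 * (1 + ‖s‖) := by
      have := norm_add_le (z - s) s
      rw [sub_add_cancel, hz] at this
      linarith
    have hz1 : (1 : ℝ) ≤ 1 + ‖z‖ := by linarith [norm_nonneg z]
    refine (hO z).trans (Real.exp_le_exp.2 ?_)
    have h3 : (1 + ‖z‖) ^ a ≤ (1 + ‖z‖) ^ a' :=
      Real.rpow_le_rpow_of_exponent_le hz1 (le_max_left _ _)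
    have h4 : (1 + ‖z‖) ^ a' ≤ 2 ^ a' * (1 + ‖s‖) ^ a' := by
      rw [← Real.mul_rpow (by norm_num) (by linarith)]
      exact Real.rpow_le_rpow (by linarith) h2 ha0
    calc C * (1 + ‖z‖) ^ a ≤ |C| * (1 + ‖z‖) ^ a :=
          mul_le_mul_of_nonneg_right (le_abs_self _) (by positivity)
      _ ≤ |C| * (2 ^ a' * (1 + ‖s‖) ^ a') :=
          mul_le_mul_of_nonneg_left (h3.trans h4) (abs_nonneg _)
      _ = _ := by ring
  have h2 := Complex.norm_iteratedDeriv_le_of_forall_mem_sphere_norm_le j one_pos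
    (hF.diffContOnCl (s := Metric.ball s 1)) h1
  rw [one_pow, div_one] at h2
  refine h2.trans ?_
  have h3 : J ≤ Real.exp (|Real.log J| * (1 + ‖s‖) ^ a') := by
    conv_lhs => rw [← Real.exp_log hJ1]
    refine Real.exp_le_exp.2 ((le_abs_self _).trans ?_)
    exact le_mul_of_one_le_right (abs_nonneg _) hX
  calc J * Real.exp (|C| * 2 ^ a' * (1 + ‖s‖) ^ a') ≤
      Real.exp (|Real.log J| * (1 + ‖s‖) ^ a') * Real.exp (|C| * 2 ^ a' * (1 + ‖s‖) ^ a') :=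
        mul_le_mul_of_nonneg_right h3 (Real.exp_pos _).le
    _ = Real.exp ((|Real.log J| + |C| * 2 ^ a') * (1 + ‖s‖) ^ a') := by
        rw [← Real.exp_add]
        congr 1
        ring

end MP7ed9c3.Vz
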